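import Pool.Agent.Helper55.BT.Split
import Pool.Agent.Helper55.BT.DBox
import Pool.Agent.Helper45.AE.Main

/-!
# Corner-free sets given by twisted additive equations: the basic bound
-/

set_option autoImplicit false

open Module

namespace Pool.Agent.Helper55.BT

open Finset hiding box
open Pool.Agent.Helper45.AE (box CornerFree corners density)

/-- `E` consists of the `(x, y)` with `F(x) + G(y) + H(x + y) = B(x, y)` and `P(x, y) ≠ 0`, where
`B` is biadditive and `P(x, y) = ∑_{i < N} a_i(x) b_i(y) c_i(x + y)` with values in a field of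
characteristic two -/
def Twisted {n : ℕ} (N : ℕ) (E : Finset (V n × V n)) : Prop :=
  ∃ (K : Type) (_ : AddCommGroup K) (F G H : V n → K) (B : V n →+ V n →+ K)
    (L : Type) (_ : Field L) (_ : CharP L 2) (a b c : Fin N → V n → L),
    ∀ x y, (x, y) ∈ E ↔ F x + G y + H (x + y) = B x y ∧ ∑ i, a i x * b i y * c i (x + y) ≠ 0

theorem card_V' (n : ℕ) : Fintype.card (V n) = 2 ^ n := by simp [V, ZMod.card]

theorem card_sq (n : ℕ) : ((Fintype.card (V n) : ℕ) : ℝ) ^ 2 = 4 ^ n := by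
  rw [card_V']
  push_cast
  rw [← pow_mul, mul_comm, pow_mul]
  norm_num

theorem bias (h1 : S_B1) (h2 : S_B2) (h3 : S_B3) : ∃ C : ℕ, 0 < C ∧
    ∀ (n : ℕ) (K : Type) [AddCommGroup K] (B : V n →+ V n →+ K) (F G H : V n → K)
      (E : Finset (V n × V n)) (δ : ℝ), 0 < δ → δ ≤ 1 →
      (∀ p ∈ E, F p.1 + G p.2 + H (p.1 + p.2) = B p.1 p.2) → δ * 4 ^ n ≤ #E →
      (δ / 2) ^ C * 4 ^ n ≤ (Set.ncard {p : V n × V n | (B - B.flip) p.1 p.2 = 0} : ℝ) := by
  obtain ⟨C, hC⟩ := h2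
  refine ⟨8 * C + 1, by omega, fun n K _ B F G H E δ hδ hδ1 hE hd => ?_⟩
  have hV : ∀ v : V n, v + v = 0 := Split.add_self_V
  obtain ⟨c, Q, hQ, hQc⟩ := h1 (V n) K hV B F G H E δ hδ.le hE (by rw [card_sq]; exact hd)
  obtain ⟨ζ, ζ', D, hD, hDc⟩ := hC (V n) K hV B F c Q (δ ^ 2) (by positivity)
    (pow_le_one₀ hδ.le hδ1) hQ hQc
  have h4 := h3 (V n) K (B - B.flip) ζ ζ' D ((δ ^ 2 / 2) ^ C) (by positivity) (fun p hp => by
    rw [AddMonoidHom.sub_apply, AddMonoidHom.sub_apply, AddMonoidHom.flip_apply]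
    exact hD p hp) hDc
  rw [card_sq] at h4
  refine le_trans (mul_le_mul_of_nonneg_right ?_ (by positivity)) h4
  have h5 : (δ / 2) ^ 2 ≤ δ ^ 2 / 2 := by nlinarith [sq_nonneg δ]
  have h6 : δ / 2 ≤ 1 := by linarith
  calc (δ / 2) ^ (8 * C + 1) ≤ (δ / 2) ^ (8 * C) :=
        pow_le_pow_of_le_one (by positivity) h6 (by omega)
    _ = (((δ / 2) ^ 2) ^ C) ^ 4 := by rw [← pow_mul, ← pow_mul]; congr 1; ring
    _ ≤ ((δ ^ 2 / 2) ^ C) ^ 4 := by gcongr

/-- restriction to cosets -/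
theorem exists_coset {n m : ℕ} (ι : V m →+ V n) (E : Finset (V n × V n)) :
    ∃ q : V n × V n, 4 ^ m * #E ≤ 4 ^ n *
      #(univ.filter fun p : V m × V m => (q.1 + ι p.1, q.2 + ι p.2) ∈ E) := by
  classical
  have hsum : ∑ q : V n × V n, #(univ.filter fun p : V m × V m => (q.1 + ι p.1, q.2 + ι p.2) ∈ E) =
      4 ^ m * #E := by
    simp_rw [Finset.card_filter]
    rw [Finset.sum_comm]
    have h2 : ∀ p : V m × V m, (∑ q : V n × V n,
        if (q.1 + ι p.1, q.2 + ι p.2) ∈ E then 1 else 0) = #E := by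
      intro p
      rw [← Finset.card_filter]
      refine Finset.card_bij (fun q _ => (q.1 + ι p.1, q.2 + ι p.2)) ?_ ?_ ?_
      · intro q hq
        exact (mem_filter.1 hq).2
      · intro q _ q' _ h
        rw [Prod.mk.injEq] at h
        exact Prod.ext (add_right_cancel h.1) (add_right_cancel h.2)
      · intro q hq
        refine ⟨(q.1 - ι p.1, q.2 - ι p.2), ?_, ?_⟩
        · rw [mem_filter]
          refine ⟨mem_univ _, ?_⟩
          simpa only [sub_add_cancel] using hq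
        · simp only [sub_add_cancel]
    rw [Finset.sum_congr rfl fun p _ => h2 p, Finset.sum_const, Finset.card_univ,
      Fintype.card_prod, card_V', smul_eq_mul]
    congr 1
    rw [← mul_pow]
    norm_num
  have hcard : Fintype.card (V n × V n) = 4 ^ n := by
    rw [Fintype.card_prod, card_V', ← mul_pow]
    norm_num
  obtain ⟨q, -, hq⟩ := Finset.exists_le_of_sum_le (s := (univ : Finset (V n × V n)))
    (f := fun _ => 4 ^ m * #E)
    (g := fun q => 4 ^ n * #(univ.filter fun p : V m × V m => (q.1 + ι p.1, q.2 + ι p.2) ∈ E))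
    ⟨0, mem_univ _⟩ (by
      rw [Finset.sum_const, Finset.card_univ, hcard, ← Finset.mul_sum, hsum, smul_eq_mul])
  exact ⟨q, hq⟩

theorem binom_le (m w : ℕ) :
    ((∑ i ∈ range (w + 1), m.choose i : ℕ) : ℝ) ≤ 2 ^ (7 * w) * (129 / 128) ^ m := by
  have h1 : (129 / 128 : ℝ) ^ m = ∑ i ∈ range (m + 1), (1 / 128 : ℝ) ^ i * m.choose i := by
    have := add_pow (1 / 128 : ℝ) 1 m
    rw [show (129 / 128 : ℝ) = 1 / 128 + 1 by norm_num, this]
    refine Finset.sum_congr rfl fun i _ => ?_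
    rw [one_pow, mul_one]
  have h2 : ∑ i ∈ range (w + 1), (1 / 128 : ℝ) ^ i * m.choose i ≤
      ∑ i ∈ range (m + 1), (1 / 128 : ℝ) ^ i * m.choose i := by
    rcases le_total w m with h | h
    · refine Finset.sum_le_sum_of_subset_of_nonneg (Finset.range_mono (by omega)) fun i _ _ => ?_
      positivity
    · refine le_of_eq (Finset.sum_subset (Finset.range_mono (by omega)) fun i _ hi => ?_).symm
      rw [mem_range] at hi
      rw [Nat.choose_eq_zero_of_lt (by omega)]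
      simp
  rw [h1]
  refine le_trans ?_ (mul_le_mul_of_nonneg_left h2 (by positivity))
  rw [Finset.mul_sum]
  push_cast
  refine Finset.sum_le_sum fun i hi => ?_
  rw [mem_range] at hi
  have h3 : (1 : ℝ) ≤ 2 ^ (7 * w) * (1 / 128) ^ i := by
    have h4 : (2 : ℝ) ^ (7 * w) = 128 ^ w := by rw [pow_mul]; norm_num
    rw [h4, one_div, inv_pow, ← div_eq_mul_inv, one_le_div (by positivity)]
    exact pow_le_pow_right₀ (by norm_num) (by omega)
  calc (m.choose i : ℝ) = 1 * m.choose i := (one_mul _).symm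
    _ ≤ (2 ^ (7 * w) * (1 / 128) ^ i) * m.choose i :=
      mul_le_mul_of_nonneg_right h3 (Nat.cast_nonneg _)
    _ = _ := by ring

/-- the exponent -/
theorem exists_expo : ∃ e : ℕ, ∀ (m : ℕ) (K : Type) [AddCommGroup K] (F G H : V m → K)
    (A A0 : Finset (V m × V m)), A0 ⊆ A → (∀ p, p ∈ A ↔ F p.1 + G p.2 + H (p.1 + p.2) = 0) →
    ∀ δ : ℝ, 0 < δ → δ ≤ 1 → δ * 4 ^ m ≤ #A0 →
    ∃ X Y Z : Finset (V m), box X Y Z ⊆ A ∧ (δ / 2) ^ e * 4 ^ m ≤ #(A0 ∩ box X Y Z) := by
  refine ⟨8 * 20655 ^ 3, fun m K _ F G H A A0 h0 hA δ hδ hδ1 hd => ?_⟩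
  have := DBox.exists_box' (W := V m) Split.add_self_V F G H A A0 h0 hA hδ hδ1
    (by rw [card_sq]; exact hd)
  rw [card_sq] at this
  exact this

end Pool.Agent.Helper55.BT
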