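import Pool.Agent.Helper55.BT.Stm

/-!
# Project BT, part 3 (MP_db4732_co.BilinearTwists, helper55): nilpotent groups of class two
-/

set_option autoImplicit false

open Finset Module

namespace Pool.Agent.Helper55.BT

/-- AFF (mine). -/
def S_AFF (e : ℕ) : Prop :=
  ∀ (n : ℕ) (K : Type) [AddCommGroup K] (F G H : V n → K) (A0 : Finset (V n × V n)) (δ : ℝ),
    (∀ p ∈ A0, F p.1 + G p.2 + H (p.1 + p.2) = 0) → 0 < δ → δ ≤ 1 → δ * 4 ^ n ≤ #A0 →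
    ∃ (X Y Z : Finset (V n)) (L : V n →+ K) (c d : K), (∀ x ∈ X, F x = L x + c) ∧
      (∀ y ∈ Y, G y = L y + d) ∧ (∀ w ∈ Z, H w = -(L w + c + d)) ∧
      (δ / 2) ^ e * 4 ^ n ≤ #(A0.filter fun p => p.1 ∈ X ∧ p.2 ∈ Y ∧ p.1 + p.2 ∈ Z)

/-- central lifts with `M = 1` (copy of the definition of the main theorem) -/
def CLift {n : ℕ} (N : ℕ) (E : Finset (V n × V n)) : Prop :=
  ∃ (Γ : Type) (_ : Group Γ) (π : Γ → V n) (P Q R : Finset Γ)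
    (L : Type) (_ : Field L) (_ : CharP L 2) (a b c : Fin N → V n → L),
    (∀ p q, π (p * q) = π p + π q) ∧ (∀ p, π p = 0 → ∀ q, p * q = q * p) ∧
    (#P : ℝ) ≤ (1 : ℝ) * 2 ^ n ∧ (#Q : ℝ) ≤ (1 : ℝ) * 2 ^ n ∧ (#R : ℝ) ≤ (1 : ℝ) * 2 ^ n ∧
      ∀ x y, (x, y) ∈ E ↔ (∃ p ∈ P, ∃ q ∈ Q, p * q ∈ R ∧ π p = x ∧ π q = y) ∧
        ∑ i, a i x * b i y * c i (x + y) ≠ 0

/-- NIL. `Γ` is nilpotent of class at most two, `φ`, `ψ`, `χ` are arbitrary functions. Proof: with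
`Γ' = Γ ⧸ center Γ` (abelian by `hcl`), `K = Additive Γ'`, apply `S_AFF` to the classes `F` of `φ`, `G` of
`ψ`, `H` of `χ⁻¹` (`A0 = E`, `δ` its density): `F = L + c` on `X`, `G = L + d` on `Y`,
`H = -(L + c + d)` on `Z`. Let `g`, `h` be lifts of `c`, `d` to `Γ`.
`E0 = {p ∈ E | p.1 ∈ X, p.2 ∈ Y, p.1 + p.2 ∈ Z}`. The group of the central lift is the subgroup
`{(v, k) | class of k = L v}` of `Multiplicative (V n) × Γ`, `π (v, k) = v`; its kernel `{(0, z)}`,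
`z ∈ center Γ`, is central. `P = {(x, g⁻¹ φ(x)) | x ∈ X}`, `Q = {(y, ψ(y) h⁻¹) | y ∈ Y}`,
`R = {(w, g⁻¹ χ(w) h⁻¹) | w ∈ Z}`; `a`, `b`, `c` stay the same. (If `E` is empty: `E0 = ∅`, `δ = 0`;
use `P = Q = R = ∅`; take `e + 1` as the exponent so that `0 ^ (e + 1) = 0`.) -/
def S_NIL : Prop :=
  ∀ e : ℕ, S_AFF e → ∀ (n N : ℕ) (Γ : Type) [Group Γ],
    (∀ g h k : Γ, g * h * g⁻¹ * h⁻¹ * k = k * (g * h * g⁻¹ * h⁻¹)) →
    ∀ (φ ψ χ : V n → Γ) (L : Type) [Field L] [CharP L 2] (a b c : Fin N → V n → L)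
      (E : Finset (V n × V n)),
      (∀ x y, (x, y) ∈ E ↔ φ x * ψ y = χ (x + y) ∧ ∑ i, a i x * b i y * c i (x + y) ≠ 0) →
      ∃ E0 : Finset (V n × V n), E0 ⊆ E ∧ CLift N E0 ∧
        ((#E : ℝ) / 4 ^ n / 2) ^ (e + 1) ≤ (#E0 : ℝ) / 4 ^ n

end Pool.Agent.Helper55.BT
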