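import Pool.Agent.Helper45.AE.Box
import Pool.Agent.Helper55.BT.Stm3
import Pool.Agent.Helper55.BT.Core

/-!
# Additive equations: affine functions on a large part
(adapted from helper45's `Pool/Agent/Helper45/AE/Box.lean`)
-/

set_option autoImplicit false

namespace Pool.Agent.Helper55.BT.AFF

open Finset hiding box
open Pool.Agent.Helper45.AE (num_chain piece num_final exists_fiber)
open scoped Pointwise

variable {W : Type*} [AddCommGroup W] [Fintype W] [DecidableEq W]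

/-- The last step: all three functions are affine. -/
theorem aff_of_affine {K : Type*} [AddCommGroup K] (F G H : W → K) (A3 : Finset (W × W))
    (hA3 : ∀ p ∈ A3, F p.1 + G p.2 + H (p.1 + p.2) = 0) (X Y Z : Finset W)
    (hX : ∀ p ∈ A3, p.1 ∈ X) (hY : ∀ p ∈ A3, p.2 ∈ Y) (hZ : ∀ p ∈ A3, p.1 + p.2 ∈ Z)
    (ψ φ χ : W →+ K) (a b c : K) (hF : ∀ x ∈ X, F x = ψ x + a) (hG : ∀ y ∈ Y, G y = φ y + b)
    (hH : ∀ w ∈ Z, H w = χ w + c) :
    ∃ (X' Y' Z' : Finset W) (L : W →+ K) (c1 d1 : K), (∀ x ∈ X', F x = L x + c1) ∧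
      (∀ y ∈ Y', G y = L y + d1) ∧ (∀ w ∈ Z', H w = -(L w + c1 + d1)) ∧
      #A3 ^ 2 ≤ Fintype.card W ^ 2 *
        #(A3.filter fun p => p.1 ∈ X' ∧ p.2 ∈ Y' ∧ p.1 + p.2 ∈ Z') := by
  classical
  rcases A3.eq_empty_or_nonempty with h0 | hne
  · refine ⟨∅, ∅, ∅, 0, 0, 0, by simp, by simp, by simp, by rw [h0]; simp⟩
  have hrel : ∀ p ∈ A3, (ψ + χ) p.1 + (φ + χ) p.2 + (a + b + c) = 0 := by
    intro p hp
    have := hA3 p hp
    rw [hF _ (hX p hp), hG _ (hY p hp), hH _ (hZ p hp), map_add] at this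
    rw [← this]
    simp only [AddMonoidHom.add_apply]
    abel
  set M := ψ + χ with hM
  set R : Finset K := univ.image M with hR
  have hu : ∀ r ∈ R, ∃ u, M u = r := fun r hr => by
    obtain ⟨u, -, hu⟩ := mem_image.1 hr
    exact ⟨u, hu⟩
  choose! u hu using hu
  have h1 : #R * #A3 ≤ Fintype.card W ^ 2 := by
    have : Fintype.card W ^ 2 = #(univ : Finset (W × W)) := by
      rw [Finset.card_univ, Fintype.card_prod, sq]
    rw [this, ← Finset.card_product]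
    refine Finset.card_le_card_of_injOn (fun q => (q.2.1 + u q.1, q.2.2)) (fun _ _ => mem_coe.2 (mem_univ _)) ?_
    intro q hq q' hq' h
    rw [mem_coe, mem_product] at hq hq'
    rw [Prod.mk.injEq] at h
    have e1 := hrel _ hq.2
    have e2 := hrel _ hq'.2
    rw [← h.2] at e2
    have e3 : M q.2.1 = M q'.2.1 := add_right_cancel (add_right_cancel (e1.trans e2.symm))
    have e4 := congrArg M h.1
    rw [map_add, map_add, hu _ hq.1, hu _ hq'.1, e3] at e4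
    have e5 : q.1 = q'.1 := add_left_cancel e4
    have e6 := h.1
    rw [e5] at e6
    exact Prod.ext e5 (Prod.ext (add_right_cancel e6) h.2)
  have him : (#(A3.image fun p => M p.1) : ℝ) ≤ #R := by
    have : #(A3.image fun p => M p.1) ≤ #R := by
      refine Finset.card_le_card fun k hk => ?_
      obtain ⟨p, _, rfl⟩ := mem_image.1 hk
      exact mem_image_of_mem _ (mem_univ _)
    exact_mod_cast this
  obtain ⟨μ, hμ, -⟩ := exists_fiber hne (fun p => M p.1) him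
  refine ⟨X.filter fun x => M x = μ, Y.filter fun y => μ + (φ + χ) y + (a + b + c) = 0, Z,
    -χ, μ + a, -μ - a - c, ?_, ?_, ?_, ?_⟩
  · intro x hx
    obtain ⟨h3, h4⟩ := mem_filter.1 hx
    rw [hF _ h3, ← h4, hM, AddMonoidHom.neg_apply, AddMonoidHom.add_apply]
    abel
  · intro y hy
    obtain ⟨h3, h4⟩ := mem_filter.1 hy
    rw [hG _ h3, AddMonoidHom.neg_apply]
    rw [AddMonoidHom.add_apply] at h4
    have h5 : φ y + b - (-χ y + (-μ - a - c)) = μ + (φ y + χ y) + (a + b + c) := by abel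
    rw [← sub_eq_zero, h5, h4]
  · intro w hw
    rw [hH _ hw, AddMonoidHom.neg_apply]
    abel
  · have h3 : #(A3.filter fun p => M p.1 = μ) ≤
        #(A3.filter fun p => p.1 ∈ X.filter (fun x => M x = μ) ∧
          p.2 ∈ Y.filter (fun y => μ + (φ + χ) y + (a + b + c) = 0) ∧ p.1 + p.2 ∈ Z) := by
      refine Finset.card_le_card fun p hp => ?_
      obtain ⟨h4, h5⟩ := mem_filter.1 hp
      rw [mem_filter]
      refine ⟨h4, mem_filter.2 ⟨hX p h4, h5⟩, mem_filter.2 ⟨hY p h4, ?_⟩, hZ p h4⟩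
      rw [← h5]
      exact hrel p h4
    have h4 : #A3 ≤ #R * #(A3.filter fun p => M p.1 = μ) := by exact_mod_cast hμ
    calc #A3 ^ 2 = #A3 * #A3 := sq _
      _ ≤ (#R * #(A3.filter fun p => M p.1 = μ)) * #A3 := Nat.mul_le_mul_right _ h4
      _ = (#R * #A3) * #(A3.filter fun p => M p.1 = μ) := by ring
      _ ≤ _ := Nat.mul_le_mul h1 h3

theorem exists_affine' {K : Type*} [AddCommGroup K] (h2 : ∀ w : W, w + w = 0)
    (F G H : W → K) (A0 : Finset (W × W))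
    (hA : ∀ p ∈ A0, F p.1 + G p.2 + H (p.1 + p.2) = 0)
    {δ : ℝ} (hδ : 0 < δ) (hδ1 : δ ≤ 1) (hd : δ * (Fintype.card W : ℝ) ^ 2 ≤ #A0) :
    ∃ (X Y Z : Finset W) (L : W →+ K) (c1 d1 : K), (∀ x ∈ X, F x = L x + c1) ∧
      (∀ y ∈ Y, G y = L y + d1) ∧ (∀ w ∈ Z, H w = -(L w + c1 + d1)) ∧
      (δ / 2) ^ (8 * 20655 ^ 3) * (Fintype.card W : ℝ) ^ 2 ≤
        #(A0.filter fun p => p.1 ∈ X ∧ p.2 ∈ Y ∧ p.1 + p.2 ∈ Z) := by
  classical
  set N : ℝ := (Fintype.card W : ℝ) with hN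
  have hN0 : 0 < N := by
    rw [hN]; exact_mod_cast Fintype.card_pos_iff.2 ⟨(0 : W)⟩
  set a : ℕ := 20655 with ha
  -- first coordinate
  obtain ⟨X, ψ, cX, hψ, h1⟩ := piece h2 F G H A0 hA hδ hδ1 hd
  set A1 := A0.filter fun p => p.1 ∈ X with hA1
  obtain ⟨p1, q1, r1⟩ := num_chain δ hδ hδ1 a (by norm_num [ha])
  set d1 := (δ / 2) ^ a with hd1
  -- second coordinate
  set B1 := A1.image Prod.swap with hB1
  have hB1c : #B1 = #A1 := Finset.card_image_of_injective _ Prod.swap_injective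
  obtain ⟨Y, φ, cY, hφ, h3⟩ := piece h2 G F H B1 (fun p hp => by
    obtain ⟨q, hq, rfl⟩ := mem_image.1 hp
    have := hA q (mem_filter.1 hq).1
    rw [← this]
    simp only [Prod.fst_swap, Prod.snd_swap]
    rw [add_comm (G q.2), add_comm q.2]) p1 (q1.trans (by norm_num)) (by rw [hB1c]; exact h1)
  set A2 := A1.filter fun p => p.2 ∈ Y with hA2
  have h4 : #(B1.filter fun p => p.1 ∈ Y) = #A2 := by
    have : B1.filter (fun p => p.1 ∈ Y) = A2.image Prod.swap := by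
      ext p
      simp only [hB1, hA2, mem_filter, mem_image]
      constructor
      · rintro ⟨⟨q, hq, rfl⟩, h⟩
        exact ⟨q, ⟨hq, h⟩, rfl⟩
      · rintro ⟨q, ⟨hq, h⟩, rfl⟩
        exact ⟨⟨q, hq, rfl⟩, h⟩
    rw [this, Finset.card_image_of_injective _ Prod.swap_injective]
  rw [h4] at h3
  obtain ⟨p2, q2, r2⟩ := num_chain d1 p1 (q1.trans (by norm_num)) a (by norm_num [ha])
  set d2 := (d1 / 2) ^ a with hd2
  -- third coordinate
  have hs : Function.Injective fun p : W × W => (p.1 + p.2, p.2) := by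
    intro p q h
    rw [Prod.mk.injEq] at h
    have e := h.1
    rw [h.2] at e
    exact Prod.ext (add_right_cancel e) h.2
  set B2 := A2.image fun p => (p.1 + p.2, p.2) with hB2
  have hB2c : #B2 = #A2 := Finset.card_image_of_injective _ hs
  obtain ⟨Z, χ, cZ, hχ, h5⟩ := piece h2 H G F B2 (fun p hp => by
    obtain ⟨q, hq, rfl⟩ := mem_image.1 hp
    have := hA q (mem_filter.1 (mem_filter.1 hq).1).1
    rw [← this]
    have e : q.1 + q.2 + q.2 = q.1 := by rw [add_assoc, h2, add_zero]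
    simp only [e]
    abel) p2 (q2.trans (by norm_num)) (by rw [hB2c]; exact h3)
  set A3 := A2.filter fun p => p.1 + p.2 ∈ Z with hA3
  have h6 : #(B2.filter fun p => p.1 ∈ Z) = #A3 := by
    have : B2.filter (fun p => p.1 ∈ Z) = A3.image fun p => (p.1 + p.2, p.2) := by
      ext p
      simp only [hB2, hA3, mem_filter, mem_image]
      constructor
      · rintro ⟨⟨q, hq, rfl⟩, h⟩
        exact ⟨q, ⟨hq, h⟩, rfl⟩
      · rintro ⟨q, ⟨hq, h⟩, rfl⟩
        exact ⟨⟨q, hq, rfl⟩, h⟩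
    rw [this, Finset.card_image_of_injective _ hs]
  rw [h6] at h5
  obtain ⟨p3, q3, r3⟩ := num_chain d2 p2 (q2.trans (by norm_num)) a (by norm_num [ha])
  set d3 := (d2 / 2) ^ a with hd3
  have hA30 : A3 ⊆ A0 :=
    ((Finset.filter_subset _ _).trans (Finset.filter_subset _ _)).trans (Finset.filter_subset _ _)
  obtain ⟨X', Y', Z', L, cc, dd, k1, k2, k3, hb2⟩ := aff_of_affine F G H A3
    (fun p hp => hA p (hA30 hp))
    X Y Z (fun p hp => (mem_filter.1 (mem_filter.1 (mem_filter.1 hp).1).1).2)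
    (fun p hp => (mem_filter.1 (mem_filter.1 hp).1).2) (fun p hp => (mem_filter.1 hp).2)
    ψ φ χ cX cY cZ hψ hφ hχ
  refine ⟨X', Y', Z', L, cc, dd, k1, k2, k3, ?_⟩
  have hb3 : (#A3 : ℝ) ^ 2 ≤ N ^ 2 * #(A3.filter fun p => p.1 ∈ X' ∧ p.2 ∈ Y' ∧ p.1 + p.2 ∈ Z') := by rw [hN]; exact_mod_cast hb2
  have h7 : (d3 * N ^ 2) ^ 2 ≤ N ^ 2 * #(A3.filter fun p => p.1 ∈ X' ∧ p.2 ∈ Y' ∧ p.1 + p.2 ∈ Z') :=
    (pow_le_pow_left₀ (by positivity) h5 2).trans hb3
  have h8 : d3 ^ 2 * N ^ 2 ≤ #(A3.filter fun p => p.1 ∈ X' ∧ p.2 ∈ Y' ∧ p.1 + p.2 ∈ Z') := by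
    have : N ^ 2 * (d3 ^ 2 * N ^ 2) ≤ N ^ 2 * #(A3.filter fun p => p.1 ∈ X' ∧ p.2 ∈ Y' ∧ p.1 + p.2 ∈ Z') := by
      calc N ^ 2 * (d3 ^ 2 * N ^ 2) = (d3 * N ^ 2) ^ 2 := by ring
        _ ≤ _ := h7
    exact le_of_mul_le_mul_left this (by positivity)
  have h9 : (#(A3.filter fun p => p.1 ∈ X' ∧ p.2 ∈ Y' ∧ p.1 + p.2 ∈ Z') : ℝ) ≤ #(A0.filter fun p => p.1 ∈ X' ∧ p.2 ∈ Y' ∧ p.1 + p.2 ∈ Z') := by
    exact_mod_cast Finset.card_le_card (Finset.filter_subset_filter _ hA30)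
  refine le_trans (mul_le_mul_of_nonneg_right ?_ (by positivity)) (h8.trans h9)
  exact num_final (δ / 2) (by linarith) a d1 d2 d3 hd1 hd2 hd3 r1 r2

theorem main : S_AFF (8 * 20655 ^ 3) := by
  intro n K _ F G H A0 δ hA hδ hδ1 hd
  have := exists_affine' (W := V n) Split.add_self_V F G H A0 hA hδ hδ1
    (by rw [card_sq]; exact hd)
  rw [card_sq] at this
  obtain ⟨X, Y, Z, L, c1, d1, k1, k2, k3, hb⟩ := this
  refine ⟨X, Y, Z, L, c1, d1, k1, k2, k3, hb.trans (le_of_eq ?_)⟩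
  congr 2

end Pool.Agent.Helper55.BT.AFF
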