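import Pool.Agent.Helper55.BT.Stm

/-!
# One halving step (module AVG)
-/

set_option autoImplicit false

open Finset Module

namespace Pool.Agent.Helper55.BT.AVG

open Pool.Agent.Helper55.BT

theorem main (h1 : S_AVG1) (h2 : S_AVG2) : S_AVG := by
  classical
  intro V P _ _ R p₀ S r m hS hm hr
  obtain ⟨q, hq, hcost, hcase⟩ := h1 V P R p₀ S r m hS hm hr
  have hrq : ∀ a ∈ S, R.ρ q a ≤ r := fun a ha => (R.mono q p₀ a hq).trans (hr a ha)
  have hcardV : S.card ≤ Fintype.card V := Finset.card_le_univ S
  have hSpos : 0 < S.card := hS.card_pos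
  rcases hcase with hA | hB
  · refine ⟨q, S.filter (fun a => 2 * R.ρ q a ≤ r), filter_subset _ _, hq, ?_, ?_, ?_⟩
    · have : 32 * m ^ 2 * r ≤ 34 * m ^ 2 * r := by gcongr; norm_num
      omega
    · intro a ha
      exact (mem_filter.1 ha).2
    · -- counting
      set T := S.filter (fun a => 2 * R.ρ q a ≤ r) with hT
      have hhalf : S.card ≤ 2 * T.card := by
        rcases Nat.eq_zero_or_pos r with h0 | hpos
        · have : T = S := by
            rw [hT, filter_eq_self]
            intro a ha
            have := hrq a ha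
            omega
          rw [this]; omega
        · have hg : (∑ a ∈ S, (R.ρ q a : ℝ)) / S.card ≤ r / 4 := hA
          have hS0 : (0 : ℝ) < S.card := by exact_mod_cast hSpos
          rw [div_le_iff₀ hS0] at hg
          have hsplit : S.card = T.card + (S.filter (fun a => ¬ 2 * R.ρ q a ≤ r)).card := by
            rw [hT, card_filter_add_card_filter_not]
          set T' := S.filter (fun a => ¬ 2 * R.ρ q a ≤ r) with hT'
          have hlow : (T'.card : ℝ) * (r / 2) ≤ ∑ a ∈ S, (R.ρ q a : ℝ) := by
            calc (T'.card : ℝ) * (r / 2) = ∑ a ∈ T', (r / 2 : ℝ) := by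
                  rw [sum_const, nsmul_eq_mul]
              _ ≤ ∑ a ∈ T', (R.ρ q a : ℝ) := by
                  refine sum_le_sum fun a ha => ?_
                  have h3 := (mem_filter.1 ha).2
                  push Not at h3
                  have h4 : (r : ℝ) < 2 * (R.ρ q a : ℝ) := by exact_mod_cast h3
                  linarith
              _ ≤ ∑ a ∈ S, (R.ρ q a : ℝ) :=
                  sum_le_sum_of_subset_of_nonneg (filter_subset _ _) fun _ _ _ => by positivity
          have hr0 : (0 : ℝ) < r := by exact_mod_cast hpos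
          have h5 : (T'.card : ℝ) * 2 ≤ S.card := by
            have h6 : (T'.card : ℝ) * (r / 2) ≤ r / 4 * S.card := hlow.trans hg
            have h7 : ((T'.card : ℝ) * 2) * (r / 4) ≤ S.card * (r / 4) := by linarith
            exact le_of_mul_le_mul_right h7 (by positivity)
          have h8 : T'.card * 2 ≤ S.card := by exact_mod_cast h5
          omega
      obtain ⟨k, rfl⟩ : ∃ k, m = k + 1 := ⟨m - 1, by omega⟩
      rw [Nat.add_sub_cancel]
      calc S.card ^ (k + 1) = S.card ^ k * S.card := pow_succ _ _
        _ ≤ (2 * T.card) ^ k * Fintype.card V := by gcongr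
        _ = 2 ^ k * Fintype.card V * T.card ^ k := by rw [mul_pow]; ring
        _ ≤ 2 ^ (k + 1) * Fintype.card V * T.card ^ k := by
            gcongr
            · norm_num
            · omega
  · obtain ⟨c, S', hS', hc, hhalf, hcard⟩ := h2 V P R q S r m hS hm hrq hB
    refine ⟨R.cmp q q c, S', hS', R.trans _ _ _ (R.cmp_le q q c) hq, ?_, hhalf, ?_⟩
    · have h3 := R.cost_cmp q q c (R.refl q)
      have h4 : 2 * (m * r) ≤ 2 * (m ^ 2 * r) := by
        have : m ≤ m ^ 2 := Nat.le_self_pow (by norm_num) m
        gcongr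
      have h5 : 34 * m ^ 2 * r = 32 * m ^ 2 * r + 2 * (m ^ 2 * r) := by ring
      rw [h5]
      omega
    · refine hcard.trans ?_
      gcongr
      calc 2 = 2 ^ 1 := (pow_one 2).symm
        _ ≤ 2 ^ m := Nat.pow_le_pow_right (by norm_num) (by omega)

end Pool.Agent.Helper55.BT.AVG
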