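import Pool.Agent.Helper55.BT.Stm

/-!
# Project BT: module AVG1
-/

set_option autoImplicit false

namespace Pool.Agent.Helper55.BT.AVG1

variable {V P : Type} [AddCommGroup V]

lemma g_zero (R : RankSystem V P) (S : Finset V) (p q : P) :
    g R S p 0 q = (∑ a ∈ S, (R.ρ q a : ℝ)) / S.card := rfl

lemma g_succ (R : RankSystem V P) (S : Finset V) (p q : P) (j : ℕ) :
    g R S p (j + 1) q = (∑ b ∈ S, g R S p j (R.cmp p q b)) / S.card := rfl

lemma g_nonneg (R : RankSystem V P) (S : Finset V) (p : P) (j : ℕ) :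
    ∀ q, 0 ≤ g R S p j q := by
  induction j with
  | zero => intro q; rw [g_zero]; positivity
  | succ j ih =>
    intro q
    rw [g_succ]
    exact div_nonneg (Finset.sum_nonneg fun b _ => ih _) (by positivity)

/-- a smaller base gives larger values -/
lemma g_base (R : RankSystem V P) (S : Finset V) {p p' : P} (h : R.le p' p) (j : ℕ) :
    ∀ x x', R.le x x' → g R S p j x ≤ g R S p' j x' := by
  induction j with
  | zero =>
    intro x x' hx
    rw [g_zero, g_zero]
    refine div_le_div_of_nonneg_right (Finset.sum_le_sum fun a _ => ?_) (by positivity)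
    exact_mod_cast R.mono x x' a hx
  | succ j ih =>
    intro x x' hx
    rw [g_succ, g_succ]
    refine div_le_div_of_nonneg_right (Finset.sum_le_sum fun a _ => ?_) (by positivity)
    exact ih _ _ (R.cmp_mono p p' x x' a h hx)

/-- a state reachable by `k` compressions -/
lemma reach (R : RankSystem V P) (S : Finset V) (hS : S.Nonempty) (p₀ : P) (r : ℕ)
    (hr : ∀ a ∈ S, R.ρ p₀ a ≤ r) (α β c : ℝ) (i j k : ℕ) :
    ∀ q, R.le q p₀ → α * g R S p₀ (i + k) q ≤ β * g R S p₀ (j + k) q + c →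
      ∃ q', R.le q' p₀ ∧ R.cost q' ≤ R.cost q + 2 * r * k ∧
        α * g R S p₀ i q' ≤ β * g R S p₀ j q' + c := by
  induction k with
  | zero => exact fun q hq h => ⟨q, hq, by simp, h⟩
  | succ k ih =>
    intro q hq h
    have hc : (0 : ℝ) < S.card := by exact_mod_cast hS.card_pos
    have key : ∃ b ∈ S, α * g R S p₀ (i + k) (R.cmp p₀ q b) ≤
        β * g R S p₀ (j + k) (R.cmp p₀ q b) + c := by
      refine Finset.exists_le_of_sum_le hS ?_
      rw [← add_assoc, ← add_assoc, g_succ, g_succ, mul_div_assoc', mul_div_assoc', div_add' _ _ _ hc.ne',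
        div_le_div_iff_of_pos_right hc] at h
      rw [← Finset.mul_sum, Finset.sum_add_distrib, ← Finset.mul_sum, Finset.sum_const,
        nsmul_eq_mul]
      linarith
    obtain ⟨b, hb, hb2⟩ := key
    have hle : R.le (R.cmp p₀ q b) p₀ := R.trans _ _ _ (R.cmp_le p₀ q b) hq
    obtain ⟨q', h1, h2, h3⟩ := ih _ hle hb2
    refine ⟨q', h1, h2.trans ?_, h3⟩
    have h4 := R.cost_cmp p₀ q b hq
    have h5 := hr b hb
    calc R.cost (R.cmp p₀ q b) + 2 * r * k ≤ R.cost q + 2 * r + 2 * r * k := by omega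
      _ = R.cost q + 2 * r * (k + 1) := by ring

lemma pow_le {m : ℕ} (hm : 2 ≤ m) : (1 - 1 / (8 * (m : ℝ))) ^ (16 * m) ≤ 1 / 4 := by
  have hm0 : (0 : ℝ) < m := by exact_mod_cast (by omega : 0 < m)
  have hm1 : (2 : ℝ) ≤ m := by exact_mod_cast hm
  have h0 : (0 : ℝ) ≤ 1 - 1 / (8 * (m : ℝ)) := by
    rw [sub_nonneg, div_le_one (by positivity)]
    linarith
  have h1 : 1 - 1 / (8 * (m : ℝ)) ≤ Real.exp (-(1 / (8 * (m : ℝ)))) := by
    have := Real.add_one_le_exp (-(1 / (8 * (m : ℝ))))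
    linarith
  have h2 : (1 - 1 / (8 * (m : ℝ))) ^ (16 * m) ≤ Real.exp (-2) := by
    calc (1 - 1 / (8 * (m : ℝ))) ^ (16 * m) ≤ (Real.exp (-(1 / (8 * (m : ℝ))))) ^ (16 * m) :=
          pow_le_pow_left₀ h0 h1 _
      _ = Real.exp (-2) := by
          rw [← Real.exp_nat_mul]
          congr 1
          push_cast
          field_simp
          ring
  have h3 : Real.exp (-2) ≤ 1 / 4 := by
    have h4 : (4 : ℝ) ≤ Real.exp 2 := by
      have h5 := Real.exp_one_gt_d9
      have h6 : Real.exp 2 = Real.exp 1 * Real.exp 1 := by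
        rw [← Real.exp_add]; norm_num
      rw [h6]
      nlinarith
    rw [Real.exp_neg, inv_le_comm₀ (Real.exp_pos _) (by norm_num)]
    simpa using h4
  exact h2.trans h3

theorem main : S_AVG1 := by
  intro V P _ _ R p₀ S r m hS hm hr
  have hc : (0 : ℝ) < S.card := by exact_mod_cast hS.card_pos
  have hm0 : (0 : ℝ) < m := by exact_mod_cast (by omega : 0 < m)
  have hm1 : (2 : ℝ) ≤ m := by exact_mod_cast hm
  have hη : (0 : ℝ) ≤ 1 - 1 / (8 * (m : ℝ)) := by
    rw [sub_nonneg, div_le_one (by positivity)]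
    linarith
  have hg0 : g R S p₀ 0 p₀ ≤ r := by
    rw [g_zero, div_le_iff₀ hc]
    calc (∑ a ∈ S, (R.ρ p₀ a : ℝ)) ≤ ∑ a ∈ S, (r : ℝ) :=
          Finset.sum_le_sum fun a ha => by exact_mod_cast hr a ha
      _ = r * S.card := by rw [Finset.sum_const, nsmul_eq_mul, mul_comm]
  by_cases hB : ∃ i < 16 * m, (1 - 1 / (8 * (m : ℝ))) * g R S p₀ (i * m) p₀ ≤
      g R S p₀ ((i + 1) * m) p₀
  · obtain ⟨i, hi, h⟩ := hB
    obtain ⟨q, h1, h2, h3⟩ := reach R S hS p₀ r hr (1 - 1 / (8 * (m : ℝ))) 1 0 0 m (i * m) p₀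
      (R.refl p₀) (by
        rw [zero_add, one_mul, add_zero]
        have : m + i * m = (i + 1) * m := by ring
        rw [this]
        exact h)
    refine ⟨q, h1, h2.trans ?_, Or.inr ?_⟩
    · have : i * m ≤ 16 * m * m := Nat.mul_le_mul_right m hi.le
      calc R.cost p₀ + 2 * r * (i * m) ≤ R.cost p₀ + 2 * r * (16 * m * m) := by gcongr
        _ = R.cost p₀ + 32 * m ^ 2 * r := by ring
    · rw [one_mul, add_zero] at h3
      exact h3.trans (g_base R S h1 m q q (R.refl q))
  · push Not at hB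
    have hind : ∀ i ≤ 16 * m, g R S p₀ (i * m) p₀ ≤
        (1 - 1 / (8 * (m : ℝ))) ^ i * g R S p₀ 0 p₀ := by
      intro i
      induction i with
      | zero => intro _; simp
      | succ i ih =>
        intro hi
        have h1 := ih (by omega)
        have h2 := (hB i (by omega)).le
        calc g R S p₀ ((i + 1) * m) p₀ ≤ (1 - 1 / (8 * (m : ℝ))) * g R S p₀ (i * m) p₀ := h2
          _ ≤ (1 - 1 / (8 * (m : ℝ))) * ((1 - 1 / (8 * (m : ℝ))) ^ i * g R S p₀ 0 p₀) :=
              mul_le_mul_of_nonneg_left h1 hη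
          _ = _ := by ring
    have h1 := hind (16 * m) le_rfl
    have h2 : g R S p₀ (16 * m * m) p₀ ≤ r / 4 := by
      calc g R S p₀ (16 * m * m) p₀ ≤ _ := h1
        _ ≤ 1 / 4 * r := mul_le_mul (pow_le hm) hg0 (g_nonneg R S p₀ 0 p₀) (by norm_num)
        _ = r / 4 := by ring
    obtain ⟨q, h3, h4, h5⟩ := reach R S hS p₀ r hr 1 0 (r / 4) 0 0 (16 * m * m) p₀
      (R.refl p₀) (by rw [zero_add, one_mul, zero_mul, zero_add]; exact h2)
    refine ⟨q, h3, h4.trans (le_of_eq (by ring)), Or.inl ?_⟩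
    rw [one_mul, zero_mul, zero_add] at h5
    exact h5

end Pool.Agent.Helper55.BT.AVG1
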