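import Pool.Agent.Helper55.BT.Stm

/-! # Project BT, module AVG2 (author: helper59) -/

set_option autoImplicit false

open Finset Module

namespace Pool.Agent.Helper55.BT.AVG2

variable {V P : Type} [AddCommGroup V] (R : RankSystem V P) (S : Finset V) (q : P)

theorem g_mono : ∀ (j : ℕ) (q1 q2 : P), R.le q1 q2 → g R S q j q1 ≤ g R S q j q2 := by
  intro j
  induction j with
  | zero =>
    intro q1 q2 h
    unfold g
    gcongr with a ha
    exact R.mono q1 q2 a h
  | succ j ih =>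
    intro q1 q2 h
    unfold g
    gcongr with b hb
    exact ih _ _ (R.cmp_mono q q q1 q2 b (R.refl q) h)

theorem g_anti (hS : S.Nonempty) (j : ℕ) (q' : P) : g R S q (j + 1) q' ≤ g R S q j q' := by
  have hc : (0 : ℝ) < S.card := by exact_mod_cast hS.card_pos
  rw [g, div_le_iff₀ hc]
  calc ∑ b ∈ S, g R S q j (R.cmp q q' b) ≤ ∑ _b ∈ S, g R S q j q' :=
        Finset.sum_le_sum fun b _ => g_mono R S q j _ _ (R.cmp_le q q' b)
    _ = g R S q j q' * S.card := by rw [Finset.sum_const, nsmul_eq_mul, mul_comm]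

theorem g_anti' (hS : S.Nonempty) (q' : P) {i m : ℕ} (h : i ≤ m) : g R S q m q' ≤ g R S q i q' := by
  induction m, h using Nat.le_induction with
  | base => exact le_rfl
  | succ n _ ih => exact (g_anti R S q hS n q').trans ih

omit [AddCommGroup V] in
theorem sum_cons {M : Type} [AddCommMonoid M] {k : ℕ} (f : (Fin (k + 1) → S) → M) :
    ∑ t : Fin (k + 1) → S, f t = ∑ b : S, ∑ t : Fin k → S, f (Fin.cons b t) := by
  rw [← Fintype.sum_prod_type']
  exact (Fintype.sum_equiv (Fin.consEquiv (fun _ : Fin (k + 1) => S)) _ _ (fun _ => rfl)).symm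

theorem low (hS : S.Nonempty) : ∀ (k : ℕ) (q' : P) (c : V), R.le q' q → R.Abs q q' c →
    (S.card : ℝ) ^ k * ((R.ρ q c : ℝ) + ∑ i ∈ range k, 2 * g R S q i q' - k * g R S q 0 q) ≤
      ∑ t : Fin k → S, (R.ρ q (c + ∑ i, (t i : V)) : ℝ) := by
  have hc : (0 : ℝ) < S.card := by exact_mod_cast hS.card_pos
  intro k
  induction k with
  | zero =>
    intro q' c _ _
    simp
  | succ k ih =>
    intro q' c hq' hA
    rw [sum_cons]
    have h1 : ∀ b : S, (S.card : ℝ) ^ k * ((R.ρ q c : ℝ) + 2 * R.ρ q' b - R.ρ q b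
        + ∑ i ∈ range k, 2 * g R S q i (R.cmp q q' b) - k * g R S q 0 q) ≤
        ∑ t : Fin k → S, (R.ρ q (c + ∑ i, ((Fin.cons b t : Fin (k + 1) → S) i : V)) : ℝ) := by
      intro b
      have h2 := ih (R.cmp q q' b) (c + b) (R.trans _ _ _ (R.cmp_le q q' b) hq') (R.abs_cmp q q' c b hA)
      have h3 : (R.ρ q c : ℝ) + 2 * R.ρ q' b ≤ R.ρ q (c + b) + R.ρ q b := by
        exact_mod_cast R.add_le q q' c b hq' hA
      have h4 : ∑ t : Fin k → S, (R.ρ q (c + ∑ i, ((Fin.cons b t : Fin (k + 1) → S) i : V)) : ℝ) =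
          ∑ t : Fin k → S, (R.ρ q (c + b + ∑ i, (t i : V)) : ℝ) := by
        refine Finset.sum_congr rfl fun t _ => ?_
        rw [Fin.sum_univ_succ]
        simp only [Fin.cons_zero, Fin.cons_succ]
        rw [add_assoc]
      rw [h4]
      refine le_trans ?_ h2
      have h5 : (0 : ℝ) ≤ (S.card : ℝ) ^ k := by positivity
      apply mul_le_mul_of_nonneg_left _ h5
      linarith
    have h6 : ∑ b : S, (S.card : ℝ) ^ k * ((R.ρ q c : ℝ) + 2 * R.ρ q' b - R.ρ q b
        + ∑ i ∈ range k, 2 * g R S q i (R.cmp q q' b) - k * g R S q 0 q) =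
        (S.card : ℝ) ^ (k + 1) * ((R.ρ q c : ℝ) + ∑ i ∈ range (k + 1), 2 * g R S q i q' - (k + 1 : ℕ) * g R S q 0 q) := by
      rw [← Finset.mul_sum, Finset.sum_sub_distrib, Finset.sum_add_distrib, Finset.sum_sub_distrib,
        Finset.sum_add_distrib, Finset.sum_range_succ']
      have e1 : ∑ _b : S, (R.ρ q c : ℝ) = S.card * R.ρ q c := by simp
      have e2 : ∑ b : S, 2 * (R.ρ q' (b : V) : ℝ) = S.card * (2 * g R S q 0 q') := by
        rw [← Finset.mul_sum, g, Finset.sum_coe_sort S (fun b => (R.ρ q' b : ℝ))]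
        field_simp
      have e3 : ∑ b : S, (R.ρ q (b : V) : ℝ) = S.card * g R S q 0 q := by
        rw [g, Finset.sum_coe_sort S (fun b => (R.ρ q b : ℝ))]
        field_simp
      have e4 : ∑ b : S, ∑ i ∈ range k, 2 * g R S q i (R.cmp q q' b) =
          S.card * ∑ i ∈ range k, 2 * g R S q (i + 1) q' := by
        rw [Finset.sum_comm, Finset.mul_sum]
        refine Finset.sum_congr rfl fun i _ => ?_
        rw [← Finset.mul_sum, Finset.sum_coe_sort S (fun b => g R S q i (R.cmp q q' b))]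
        rw [show g R S q (i + 1) q' = (∑ b ∈ S, g R S q i (R.cmp q q' b)) / S.card from rfl]
        field_simp
      have e5 : ∑ _b : S, (k : ℝ) * g R S q 0 q = S.card * (k * g R S q 0 q) := by simp
      rw [e1, e2, e3, e4, e5]
      push_cast
      ring
    rw [← h6]
    exact Finset.sum_le_sum fun b _ => h1 b

theorem tot (hS : S.Nonempty) : ∀ (k : ℕ), ∑ t : Fin k → S, ∑ i, (R.ρ q (t i : V) : ℝ) =
    (S.card : ℝ) ^ k * (k * g R S q 0 q) := by
  have hc : (0 : ℝ) < S.card := by exact_mod_cast hS.card_pos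
  intro k
  induction k with
  | zero => simp
  | succ k ih =>
    rw [sum_cons]
    have h1 : ∀ b : S, ∑ t : Fin k → S, ∑ i, (R.ρ q ((Fin.cons b t : Fin (k + 1) → S) i : V) : ℝ) =
        (S.card : ℝ) ^ k * R.ρ q (b : V) + (S.card : ℝ) ^ k * (k * g R S q 0 q) := by
      intro b
      rw [← ih]
      have : ∀ t : Fin k → S, ∑ i, (R.ρ q ((Fin.cons b t : Fin (k + 1) → S) i : V) : ℝ) =
          R.ρ q (b : V) + ∑ i, (R.ρ q (t i : V) : ℝ) := by
        intro t
        rw [Fin.sum_univ_succ]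
        simp only [Fin.cons_zero, Fin.cons_succ]
      rw [Finset.sum_congr rfl fun t _ => this t, Finset.sum_add_distrib]
      simp
    rw [Finset.sum_congr rfl fun b _ => h1 b, Finset.sum_add_distrib, ← Finset.mul_sum]
    have e3 : ∑ b : S, (R.ρ q (b : V) : ℝ) = S.card * g R S q 0 q := by
      rw [g, Finset.sum_coe_sort S (fun b => (R.ρ q b : ℝ))]
      field_simp
    rw [e3]
    simp
    ring

theorem sub_sum {ι : Type} (s : Finset ι) (f : ι → V) : R.ρ q (∑ i ∈ s, f i) ≤ ∑ i ∈ s, R.ρ q (f i) := by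
  classical
  induction s using Finset.induction_on with
  | empty => simp [R.zero]
  | insert a s ha ih =>
    rw [Finset.sum_insert ha, Finset.sum_insert ha]
    exact (R.subadd q _ _).trans (Nat.add_le_add_left ih _)

theorem main : S_AVG2 := by
  intro V P _ _ R q S r m hS hm hr hg
  classical
  obtain ⟨k, rfl⟩ : ∃ k, m = k + 1 := ⟨m - 1, by omega⟩
  have hc : (0 : ℝ) < S.card := by exact_mod_cast hS.card_pos
  set φ := g R S q 0 q with hφ
  have hφ0 : 0 ≤ φ := by rw [hφ, g]; positivity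
  have hφr : φ ≤ r := by
    rw [hφ, g, div_le_iff₀ hc]
    calc ∑ a ∈ S, (R.ρ q a : ℝ) ≤ ∑ _a ∈ S, (r : ℝ) := Finset.sum_le_sum fun a ha => by exact_mod_cast hr a ha
      _ = r * S.card := by rw [Finset.sum_const, nsmul_eq_mul, mul_comm]
  set N : ℝ := (S.card : ℝ) ^ (k + 1) with hN
  have hN0 : 0 < N := by positivity
  -- the defect of a tuple
  set T := Fin (k + 1) → S with hT
  set Δ : T → ℝ := fun t => ∑ i, (R.ρ q (t i : V) : ℝ) - (R.ρ q (∑ i, (t i : V)) : ℝ) with hΔ
  have hΔ0 : ∀ t, 0 ≤ Δ t := by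
    intro t
    have := sub_sum R q (Finset.univ) (fun i => (t i : V))
    rw [hΔ]
    have h2 : (R.ρ q (∑ i, (t i : V)) : ℝ) ≤ ∑ i, (R.ρ q (t i : V) : ℝ) := by exact_mod_cast this
    simpa using h2
  have hsumΔ : ∑ t, Δ t ≤ N * (r / 4) := by
    have h1 := low R S q hS (k + 1) q 0 (R.refl q) (R.abs_zero q)
    have h2 := tot R S q hS (k + 1)
    rw [R.zero] at h1
    simp only [zero_add, Nat.cast_zero] at h1
    have h3 : ∑ i ∈ range (k + 1), 2 * g R S q (k + 1) q ≤ ∑ i ∈ range (k + 1), 2 * g R S q i q :=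
      Finset.sum_le_sum fun i hi => by
        have := g_anti' R S q hS q (i := i) (m := k + 1) (by have := Finset.mem_range.1 hi; omega)
        linarith
    rw [Finset.sum_const, Finset.card_range, nsmul_eq_mul] at h3
    have h4 : ((k + 1 : ℕ) : ℝ) * φ - φ / 4 ≤ ∑ i ∈ range (k + 1), 2 * g R S q i q - ((k + 1 : ℕ) : ℝ) * φ := by
      have hk : (0 : ℝ) < ((k + 1 : ℕ) : ℝ) := by positivity
      have h5 : ((k + 1 : ℕ) : ℝ) * (2 * ((1 - 1 / (8 * ((k + 1 : ℕ) : ℝ))) * φ)) ≤
          ((k + 1 : ℕ) : ℝ) * (2 * g R S q (k + 1) q) := by gcongr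
      have h6 : ((k + 1 : ℕ) : ℝ) * (2 * ((1 - 1 / (8 * ((k + 1 : ℕ) : ℝ))) * φ)) =
          2 * ((k + 1 : ℕ) : ℝ) * φ - φ / 4 := by
        field_simp
        ring
      linarith
    have h7 : N * (((k + 1 : ℕ) : ℝ) * φ - φ / 4) ≤ ∑ t : T, (R.ρ q (∑ i, (t i : V)) : ℝ) :=
      (mul_le_mul_of_nonneg_left h4 hN0.le).trans h1
    have h8 : ∑ t, Δ t = ∑ t : T, ∑ i, (R.ρ q (t i : V) : ℝ) - ∑ t : T, (R.ρ q (∑ i, (t i : V)) : ℝ) := by
      rw [hΔ, Finset.sum_sub_distrib]
    rw [h8, h2]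
    nlinarith [mul_le_mul_of_nonneg_left hφr hN0.le]
  -- the good tuples
  set G : Finset T := Finset.univ.filter (fun t => 2 * Δ t ≤ r) with hG
  have hGc : N ≤ 2 * (G.card : ℝ) := by
    have h1 : ((Finset.univ.filter (fun t : T => ¬ 2 * Δ t ≤ r)).card : ℝ) * ((r + 1) / 2) ≤ ∑ t, Δ t := by
      calc ((Finset.univ.filter (fun t : T => ¬ 2 * Δ t ≤ r)).card : ℝ) * ((r + 1) / 2)
          = ∑ _t ∈ Finset.univ.filter (fun t : T => ¬ 2 * Δ t ≤ r), (((r : ℝ) + 1) / 2) := by
            rw [Finset.sum_const, nsmul_eq_mul]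
        _ ≤ ∑ t ∈ Finset.univ.filter (fun t : T => ¬ 2 * Δ t ≤ r), Δ t := by
            refine Finset.sum_le_sum fun t ht => ?_
            have h2 := (Finset.mem_filter.1 ht).2
            have h3 : Δ t = (((∑ i, (R.ρ q (t i : V)) : ℕ) : ℤ) - ((R.ρ q (∑ i, (t i : V)) : ℕ) : ℤ) : ℤ) := by
              rw [hΔ]; push_cast; ring
            rw [h3] at h2 ⊢
            have h4 : ¬ 2 * (((∑ i, (R.ρ q (t i : V)) : ℕ) : ℤ) - ((R.ρ q (∑ i, (t i : V)) : ℕ) : ℤ)) ≤ (r : ℤ) := by
              intro h5; exact h2 (by exact_mod_cast h5)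
            have h5 : (r : ℤ) + 1 ≤ 2 * (((∑ i, (R.ρ q (t i : V)) : ℕ) : ℤ) - ((R.ρ q (∑ i, (t i : V)) : ℕ) : ℤ)) := by
              omega
            have h6 : (r : ℝ) + 1 ≤ 2 * ((((∑ i, (R.ρ q (t i : V)) : ℕ) : ℤ) - ((R.ρ q (∑ i, (t i : V)) : ℕ) : ℤ) : ℤ) : ℝ) := by
              exact_mod_cast h5
            linarith
        _ ≤ ∑ t, Δ t := Finset.sum_le_sum_of_subset_of_nonneg (Finset.filter_subset _ _) fun t _ _ => hΔ0 t
    have h2 : (G.card : ℝ) + ((Finset.univ.filter (fun t : T => ¬ 2 * Δ t ≤ r)).card : ℝ) = N := by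
      have := Finset.card_filter_add_card_filter_not (s := (Finset.univ : Finset T)) (fun t => 2 * Δ t ≤ r)
      rw [hN, hG]
      have h3 : (Finset.univ : Finset T).card = S.card ^ (k + 1) := by
        rw [Finset.card_univ]
        show Fintype.card (Fin (k + 1) → S) = _
        simp
      rw [h3] at this
      exact_mod_cast this
    have hr1 : (0 : ℝ) < (r + 1) / 2 := by positivity
    set B : ℝ := ((Finset.univ.filter (fun t : T => ¬ 2 * Δ t ≤ r)).card : ℝ) with hB
    have hB0 : 0 ≤ B := by positivity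
    have h5 : B * ((r + 1) / 2) ≤ N * (r / 4) := h1.trans hsumΔ
    have h6 : B ≤ N / 2 := by
      have h7 : N * ((r : ℝ) / 4) ≤ (N / 2) * ((r + 1) / 2) := by nlinarith
      exact le_of_mul_le_mul_right (h5.trans h7) hr1
    linarith
  -- pigeonhole
  obtain ⟨c, hcc⟩ : ∃ c : V, G.card ≤ Fintype.card V * (G.filter (fun t => ∑ i, (t i : V) = c)).card := by
    by_contra hcon
    push Not at hcon
    have h1 := Finset.card_eq_sum_card_fiberwise (s := G) (t := (Finset.univ : Finset V))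
      (f := fun t : T => ∑ i, (t i : V)) (fun t _ => Finset.mem_coe.2 (Finset.mem_univ _))
    have hV : (Finset.univ : Finset V).Nonempty := ⟨0, Finset.mem_univ _⟩
    have h2 : ∑ c : V, Fintype.card V * (G.filter (fun t => ∑ i, (t i : V) = c)).card < ∑ _c : V, G.card :=
      Finset.sum_lt_sum_of_nonempty hV fun c _ => hcon c
    rw [← Finset.mul_sum, ← h1, Finset.sum_const, Finset.card_univ, smul_eq_mul] at h2
    exact lt_irrefl _ h2
  set Φ := G.filter (fun t => ∑ i, (t i : V) = c) with hΦ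
  have hfin : S.card ^ (k + 1) ≤ 2 * Fintype.card V * Φ.card := by
    have h1 : (S.card : ℝ) ^ (k + 1) ≤ 2 * ((Fintype.card V * Φ.card : ℕ) : ℝ) := by
      refine hGc.trans ?_
      have : (G.card : ℝ) ≤ ((Fintype.card V * Φ.card : ℕ) : ℝ) := by exact_mod_cast hcc
      linarith
    have h2 : S.card ^ (k + 1) ≤ 2 * (Fintype.card V * Φ.card) := by exact_mod_cast h1
    linarith
  have hne : Φ.Nonempty := by
    rw [← Finset.card_pos]
    by_contra h0
    have : Φ.card = 0 := by omega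
    rw [this, mul_zero] at hfin
    have := pow_pos hS.card_pos (k + 1)
    omega
  set S' := S.filter (fun a => 2 * R.ρ (R.cmp q q c) a ≤ r) with hS'
  have hmem : ∀ t ∈ Φ, ∀ i, (t i : V) ∈ S' := by
    intro t ht i
    obtain ⟨htG, htc⟩ := Finset.mem_filter.1 ht
    have h1 := (Finset.mem_filter.1 htG).2
    refine Finset.mem_filter.2 ⟨(t i).2, ?_⟩
    have h2 : (t i : V) + ∑ j ∈ Finset.univ.erase i, (t j : V) = c :=
      (Finset.add_sum_erase Finset.univ (fun j => (t j : V)) (Finset.mem_univ i)).trans htc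
    have h3 := R.defect q (t i : V) (∑ j ∈ Finset.univ.erase i, (t j : V))
    rw [h2] at h3
    have h4 := sub_sum R q (Finset.univ.erase i) (fun j => (t j : V))
    have h5 : R.ρ q (t i : V) + ∑ j ∈ Finset.univ.erase i, R.ρ q (t j : V) = ∑ j, R.ρ q (t j : V) :=
      Finset.add_sum_erase _ (fun j => R.ρ q (t j : V)) (Finset.mem_univ i)
    have h6 : 2 * ((∑ j, R.ρ q (t j : V) : ℕ) : ℝ) ≤ r + 2 * (R.ρ q c : ℝ) := by
      rw [hΔ] at h1
      simp only [htc] at h1
      push_cast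
      linarith
    have h7 : 2 * (∑ j, R.ρ q (t j : V)) ≤ r + 2 * R.ρ q c := by exact_mod_cast h6
    omega
  refine ⟨c, S', Finset.filter_subset _ _, ?_, fun a ha => (Finset.mem_filter.1 ha).2, ?_⟩
  · obtain ⟨t, ht⟩ := hne
    have htc := (Finset.mem_filter.1 ht).2
    rw [← htc]
    refine (sub_sum R q Finset.univ (fun i => (t i : V))).trans ?_
    calc ∑ i, R.ρ q (t i : V) ≤ ∑ _i : Fin (k + 1), r := Finset.sum_le_sum fun i _ => hr _ (t i).2
      _ = (k + 1) * r := by simp
  · refine hfin.trans (Nat.mul_le_mul_left _ ?_)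
    rw [Nat.add_sub_cancel]
    have h1 : Φ.card ≤ (Fintype.piFinset (fun _ : Fin k => S')).card := by
      refine Finset.card_le_card_of_injOn (fun t i => (t i.succ : V)) ?_ ?_
      · intro t ht
        rw [Finset.mem_coe, Fintype.mem_piFinset]
        intro i
        exact hmem t ht i.succ
      · intro t ht t' ht' h
        have e1 := (Finset.mem_filter.1 ht).2
        have e2 := (Finset.mem_filter.1 ht').2
        rw [Fin.sum_univ_succ] at e1 e2
        have e3 : ∀ i : Fin k, (t i.succ : V) = (t' i.succ : V) := fun i => congrFun h i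
        rw [Finset.sum_congr rfl fun i _ => e3 i] at e1
        have e4 : (t 0 : V) = (t' 0 : V) := by
          have := e1.trans e2.symm
          exact add_right_cancel this
        funext i
        refine Fin.cases ?_ ?_ i
        · exact Subtype.ext e4
        · intro j; exact Subtype.ext (e3 j)
    rw [Fintype.card_piFinset] at h1
    simpa using h1

end Pool.Agent.Helper55.BT.AVG2
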