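import Pool.Agent.Helper55.BT.Stm

set_option autoImplicit false

open Finset Module

namespace Pool.Agent.Helper55.BT.B1

theorem main : S_B1 := by
  classical
  intro V K _ _ _ hV B F G H E δ hδ hE hcard
  have hB : ∀ x y, B x y + B x y = 0 := by
    intro x y
    rw [← map_add, hV, map_zero]
  have hneg : ∀ x y, -B x y = B x y := fun x y => neg_eq_of_add_eq_zero_left (hB x y)
  let e : V → V → ℕ := fun h y => (univ.filter fun x : V => (x, y) ∈ E ∧ (x + h, y + h) ∈ E).card
  have hmax : ∀ h, ∃ y₀ : V, ∀ y, e h y ≤ e h y₀ := by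
    intro h
    obtain ⟨y₀, -, hy₀⟩ := Finset.exists_max_image (univ : Finset V) (e h) ⟨0, mem_univ _⟩
    exact ⟨y₀, fun y => hy₀ y (mem_univ _)⟩
  choose y₀ hy₀ using hmax
  refine ⟨fun h => B h (y₀ h) + B h h - (G (y₀ h) - G (y₀ h + h)),
    univ.filter fun p : V × V => (p.1, y₀ p.2) ∈ E ∧ (p.1 + p.2, y₀ p.2 + p.2) ∈ E, ?_, ?_⟩
  · rintro ⟨x, h⟩ hp
    rw [mem_filter] at hp
    obtain ⟨-, h1, h2⟩ := hp
    simp only at h1 h2 ⊢
    have e1 := hE _ h1
    have e2 := hE _ h2
    simp only at e1 e2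
    have e3 : x + h + (y₀ h + h) = x + y₀ h := by
      have : x + h + (y₀ h + h) = x + y₀ h + (h + h) := by abel
      rw [this, hV, add_zero]
    rw [e3, map_add, map_add, AddMonoidHom.add_apply, AddMonoidHom.add_apply] at e2
    have e4 : F x - F (x + h) + (G (y₀ h) - G (y₀ h + h)) =
        -(B x h) + -(B h (y₀ h)) + -(B h h) := by
      have : F x - F (x + h) + (G (y₀ h) - G (y₀ h + h)) =
        (F x + G (y₀ h) + H (x + y₀ h)) - (F (x + h) + G (y₀ h + h) + H (x + y₀ h)) := by abel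
      rw [this, e1, e2]
      abel
    rw [hneg, hneg, hneg] at e4
    rw [← sub_eq_zero]
    rw [← sub_eq_zero] at e4
    rw [← e4]
    abel
  · set N : ℕ := Fintype.card V with hN
    have hN0 : 0 < N := Fintype.card_pos_iff.2 ⟨0⟩
    set Q := univ.filter fun p : V × V => (p.1, y₀ p.2) ∈ E ∧ (p.1 + p.2, y₀ p.2 + p.2) ∈ E with hQ
    have hQc : Q.card = ∑ h, e h (y₀ h) := by
      rw [hQ, card_filter, Fintype.sum_prod_type_right]
      refine sum_congr rfl fun h _ => ?_
      simp only [e]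
      rw [card_filter]
    have h1 : ∑ h, ∑ y, e h y ≤ N * Q.card := by
      rw [hQc, mul_sum]
      refine sum_le_sum fun h _ => ?_
      calc ∑ y, e h y ≤ ∑ _y : V, e h (y₀ h) := sum_le_sum fun y _ => hy₀ h y
        _ = N * e h (y₀ h) := by rw [sum_const, card_univ, smul_eq_mul]
    let c : V → ℕ := fun s => (E.filter fun p => p.1 + p.2 = s).card
    have h2 : ∑ s, c s = E.card := by
      rw [Finset.card_eq_sum_card_fiberwise (f := fun p : V × V => p.1 + p.2) (t := univ)
        (fun _ _ => mem_univ _)]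
    have h3 : E.card ^ 2 ≤ N * ∑ s, c s ^ 2 := by
      rw [← h2]
      have := sq_sum_le_card_mul_sum_sq (s := (univ : Finset V)) (f := c)
      rwa [card_univ] at this
    have h4 : ∑ s, c s ^ 2 ≤ ∑ h, ∑ y, e h y := by
      have h5 : ∀ s, c s ^ 2 = ((E.filter fun p => p.1 + p.2 = s) ×ˢ
          (E.filter fun p => p.1 + p.2 = s)).card := by
        intro s
        rw [card_product, sq]
      have h6 : ∑ s, c s ^ 2 =
          ((univ : Finset V).sigma fun s => (E.filter fun p => p.1 + p.2 = s) ×ˢ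
          (E.filter fun p => p.1 + p.2 = s)).card := by
        rw [card_sigma]
        exact sum_congr rfl fun s _ => h5 s
      have h7 : ∑ h, ∑ y, e h y = ((univ : Finset (V × V)).sigma fun t =>
          univ.filter fun x : V => (x, t.2) ∈ E ∧ (x + t.1, t.2 + t.1) ∈ E).card := by
        rw [card_sigma, Fintype.sum_prod_type]
      rw [h6, h7]
      refine card_le_card_of_injOn (fun q => ⟨(q.2.2.1 + q.2.1.1, q.2.1.2), q.2.1.1⟩) ?_ ?_
      · rintro ⟨s, ⟨x, y⟩, ⟨x', y'⟩⟩ hq
        simp only [coe_sigma, Set.mem_sigma_iff, mem_coe, mem_univ, mem_product, mem_filter,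
          true_and] at hq ⊢
        obtain ⟨⟨ha, hb⟩, hc, hd⟩ := hq
        refine ⟨ha, ?_⟩
        have e1 : x + (x' + x) = x' := by
          have : x + (x' + x) = x' + (x + x) := by abel
          rw [this, hV, add_zero]
        have e2 : y + (x' + x) = y' := by
          have : y + (x' + x) = x' + (x + y) := by abel
          rw [this, hb, ← hd]
          have : x' + (x' + y') = y' + (x' + x') := by abel
          rw [this, hV, add_zero]
        rw [e1, e2]
        exact hc
      · rintro ⟨s, ⟨x, y⟩, ⟨x', y'⟩⟩ hq ⟨t, ⟨a, b⟩, ⟨a', b'⟩⟩ hq' heq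
        simp only [coe_sigma, Set.mem_sigma_iff, mem_coe, mem_univ, mem_product, mem_filter,
          true_and] at hq hq'
        simp only [Sigma.mk.injEq, Prod.mk.injEq, heq_eq_eq] at heq
        obtain ⟨⟨h1, h2⟩, h3⟩ := heq
        obtain ⟨⟨-, hb⟩, -, hd⟩ := hq
        obtain ⟨⟨-, hb'⟩, -, hd'⟩ := hq'
        subst h2 h3
        have h4 : x' = a' := add_right_cancel h1
        subst h4
        have h5 : s = t := hb.symm.trans hb'
        subst h5
        have h6 : y' = b' := add_left_cancel (hd.trans hd'.symm)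
        subst h6
        rfl
    have h5 : E.card ^ 2 ≤ N * (N * Q.card) := h3.trans (Nat.mul_le_mul_left _ (h4.trans h1))
    have h6 : ((E.card : ℝ)) ^ 2 ≤ N * (N * Q.card) := by exact_mod_cast h5
    have h7 : (δ * (N : ℝ) ^ 2) ^ 2 ≤ (E.card : ℝ) ^ 2 := by
      have : (0 : ℝ) ≤ δ * (N : ℝ) ^ 2 := by positivity
      exact pow_le_pow_left₀ this hcard 2
    have h8 : (0 : ℝ) < (N : ℝ) ^ 2 := by positivity
    have h9 : (N : ℝ) ^ 2 * (δ ^ 2 * (N : ℝ) ^ 2) ≤ (N : ℝ) ^ 2 * Q.card := by nlinarith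
    exact le_of_mul_le_mul_left h9 h8

end Pool.Agent.Helper55.BT.B1
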