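import Pool.Agent.Helper55.BT.Stm

/-! Project BT, module B2 (helper92): dependent random choice and parallelograms. -/

set_option autoImplicit false

namespace Pool.Agent.Helper55.BT.B2

open Finset

open Classical in
/-- dependent random choice -/
lemma drc {V : Type} [Fintype V] (A : V → V → Prop) (q ε : ℝ) (hq : 0 < q) (hε : 0 < ε)
    (hN : 0 < Fintype.card V)
    (h : q * (Fintype.card V : ℝ) ^ 2 ≤ (((univ : Finset (V × V)).filter (fun p => A p.1 p.2)).card : ℝ)) :
    ∃ X : Finset V,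
      q ^ 2 * (Fintype.card V : ℝ) ^ 2 / 2 + q ^ 2 / (2 * ε) * (((X ×ˢ X).filter (fun p =>
        (((univ : Finset V).filter (fun z => A p.1 z ∧ A p.2 z)).card : ℝ) <
          ε * Fintype.card V)).card : ℝ) ≤ (X.card : ℝ) ^ 2 := by
  obtain ⟨N, hNd⟩ : ∃ N : ℝ, N = Fintype.card V := ⟨_, rfl⟩
  rw [← hNd] at h ⊢
  have hN' : 0 < N := by rw [hNd]; exact_mod_cast hN
  set Bd : V × V → Prop := fun p =>
    (((univ : Finset V).filter (fun z => A p.1 z ∧ A p.2 z)).card : ℝ) < ε * N with hBd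
  set X : V → Finset V := fun z => univ.filter (fun x => A x z) with hX
  have h1 : ∑ z, ((X z).card : ℝ) = (((univ : Finset (V × V)).filter (fun p => A p.1 p.2)).card : ℝ) := by
    have : ∑ z, (X z).card = ((univ : Finset (V × V)).filter (fun p => A p.1 p.2)).card := by
      simp only [hX, card_filter, Fintype.sum_prod_type]
      rw [sum_comm]
    exact_mod_cast this
  have h2 : (∑ z, ((X z).card : ℝ)) ^ 2 ≤ N * ∑ z, ((X z).card : ℝ) ^ 2 := by
    have := sq_sum_le_card_mul_sum_sq (s := (univ : Finset V)) (f := fun z => ((X z).card : ℝ))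
    rw [card_univ, ← hNd] at this
    exact this
  have h3 : ∑ z, ((((X z) ×ˢ (X z)).filter Bd).card : ℝ) ≤ N ^ 2 * (ε * N) := by
    have e1 : ∀ z, ((((X z) ×ˢ (X z)).filter Bd).card : ℝ) =
        ∑ p : V × V, if Bd p ∧ A p.1 z ∧ A p.2 z then (1 : ℝ) else 0 := by
      intro z
      rw [← Finset.natCast_card_filter]
      congr 2
      ext p
      simp only [hX, mem_filter, mem_product, mem_univ, true_and]
      tauto
    rw [sum_congr rfl (fun z _ => e1 z), sum_comm]
    have e2 : ∀ p : V × V, (∑ z, if Bd p ∧ A p.1 z ∧ A p.2 z then (1 : ℝ) else 0) ≤ ε * N := by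
      intro p
      by_cases hp : Bd p
      · have e3 : (∑ z, if Bd p ∧ A p.1 z ∧ A p.2 z then (1 : ℝ) else 0) =
            (((univ : Finset V).filter (fun z => A p.1 z ∧ A p.2 z)).card : ℝ) := by
          refine Eq.trans ?_ (Finset.natCast_card_filter _ _).symm
          refine sum_congr rfl fun z _ => ?_
          simp only [hp, true_and]
        rw [e3]
        exact le_of_lt hp
      · have e3 : (∑ z, if Bd p ∧ A p.1 z ∧ A p.2 z then (1 : ℝ) else 0) = 0 := by
          refine sum_eq_zero fun z _ => ?_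
          rw [if_neg]
          exact fun h => hp h.1
        rw [e3]
        positivity
    refine (sum_le_sum fun p _ => e2 p).trans (le_of_eq ?_)
    rw [sum_const, card_univ, Fintype.card_prod, nsmul_eq_mul]
    push_cast
    rw [← hNd]
    ring
  have h4 : ∑ _z : V, (q ^ 2 * N ^ 2 / 2) ≤
      ∑ z, (((X z).card : ℝ) ^ 2 - q ^ 2 / (2 * ε) * ((((X z) ×ˢ (X z)).filter Bd).card : ℝ)) := by
    rw [sum_const, card_univ, nsmul_eq_mul, ← hNd, sum_sub_distrib, ← mul_sum]
    have e1 : (q * N ^ 2) ^ 2 ≤ N * ∑ z, ((X z).card : ℝ) ^ 2 := by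
      refine le_trans ?_ h2
      rw [h1]
      exact pow_le_pow_left₀ (by positivity) h 2
    have e2 : q ^ 2 * N ^ 3 ≤ ∑ z, ((X z).card : ℝ) ^ 2 := by
      have : N * (q ^ 2 * N ^ 3) ≤ N * ∑ z, ((X z).card : ℝ) ^ 2 := by
        refine le_trans (le_of_eq ?_) e1
        ring
      exact le_of_mul_le_mul_left this hN'
    have e3 : q ^ 2 / (2 * ε) * ∑ z, ((((X z) ×ˢ (X z)).filter Bd).card : ℝ) ≤
        q ^ 2 / (2 * ε) * (N ^ 2 * (ε * N)) := by gcongr
    have e4 : q ^ 2 / (2 * ε) * (N ^ 2 * (ε * N)) = q ^ 2 * N ^ 3 / 2 := by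
      field_simp
    rw [e4] at e3
    have e5 : N * (q ^ 2 * N ^ 2 / 2) = q ^ 2 * N ^ 3 / 2 := by ring
    rw [e5]
    linarith
  have hne : (univ : Finset V).Nonempty := by
    rw [← card_pos, card_univ]
    exact hN
  obtain ⟨z, -, hz⟩ := exists_le_of_sum_le hne h4
  refine ⟨X z, ?_⟩
  linarith

open Classical in
/-- parallelograms in a set -/
lemma energy {V : Type} [AddCommGroup V] [Fintype V] (X : Finset V) :
    (X.card : ℝ) ^ 4 ≤ Fintype.card V * (((univ : Finset (V × V × V)).filter (fun t =>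
      t.2.1 ∈ X ∧ t.2.1 + t.1 ∈ X ∧ t.2.2 ∈ X ∧ t.2.2 + t.1 ∈ X)).card : ℝ) := by
  set f : V → ℝ := fun x => if x ∈ X then 1 else 0 with hf
  have hfs : ∑ x, f x = X.card := by
    rw [hf]
    simp
  have h1 : (((univ : Finset (V × V × V)).filter (fun t =>
      t.2.1 ∈ X ∧ t.2.1 + t.1 ∈ X ∧ t.2.2 ∈ X ∧ t.2.2 + t.1 ∈ X)).card : ℝ) =
      ∑ u, (∑ x, f x * f (x + u)) ^ 2 := by
    rw [Finset.natCast_card_filter, Fintype.sum_prod_type]
    refine sum_congr rfl fun u _ => ?_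
    rw [sq, sum_mul_sum, Fintype.sum_prod_type]
    refine sum_congr rfl fun x _ => sum_congr rfl fun y _ => ?_
    simp only [hf]
    by_cases h1 : x ∈ X <;> by_cases h2 : x + u ∈ X <;> by_cases h3 : y ∈ X <;>
      by_cases h4 : y + u ∈ X <;> simp [h1, h2, h3, h4]
  have h2 : ∑ u, ∑ x, f x * f (x + u) = (X.card : ℝ) ^ 2 := by
    rw [sum_comm]
    have : ∀ x, ∑ u, f x * f (x + u) = f x * X.card := by
      intro x
      rw [← mul_sum, ← hfs]
      congr 1
      exact Equiv.sum_comp (Equiv.addLeft x) f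
    rw [sum_congr rfl (fun x _ => this x), ← sum_mul, hfs, sq]
  rw [h1]
  have h3 := sq_sum_le_card_mul_sum_sq (s := (univ : Finset V)) (f := fun u => ∑ x, f x * f (x + u))
  rw [h2, card_univ] at h3
  calc (X.card : ℝ) ^ 4 = ((X.card : ℝ) ^ 2) ^ 2 := by ring
    _ ≤ _ := h3

/-- the enumeration of small sets -/
lemma enum {V K : Type} [AddCommGroup K] (W : V → Finset K) (m : ℕ) (h : ∀ u, (W u).card ≤ m) :
    ∃ e : Fin m → V → K, ∀ u, ∀ κ ∈ W u, ∃ i, e i u = κ := by
  refine ⟨fun i u => (W u).toList.getD i 0, fun u κ hκ => ?_⟩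
  rw [← mem_toList] at hκ
  obtain ⟨i, hi, hiκ⟩ := List.mem_iff_getElem.1 hκ
  rw [length_toList] at hi
  refine ⟨⟨i, lt_of_lt_of_le hi (h u)⟩, ?_⟩
  rw [← hiκ]
  simp [hi]

/-- the identity for a common neighbour -/
lemma tau {V K : Type} [AddCommGroup V] [AddCommGroup K] (h2 : ∀ v : V, v + v = 0) (B : V →+ V →+ K)
    (F c : V → K) (x u a : V) (h : F x - F (x + a) = B x a + c a)
    (h' : F (x + u) - F (x + u + (a + u)) = B (x + u) (a + u) + c (a + u)) :
    F x - F (x + u) - B x u = B u a + B u u + c a - c (a + u) := by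
  have e : x + u + (a + u) = x + a := by
    calc x + u + (a + u) = x + a + (u + u) := by abel
      _ = x + a := by rw [h2, add_zero]
  rw [e] at h'
  have hB : ∀ v w : V, B v w + B v w = 0 := by
    intro v w
    rw [← map_add, h2, map_zero]
  have hBl : ∀ v w z : V, B (v + w) z = B v z + B w z := by
    intro v w z
    rw [AddMonoidHom.map_add B v w]
    rfl
  have e1 : B (x + u) (a + u) = B x a + B x u + B u a + B u u := by
    rw [hBl, map_add, map_add]
    abel
  rw [e1] at h'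
  have e2 : F x - F (x + u) = (B x a + c a) - (B x a + B x u + B u a + B u u + c (a + u)) := by
    rw [← h, ← h']
    abel
  rw [e2]
  have e3 : (B x a + c a) - (B x a + B x u + B u a + B u u + c (a + u)) - B x u =
      B u a + B u u + c a - c (a + u) - (B x u + B x u) - (B u a + B u a) - (B u u + B u u) := by abel
  rw [e3, hB, hB, hB]
  abel

/-- the identity for a parallelogram -/
lemma par {V K : Type} [AddCommGroup V] [AddCommGroup K] (h2 : ∀ v : V, v + v = 0) (B : V →+ V →+ K)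
    (F : V → K) (x u y : V) :
    B u (x + y) - B (x + y) u =
      ((F y - F (y + u) - B y u) - (F x - F (x + u) - B x u)) +
      ((F x - F y - B x (x + y)) - (F (x + u) - F (y + u) - B (x + u) (x + y))) := by
  have hB : ∀ v w : V, B v w + B v w = 0 := by
    intro v w
    rw [← map_add, h2, map_zero]
  have hBl : ∀ v w z : V, B (v + w) z = B v z + B w z := by
    intro v w z
    rw [AddMonoidHom.map_add B v w]
    rfl
  have e1 : B (x + u) (x + y) = B x (x + y) + B u (x + y) := hBl _ _ _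
  have e2 : B (x + y) u = B x u + B y u := hBl _ _ _
  rw [e1, e2]
  have e3 : B u (x + y) - (B x u + B y u) = B u (x + y) + B x u - B y u - (B x u + B x u) := by abel
  rw [e3, hB]
  abel

open Classical in
/-- the good parallelograms -/
lemma goodpar {V : Type} [AddCommGroup V] [Fintype V] (X : Finset V) (P : V × V → Prop) :
    (X.card : ℝ) ^ 4 ≤ Fintype.card V * ((((univ : Finset (V × V × V)).filter (fun t =>
      (t.2.1 ∈ X ∧ t.2.1 + t.1 ∈ X ∧ t.2.2 ∈ X ∧ t.2.2 + t.1 ∈ X) ∧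
      ¬ P (t.2.1, t.2.1 + t.1) ∧ ¬ P (t.2.2, t.2.2 + t.1) ∧ ¬ P (t.2.1, t.2.2) ∧
      ¬ P (t.2.1 + t.1, t.2.2 + t.1))).card : ℝ) +
      4 * (((X ×ˢ X).filter P).card * X.card)) := by
  refine (energy X).trans ?_
  refine mul_le_mul_of_nonneg_left ?_ (Nat.cast_nonneg _)
  set All := (univ : Finset (V × V × V)).filter (fun t =>
      t.2.1 ∈ X ∧ t.2.1 + t.1 ∈ X ∧ t.2.2 ∈ X ∧ t.2.2 + t.1 ∈ X) with hAll
  set Good := (univ : Finset (V × V × V)).filter (fun t =>
      (t.2.1 ∈ X ∧ t.2.1 + t.1 ∈ X ∧ t.2.2 ∈ X ∧ t.2.2 + t.1 ∈ X) ∧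
      ¬ P (t.2.1, t.2.1 + t.1) ∧ ¬ P (t.2.2, t.2.2 + t.1) ∧ ¬ P (t.2.1, t.2.2) ∧
      ¬ P (t.2.1 + t.1, t.2.2 + t.1)) with hGood
  set Bad := (X ×ˢ X).filter P with hBad
  have hsub : All ⊆ Good ∪ ((All.filter (fun t => P (t.2.1, t.2.1 + t.1))) ∪
      ((All.filter (fun t => P (t.2.2, t.2.2 + t.1))) ∪ ((All.filter (fun t => P (t.2.1, t.2.2))) ∪
      (All.filter (fun t => P (t.2.1 + t.1, t.2.2 + t.1)))))) := by
    intro t ht
    have ht' := ht
    rw [hAll, mem_filter] at ht'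
    simp only [mem_union, mem_filter, hGood, mem_univ, true_and, ht, ht'.2, and_self]
    tauto
  have hinj : ∀ (R : V × V × V → Prop) (φ : V × V × V → (V × V) × V), Function.Injective φ →
      (∀ t ∈ All, R t → φ t ∈ Bad ×ˢ X) → (All.filter R).card ≤ Bad.card * X.card := by
    intro R φ hφ h
    rw [← card_product]
    refine card_le_card_of_injOn φ ?_ (hφ.injOn)
    intro t ht
    rw [mem_coe, mem_filter] at ht
    exact h t ht.1 ht.2
  have b1 : (All.filter (fun t => P (t.2.1, t.2.1 + t.1))).card ≤ Bad.card * X.card := by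
    refine hinj _ (fun t => ((t.2.1, t.2.1 + t.1), t.2.2)) ?_ ?_
    · rintro ⟨u, x, y⟩ ⟨u', x', y'⟩ h
      simp only [Prod.mk.injEq] at h
      obtain ⟨⟨rfl, h2⟩, rfl⟩ := h
      rw [add_left_cancel h2]
    · intro t ht hR
      rw [hAll, mem_filter] at ht
      simp only [mem_product, hBad, mem_filter]
      exact ⟨⟨⟨ht.2.1, ht.2.2.1⟩, hR⟩, ht.2.2.2.1⟩
  have b2 : (All.filter (fun t => P (t.2.2, t.2.2 + t.1))).card ≤ Bad.card * X.card := by
    refine hinj _ (fun t => ((t.2.2, t.2.2 + t.1), t.2.1)) ?_ ?_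
    · rintro ⟨u, x, y⟩ ⟨u', x', y'⟩ h
      simp only [Prod.mk.injEq] at h
      obtain ⟨⟨rfl, h2⟩, rfl⟩ := h
      rw [add_left_cancel h2]
    · intro t ht hR
      rw [hAll, mem_filter] at ht
      simp only [mem_product, hBad, mem_filter]
      exact ⟨⟨⟨ht.2.2.2.1, ht.2.2.2.2⟩, hR⟩, ht.2.1⟩
  have b3 : (All.filter (fun t => P (t.2.1, t.2.2))).card ≤ Bad.card * X.card := by
    refine hinj _ (fun t => ((t.2.1, t.2.2), t.2.1 + t.1)) ?_ ?_
    · rintro ⟨u, x, y⟩ ⟨u', x', y'⟩ h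
      simp only [Prod.mk.injEq] at h
      obtain ⟨⟨rfl, rfl⟩, h2⟩ := h
      rw [add_left_cancel h2]
    · intro t ht hR
      rw [hAll, mem_filter] at ht
      simp only [mem_product, hBad, mem_filter]
      exact ⟨⟨⟨ht.2.1, ht.2.2.2.1⟩, hR⟩, ht.2.2.1⟩
  have b4 : (All.filter (fun t => P (t.2.1 + t.1, t.2.2 + t.1))).card ≤ Bad.card * X.card := by
    refine hinj _ (fun t => ((t.2.1 + t.1, t.2.2 + t.1), t.2.1)) ?_ ?_
    · rintro ⟨u, x, y⟩ ⟨u', x', y'⟩ h
      simp only [Prod.mk.injEq] at h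
      obtain ⟨⟨h1, h2⟩, rfl⟩ := h
      obtain rfl := add_left_cancel h1
      rw [add_right_cancel h2]
    · intro t ht hR
      rw [hAll, mem_filter] at ht
      simp only [mem_product, hBad, mem_filter]
      exact ⟨⟨⟨ht.2.2.1, ht.2.2.2.2⟩, hR⟩, ht.2.1⟩
  have h1 : All.card ≤ Good.card + 4 * (Bad.card * X.card) := by
    refine (card_le_card hsub).trans ?_
    refine (card_union_le _ _).trans ?_
    have := card_union_le (All.filter (fun t => P (t.2.1, t.2.1 + t.1)))
      ((All.filter (fun t => P (t.2.2, t.2.2 + t.1))) ∪ ((All.filter (fun t => P (t.2.1, t.2.2))) ∪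
      (All.filter (fun t => P (t.2.1 + t.1, t.2.2 + t.1)))))
    have := card_union_le (All.filter (fun t => P (t.2.2, t.2.2 + t.1)))
      ((All.filter (fun t => P (t.2.1, t.2.2))) ∪ (All.filter (fun t => P (t.2.1 + t.1, t.2.2 + t.1))))
    have := card_union_le (All.filter (fun t => P (t.2.1, t.2.2)))
      (All.filter (fun t => P (t.2.1 + t.1, t.2.2 + t.1)))
    omega
  exact_mod_cast h1

theorem main : S_B2 := by
  classical
  refine ⟨40, fun V K _ _ _ h2 B F c Q q hq hq1 hQ hcard => ?_⟩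
  obtain ⟨N, hNd⟩ : ∃ N : ℝ, N = Fintype.card V := ⟨_, rfl⟩
  have hN0 : 0 < Fintype.card V := Fintype.card_pos_iff.2 ⟨0⟩
  have hN : 0 < N := by rw [hNd]; exact_mod_cast hN0
  obtain ⟨ε, hε⟩ : ∃ ε : ℝ, ε = q ^ 3 / 100 := ⟨_, rfl⟩
  have hε0 : 0 < ε := by rw [hε]; positivity
  have hε1 : ε ≤ 1 / 100 := by
    rw [hε]
    have : q ^ 3 ≤ 1 := pow_le_one₀ hq.le hq1
    linarith
  obtain ⟨A, hA⟩ : ∃ A : V → V → Prop, ∀ x z, A x z ↔ (x, x + z) ∈ Q := ⟨_, fun _ _ => Iff.rfl⟩
  have hAc : q * N ^ 2 ≤ (((univ : Finset (V × V)).filter (fun p => A p.1 p.2)).card : ℝ) := by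
    rw [← hNd] at hcard
    refine hcard.trans ?_
    have : Q.card ≤ ((univ : Finset (V × V)).filter (fun p => A p.1 p.2)).card := by
      refine card_le_card_of_injOn (fun p => (p.1, p.1 + p.2)) ?_ ?_
      · intro p hp
        rw [mem_coe, mem_filter]
        refine ⟨mem_univ _, ?_⟩
        rw [hA]
        have : p.1 + (p.1 + p.2) = p.2 := by rw [← add_assoc, h2, zero_add]
        simp only [this]
        exact hp
      · rintro ⟨x, y⟩ _ ⟨x', y'⟩ _ h
        simp only [Prod.mk.injEq] at h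
        obtain ⟨rfl, h⟩ := h
        rw [add_left_cancel h]
    exact_mod_cast this
  obtain ⟨X, hX⟩ := drc A q ε hq hε0 hN0 (by rw [← hNd]; exact hAc)
  rw [← hNd] at hX
  obtain ⟨P, hP⟩ : ∃ P : V × V → Prop, ∀ p, P p ↔
      (((univ : Finset V).filter (fun z => A p.1 z ∧ A p.2 z)).card : ℝ) < ε * N := ⟨_, fun _ => Iff.rfl⟩
  have hPe : (X ×ˢ X).filter (fun p =>
      (((univ : Finset V).filter (fun z => A p.1 z ∧ A p.2 z)).card : ℝ) < ε * N) = (X ×ˢ X).filter P :=
    filter_congr fun p _ => (hP p).symm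
  rw [hPe] at hX
  have hgp := goodpar X P
  rw [← hNd] at hgp
  obtain ⟨G, hG⟩ : ∃ G, G = (univ : Finset (V × V × V)).filter (fun t =>
      (t.2.1 ∈ X ∧ t.2.1 + t.1 ∈ X ∧ t.2.2 ∈ X ∧ t.2.2 + t.1 ∈ X) ∧
      ¬ P (t.2.1, t.2.1 + t.1) ∧ ¬ P (t.2.2, t.2.2 + t.1) ∧ ¬ P (t.2.1, t.2.2) ∧
      ¬ P (t.2.1 + t.1, t.2.2 + t.1)) := ⟨_, rfl⟩
  rw [← hG] at hgp
  obtain ⟨b, hb⟩ : ∃ b : ℝ, b = (((X ×ˢ X).filter P).card : ℝ) := ⟨_, rfl⟩
  obtain ⟨x, hx⟩ : ∃ x : ℝ, x = (X.card : ℝ) := ⟨_, rfl⟩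
  rw [← hb, ← hx] at hX hgp
  have hb0 : 0 ≤ b := by rw [hb]; positivity
  have hx0 : 0 ≤ x := by rw [hx]; positivity
  have hq2 : q ^ 2 / (2 * ε) = 50 / q := by
    rw [hε]
    field_simp
    norm_num
  rw [hq2] at hX
  have hxq : q * N / 2 ≤ x := by
    apply le_of_sq_le_sq _ hx0
    have : 0 ≤ 50 / q * b := by positivity
    nlinarith [sq_nonneg (q * N)]
  have hbx : b ≤ q / 50 * x ^ 2 := by
    have h1 : 50 / q * b ≤ x ^ 2 := by
      have : 0 ≤ q ^ 2 * N ^ 2 / 2 := by positivity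
      linarith
    calc b = q / 50 * (50 / q * b) := by field_simp
      _ ≤ q / 50 * x ^ 2 := by gcongr
  have hGc : q ^ 4 * N ^ 3 / 20 ≤ (G.card : ℝ) := by
    have h1 : x ^ 4 ≤ N * (G.card + 4 * (q / 50 * x ^ 2 * x)) := by
      refine hgp.trans ?_
      gcongr
    have h3 : x ^ 3 * (x - 4 * (q / 50) * N) ≤ N * G.card := by nlinarith
    have h4 : (q * N / 2) ^ 3 * (42 / 100 * (q * N)) ≤ x ^ 3 * (x - 4 * (q / 50) * N) := by
      apply mul_le_mul (pow_le_pow_left₀ (by positivity) hxq 3) _ (by positivity) (by positivity)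
      linarith
    have h5 : N * (q ^ 4 * N ^ 3 / 20) ≤ N * G.card := by
      have h6 : (q * N / 2) ^ 3 * (42 / 100 * (q * N)) = N * (q ^ 4 * N ^ 3 * (42 / 800)) := by ring
      have h7 : N * (q ^ 4 * N ^ 3 / 20) ≤ N * (q ^ 4 * N ^ 3 * (42 / 800)) := by
        apply mul_le_mul_of_nonneg_left _ hN.le
        have : 0 ≤ q ^ 4 * N ^ 3 := by positivity
        linarith
      linarith
    exact le_of_mul_le_mul_left h5 hN
  -- the values
  obtain ⟨τ, hτ⟩ : ∃ τ : V → V → K, ∀ u a, τ u a = B u a + B u u + c a - c (a + u) := ⟨_, fun _ _ => rfl⟩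
  set Val : V → Finset K := fun u => (univ.image (τ u)).filter
    (fun κ => ε * N ≤ (((univ : Finset V).filter (fun a => τ u a = κ)).card : ℝ)) with hVal
  have hValc : ∀ u, ((Val u).card : ℝ) ≤ 1 / ε := by
    intro u
    have h1 : ((Val u).card : ℝ) * (ε * N) ≤ N := by
      calc ((Val u).card : ℝ) * (ε * N) = ∑ _κ ∈ Val u, ε * N := by rw [sum_const, nsmul_eq_mul]
        _ ≤ ∑ κ ∈ Val u, (((univ : Finset V).filter (fun a => τ u a = κ)).card : ℝ) := by
            refine sum_le_sum fun κ hκ => ?_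
            exact (mem_filter.1 hκ).2
        _ ≤ ∑ κ ∈ univ.image (τ u), (((univ : Finset V).filter (fun a => τ u a = κ)).card : ℝ) := by
            refine sum_le_sum_of_subset_of_nonneg (filter_subset _ _) fun _ _ _ => by positivity
        _ = N := by
            rw [hNd, ← card_univ, card_eq_sum_card_image (τ u) univ]
            push_cast
            rfl
    rw [le_div_iff₀ hε0]
    have h3 : (((Val u).card : ℝ) * ε) * N ≤ 1 * N := by linarith
    exact le_of_mul_le_mul_right h3 hN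
  have hmem : ∀ x u : V, ¬ P (x, x + u) → F x - F (x + u) - B x u ∈ Val u := by
    intro x u hxu
    rw [hP, not_lt] at hxu
    simp only at hxu
    have key : ∀ z, A x z ∧ A (x + u) z → τ u (x + z) = F x - F (x + u) - B x u := by
      rintro z ⟨h1, h3⟩
      rw [hA] at h1 h3
      have h1' := hQ _ h1
      have h3' := hQ _ h3
      simp only at h1' h3'
      rw [hτ]
      refine (tau h2 B F c x u (x + z) h1' ?_).symm
      have e1 : x + z + u = x + u + z := by abel
      rw [e1]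
      exact h3'
    rw [hVal, mem_filter]
    refine ⟨?_, ?_⟩
    · have hpos : 0 < ((univ : Finset V).filter (fun z => A x z ∧ A (x + u) z)).card := by
        have : (0 : ℝ) < (((univ : Finset V).filter (fun z => A x z ∧ A (x + u) z)).card : ℝ) :=
          lt_of_lt_of_le (by positivity) hxu
        exact_mod_cast this
      obtain ⟨z, hz⟩ := card_pos.1 hpos
      rw [mem_filter] at hz
      rw [mem_image]
      exact ⟨x + z, mem_univ _, key z hz.2⟩
    · refine hxu.trans ?_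
      have : ((univ : Finset V).filter (fun z => A x z ∧ A (x + u) z)).card ≤
          ((univ : Finset V).filter (fun a => τ u a = F x - F (x + u) - B x u)).card := by
        refine card_le_card_of_injOn (fun z => x + z) ?_ ?_
        · intro z hz
          rw [mem_coe, mem_filter] at hz ⊢
          exact ⟨mem_univ _, key z hz.2⟩
        · intro z _ z' _ h
          exact add_left_cancel h
      exact_mod_cast this
  set W : V → Finset K := fun u => image₂ (fun a b => a - b) (Val u) (Val u) with hW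
  obtain ⟨m, hm⟩ : ∃ m : ℕ, m = ⌊(1 / ε) ^ 2⌋₊ := ⟨_, rfl⟩
  have hmle : (m : ℝ) ≤ (1 / ε) ^ 2 := by rw [hm]; exact Nat.floor_le (by positivity)
  have hWc : ∀ u, (W u).card ≤ m := by
    intro u
    rw [hm]
    apply Nat.le_floor
    have h1 : (W u).card ≤ (Val u).card * (Val u).card := card_image₂_le _ _ _
    have h3 : ((W u).card : ℝ) ≤ (Val u).card * (Val u).card := by exact_mod_cast h1
    refine h3.trans ?_
    rw [sq]
    exact mul_le_mul (hValc u) (hValc u) (Nat.cast_nonneg _) (by positivity)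
  have hm1 : 1 ≤ m := by
    rw [hm]
    apply Nat.le_floor
    rw [Nat.cast_one]
    apply one_le_pow₀
    rw [le_div_iff₀ hε0]
    linarith
  obtain ⟨e, he⟩ := enum W m hWc
  set Dj : Fin m × Fin m → Finset (V × V) := fun ij => univ.filter
    (fun p : V × V => B p.1 p.2 - B p.2 p.1 = e ij.1 p.1 + e ij.2 p.2) with hDj
  set S := G.image (fun t => (t.1, t.2.1 + t.2.2)) with hS
  have hSG : G.card ≤ Fintype.card V * S.card := by
    rw [hS]
    refine card_le_mul_card_image G _ fun p hp => ?_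
    rw [← card_univ]
    refine card_le_card_of_injOn (fun t => t.2.1) (fun _ _ => mem_coe.2 (mem_univ _)) ?_
    rintro ⟨u, x, y⟩ h ⟨u', x', y'⟩ h' hxx
    rw [mem_coe, mem_filter] at h h'
    have h3 := h.2.trans h'.2.symm
    simp only [Prod.mk.injEq] at h3 hxx
    obtain ⟨rfl, h3⟩ := h3
    subst hxx
    rw [add_left_cancel h3]
  have hsub : S ⊆ univ.biUnion Dj := by
    intro p hp
    rw [hS, mem_image] at hp
    obtain ⟨⟨u, x, y⟩, ht, rfl⟩ := hp
    rw [hG, mem_filter] at ht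
    obtain ⟨-, -, h1, h3, h4, h5⟩ := ht
    simp only at h1 h3 h4 h5 ⊢
    have a1 := hmem x u h1
    have a2 := hmem y u h3
    have hxy : x + (x + y) = y := by rw [← add_assoc, h2, zero_add]
    have hxy' : x + u + (x + y) = y + u := by
      calc x + u + (x + y) = (x + x) + (y + u) := by abel
        _ = y + u := by rw [h2, zero_add]
    have a3 := hmem x (x + y) (by rw [hxy]; exact h4)
    have a4 := hmem (x + u) (x + y) (by rw [hxy']; exact h5)
    rw [hxy] at a3
    rw [hxy'] at a4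
    have w1 : (F y - F (y + u) - B y u) - (F x - F (x + u) - B x u) ∈ W u :=
      mem_image₂.2 ⟨_, a2, _, a1, rfl⟩
    have w2 : (F x - F y - B x (x + y)) - (F (x + u) - F (y + u) - B (x + u) (x + y)) ∈ W (x + y) :=
      mem_image₂.2 ⟨_, a3, _, a4, rfl⟩
    obtain ⟨i, hi⟩ := he _ _ w1
    obtain ⟨j, hj⟩ := he _ _ w2
    rw [mem_biUnion]
    refine ⟨(i, j), mem_univ _, ?_⟩
    rw [hDj, mem_filter]
    refine ⟨mem_univ _, ?_⟩
    simp only
    rw [hi, hj]
    exact par h2 B F x u y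
  have hSD : (S.card : ℝ) ≤ ∑ ij, ((Dj ij).card : ℝ) := by
    have := (card_le_card hsub).trans card_biUnion_le
    exact_mod_cast this
  have hm0 : (0 : ℝ) < m := by exact_mod_cast hm1
  have hsum : ∑ _ij : Fin m × Fin m, ((S.card : ℝ) / (m * m)) ≤ ∑ ij, ((Dj ij).card : ℝ) := by
    rw [sum_const, card_univ, Fintype.card_prod, Fintype.card_fin, nsmul_eq_mul]
    push_cast
    rw [mul_div_cancel₀ _ (by positivity)]
    exact hSD
  have hne : (univ : Finset (Fin m × Fin m)).Nonempty := ⟨(⟨0, hm1⟩, ⟨0, hm1⟩), mem_univ _⟩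
  obtain ⟨⟨i, j⟩, -, hij⟩ := exists_le_of_sum_le hne hsum
  refine ⟨e i, e j, Dj (i, j), fun p hp => (mem_filter.1 hp).2, ?_⟩
  rw [← hNd]
  refine le_trans ?_ hij
  have hSG' : (G.card : ℝ) ≤ N * S.card := by
    rw [hNd]
    exact_mod_cast hSG
  have hSc : q ^ 4 * N ^ 2 / 20 ≤ S.card := by
    have : N * (q ^ 4 * N ^ 2 / 20) ≤ N * S.card := by
      refine le_trans (le_of_eq ?_) (hGc.trans hSG')
      ring
    exact le_of_mul_le_mul_left this hN
  have hmm : (m : ℝ) * m ≤ (1 / ε) ^ 4 := by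
    calc (m : ℝ) * m ≤ (1 / ε) ^ 2 * (1 / ε) ^ 2 := mul_le_mul hmle hmle hm0.le (by positivity)
      _ = (1 / ε) ^ 4 := by ring
  calc (q / 2) ^ 40 * N ^ 2 ≤ ε ^ 4 * (q ^ 4 * N ^ 2 / 20) := by
        have h1 : (q / 2) ^ 40 = q ^ 16 * (q ^ 24 / 2 ^ 40) := by ring
        have h3 : q ^ 24 ≤ 1 := pow_le_one₀ hq.le hq1
        have h4 : q ^ 24 / 2 ^ 40 ≤ 1 / (20 * 100 ^ 4) := by
          rw [div_le_div_iff₀ (by positivity) (by positivity)]
          nlinarith
        rw [h1, hε]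
        calc q ^ 16 * (q ^ 24 / 2 ^ 40) * N ^ 2 ≤ q ^ 16 * (1 / (20 * 100 ^ 4)) * N ^ 2 := by gcongr
          _ = _ := by ring
    _ = (q ^ 4 * N ^ 2 / 20) / (1 / ε) ^ 4 := by
        field_simp
    _ ≤ S.card / (m * m) := by
        apply div_le_div₀ (Nat.cast_nonneg _) hSc (by positivity) hmm

end Pool.Agent.Helper55.BT.B2
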