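import Pool.Agent.Helper55.BT.Stm

/-!
Project BT: module B3 (4-cycles). -/

set_option autoImplicit false

open Finset

namespace Pool.Agent.Helper55.BT.B3

theorem main : S_B3 := by
  intro V K _ _ _ T ζ ζ' D ρ hρ hD hcard
  classical
  set N : ℝ := (Fintype.card V : ℝ) with hN
  have hNpos : 0 < N := by
    rw [hN]
    exact_mod_cast Fintype.card_pos
  let χ : V → V → ℝ := fun u v => if (u, v) ∈ D then 1 else 0
  -- the number of the edges
  have hsum1 : ∑ u : V, ∑ a : V, χ u a = D.card := by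
    rw [← Fintype.sum_prod_type' χ]
    simp only [χ]
    rw [Finset.sum_ite_mem, Finset.univ_inter, Finset.sum_const, nsmul_eq_mul, mul_one]
  -- first Cauchy-Schwarz
  have hcs1 : (D.card : ℝ) ^ 2 ≤ N * ∑ u : V, (∑ a : V, χ u a) ^ 2 := by
    have h := sq_sum_le_card_mul_sum_sq (s := (Finset.univ : Finset V)) (f := fun u => ∑ a : V, χ u a)
    rw [hsum1] at h
    simpa [Finset.card_univ] using h
  let c : V × V → ℝ := fun p => ∑ u : V, χ u p.1 * χ u p.2
  have hsum2 : ∑ p : V × V, c p = ∑ u : V, (∑ a : V, χ u a) ^ 2 := by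
    simp only [c]
    rw [Finset.sum_comm]
    apply Finset.sum_congr rfl
    intro u _
    rw [pow_two, Finset.sum_mul_sum, ← Fintype.sum_prod_type']
  have hcs2 : (∑ p : V × V, c p) ^ 2 ≤ N ^ 2 * ∑ p : V × V, c p ^ 2 := by
    have h := sq_sum_le_card_mul_sum_sq (s := (Finset.univ : Finset (V × V))) (f := c)
    rw [Finset.card_univ, Fintype.card_prod] at h
    rw [hN, pow_two (Fintype.card V : ℝ)]
    exact_mod_cast h
  -- the 4-cycles
  let Z : Finset (V × V) := Finset.univ.filter (fun p : V × V => T p.1 p.2 = 0)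
  have hZ : (Set.ncard {p : V × V | T p.1 p.2 = 0} : ℝ) = (Z.card : ℝ) := by
    have h1 : {p : V × V | T p.1 p.2 = 0} = (Z : Set (V × V)) := by
      ext p
      simp [Z]
    rw [h1, Set.ncard_coe_finset]
  have hterm : ∀ u1 u2 a b : V, χ u1 a * χ u1 b * (χ u2 a * χ u2 b) ≤
      if (u1 - u2, a - b) ∈ Z then 1 else 0 := by
    intro u1 u2 a b
    by_cases h1 : (u1, a) ∈ D
    · by_cases h2 : (u1, b) ∈ D
      · by_cases h3 : (u2, a) ∈ D
        · by_cases h4 : (u2, b) ∈ D
          · have h5 : (u1 - u2, a - b) ∈ Z := by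
              simp only [Z, Finset.mem_filter, Finset.mem_univ, true_and]
              have e1 := hD _ h1
              have e2 := hD _ h2
              have e3 := hD _ h3
              have e4 := hD _ h4
              simp only at e1 e2 e3 e4
              simp only [map_sub, AddMonoidHom.sub_apply]
              rw [e1, e2, e3, e4]
              abel
            rw [if_pos h5]
            simp [χ, h1, h2, h3, h4]
          · have : χ u2 b = 0 := by simp [χ, h4]
            rw [this]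
            split_ifs <;> simp
        · have : χ u2 a = 0 := by simp [χ, h3]
          rw [this]
          split_ifs <;> simp
      · have : χ u1 b = 0 := by simp [χ, h2]
        rw [this]
        split_ifs <;> simp
    · have : χ u1 a = 0 := by simp [χ, h1]
      rw [this]
      split_ifs <;> simp
  have hfib : ∀ b u2 : V, ∑ a : V, ∑ u1 : V, (if (u1 - u2, a - b) ∈ Z then (1 : ℝ) else 0) = Z.card := by
    intro b u2
    rw [Finset.sum_comm]
    rw [← Fintype.sum_prod_type' (fun (u1 a : V) => if (u1 - u2, a - b) ∈ Z then (1 : ℝ) else 0)]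
    have h1 : ∑ p : V × V, (if (p.1 - u2, p.2 - b) ∈ Z then (1 : ℝ) else 0) =
        ∑ p : V × V, (if p ∈ Z then (1 : ℝ) else 0) := by
      exact (Equiv.prodCongr (Equiv.subRight u2) (Equiv.subRight b)).sum_comp
        (fun p : V × V => if p ∈ Z then (1 : ℝ) else 0)
    rw [h1, Finset.sum_ite_mem, Finset.univ_inter, Finset.sum_const, nsmul_eq_mul, mul_one]
  have hcount : ∑ p : V × V, c p ^ 2 ≤ N ^ 2 * Z.card := by
    have h1 : ∀ p : V × V, c p ^ 2 ≤ ∑ u1 : V, ∑ u2 : V, (if (u1 - u2, p.1 - p.2) ∈ Z then (1 : ℝ) else 0) := by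
      intro p
      simp only [c]
      rw [pow_two, Finset.sum_mul_sum]
      apply Finset.sum_le_sum
      intro u1 _
      apply Finset.sum_le_sum
      intro u2 _
      exact hterm u1 u2 p.1 p.2
    calc ∑ p : V × V, c p ^ 2
        ≤ ∑ p : V × V, ∑ u1 : V, ∑ u2 : V, (if (u1 - u2, p.1 - p.2) ∈ Z then (1 : ℝ) else 0) :=
          Finset.sum_le_sum (fun p _ => h1 p)
      _ = ∑ a : V, ∑ b : V, ∑ u1 : V, ∑ u2 : V, (if (u1 - u2, a - b) ∈ Z then (1 : ℝ) else 0) := by
          rw [Fintype.sum_prod_type]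
      _ = ∑ b : V, ∑ u2 : V, ∑ a : V, ∑ u1 : V, (if (u1 - u2, a - b) ∈ Z then (1 : ℝ) else 0) := by
          rw [Finset.sum_comm]
          apply Finset.sum_congr rfl
          intro b _
          have h2 : ∀ a : V, ∑ u1 : V, ∑ u2 : V, (if (u1 - u2, a - b) ∈ Z then (1 : ℝ) else 0) =
              ∑ u2 : V, ∑ u1 : V, (if (u1 - u2, a - b) ∈ Z then (1 : ℝ) else 0) :=
            fun a => Finset.sum_comm
          simp only [h2]
          rw [Finset.sum_comm]
      _ = ∑ b : V, ∑ u2 : V, (Z.card : ℝ) := by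
          simp only [hfib]
      _ = N ^ 2 * Z.card := by
          simp only [Finset.sum_const, Finset.card_univ, nsmul_eq_mul]
          rw [hN]
          ring
  rw [hZ]
  -- conclusion
  have hD2 : (ρ * N ^ 2) ^ 2 ≤ (D.card : ℝ) ^ 2 :=
    pow_le_pow_left₀ (by positivity) hcard 2
  have hA : ρ ^ 2 * N ^ 3 ≤ ∑ p : V × V, c p := by
    rw [hsum2]
    have h1 : (ρ * N ^ 2) ^ 2 ≤ N * ∑ u : V, (∑ a : V, χ u a) ^ 2 := hD2.trans hcs1
    have h2 : N * (ρ ^ 2 * N ^ 3) ≤ N * ∑ u : V, (∑ a : V, χ u a) ^ 2 := by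
      calc N * (ρ ^ 2 * N ^ 3) = (ρ * N ^ 2) ^ 2 := by ring
        _ ≤ _ := h1
    exact le_of_mul_le_mul_left h2 hNpos
  have hB : (ρ ^ 2 * N ^ 3) ^ 2 ≤ (∑ p : V × V, c p) ^ 2 := pow_le_pow_left₀ (by positivity) hA 2
  have hC : (ρ ^ 2 * N ^ 3) ^ 2 ≤ N ^ 2 * (N ^ 2 * Z.card) :=
    hB.trans (hcs2.trans (mul_le_mul_of_nonneg_left hcount (by positivity)))
  have hE : N ^ 4 * (ρ ^ 4 * N ^ 2) ≤ N ^ 4 * Z.card := by
    calc N ^ 4 * (ρ ^ 4 * N ^ 2) = (ρ ^ 2 * N ^ 3) ^ 2 := by ring
      _ ≤ N ^ 2 * (N ^ 2 * Z.card) := hC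
      _ = N ^ 4 * Z.card := by ring
  exact le_of_mul_le_mul_left hE (by positivity)

end Pool.Agent.Helper55.BT.B3
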