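import Pool.Agent.Helper55.BT.Sub

/-!
# Corner-free sets given by twisted additive equations: the basic bound
-/

set_option autoImplicit false

open Module

namespace Pool.Agent.Helper55.BT

open Finset hiding box
open Pool.Agent.Helper45.AE (box CornerFree corners density density_le)

theorem numbers {δ : ℝ} (hδ0 : 0 < δ) (hδ1 : δ ≤ 1) {n m Cb Cs e : ℕ} {N w : ℝ} (hN : 0 < N)
    (hw : w ≤ (2 / (δ / 2) ^ Cb) ^ Cs) (hw0 : 0 ≤ w)
    (hnm : (n : ℝ) ≤ m + Cs * Real.logb 2 (2 / (δ / 2) ^ Cb))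
    (key : (δ / 2) ^ e * (4 : ℝ) ^ ((0.03 : ℝ) * m) ≤ 3 * N * w ^ (e + 7)) :
    (δ / 2) ^ (2 + (Cb + 1) * Cs * (8 + e) + e) * (4 : ℝ) ^ ((0.03 : ℝ) * n) ≤ N := by
  set X : ℝ := 2 / δ with hX
  have hX0 : 0 < X := by positivity
  have hX2 : 2 ≤ X := by rw [hX, le_div_iff₀ hδ0]; linarith
  have hX1 : 1 ≤ X := by linarith
  have hδX : δ / 2 = X⁻¹ := by rw [hX, inv_div]
  set c1 := (Cb + 1) * Cs with hc1
  have h2ε : 2 / (δ / 2) ^ Cb ≤ X ^ (Cb + 1) := by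
    rw [hδX, inv_pow, div_inv_eq_mul, pow_succ, mul_comm]
    exact mul_le_mul_of_nonneg_left hX2 (by positivity)
  have h2ε0 : 0 < 2 / (δ / 2) ^ Cb := by positivity
  have hwX : w ≤ X ^ c1 := by
    refine hw.trans ?_
    rw [hc1, pow_mul]
    exact pow_le_pow_left₀ h2ε0.le h2ε Cs
  have hlog : Cs * Real.logb 2 (2 / (δ / 2) ^ Cb) ≤ c1 * Real.logb 2 X := by
    have h1 : Real.logb 2 (2 / (δ / 2) ^ Cb) ≤ Real.logb 2 (X ^ (Cb + 1)) :=
      Real.logb_le_logb_of_le (by norm_num) h2ε0 h2ε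
    have h2 : Real.logb 2 (X ^ (Cb + 1)) = (Cb + 1 : ℕ) * Real.logb 2 X := by
      rw [← Real.rpow_natCast, Real.logb_rpow_eq_mul_logb_of_pos hX0]
    rw [h2] at h1
    have h3 := mul_le_mul_of_nonneg_left h1 (Nat.cast_nonneg Cs : (0 : ℝ) ≤ Cs)
    refine h3.trans (le_of_eq ?_)
    rw [hc1]; push_cast; ring
  have hlogX : 0 ≤ Real.logb 2 X := Real.logb_nonneg (by norm_num) hX1
  have h4n : (4 : ℝ) ^ ((0.03 : ℝ) * n) ≤ (4 : ℝ) ^ ((0.03 : ℝ) * m) * X ^ c1 := by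
    have h1 : (4 : ℝ) ^ ((0.03 : ℝ) * n) ≤
        (4 : ℝ) ^ ((0.03 : ℝ) * m + (0.5 : ℝ) * (c1 * Real.logb 2 X)) := by
      refine Real.rpow_le_rpow_of_exponent_le (by norm_num) ?_
      have h5 : (0 : ℝ) ≤ c1 * Real.logb 2 X := by positivity
      nlinarith [hnm.trans (add_le_add_right hlog m)]
    refine h1.trans (le_of_eq ?_)
    rw [Real.rpow_add (by norm_num)]
    congr 1
    rw [show (4 : ℝ) = 2 ^ (2 : ℝ) by norm_num, ← Real.rpow_mul (by norm_num),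
      show (2 : ℝ) * ((0.5 : ℝ) * (c1 * Real.logb 2 X)) = Real.logb 2 X * c1 by ring,
      Real.rpow_mul (by norm_num), Real.rpow_logb (by norm_num) (by norm_num) hX0,
      Real.rpow_natCast]
  have h3X : (3 : ℝ) ≤ X ^ 2 := by nlinarith
  have hkey : (4 : ℝ) ^ ((0.03 : ℝ) * m) ≤ N * X ^ (2 + c1 * (7 + e) + e) := by
    have h1 : (4 : ℝ) ^ ((0.03 : ℝ) * m) = X ^ e * ((δ / 2) ^ e * (4 : ℝ) ^ ((0.03 : ℝ) * m)) := by
      rw [← mul_assoc, ← mul_pow, hδX, mul_inv_cancel₀ hX0.ne', one_pow, one_mul]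
    rw [h1]
    calc X ^ e * ((δ / 2) ^ e * (4 : ℝ) ^ ((0.03 : ℝ) * m)) ≤ X ^ e * (3 * N * w ^ (e + 7)) :=
          mul_le_mul_of_nonneg_left key (by positivity)
      _ ≤ X ^ e * (X ^ 2 * N * (X ^ c1) ^ (e + 7)) := by gcongr
      _ = _ := by
        rw [← pow_mul, pow_add, pow_add, Nat.add_comm e 7]; ring
  have hC : (δ / 2) ^ (2 + c1 * (8 + e) + e) = (X ^ (2 + c1 * (8 + e) + e))⁻¹ := by
    rw [hδX, inv_pow]
  rw [hC, inv_mul_le_iff₀ (by positivity)]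
  calc (4 : ℝ) ^ ((0.03 : ℝ) * n) ≤ (4 : ℝ) ^ ((0.03 : ℝ) * m) * X ^ c1 := h4n
    _ ≤ (N * X ^ (2 + c1 * (7 + e) + e)) * X ^ c1 := by gcongr
    _ = X ^ (2 + c1 * (8 + e) + e) * N := by
      rw [mul_assoc, ← pow_add, mul_comm]
      congr 2
      ring

theorem base (h1 : S_B1) (h2 : S_B2) (h3 : S_B3) (hS : S_SLICE) (hSY : S_SYM) (hRK : S_RK) :
    ∃ C : ℕ, 0 < C ∧ ∀ (n N : ℕ) (E : Finset (V n × V n)), 1 ≤ N → Twisted N E → CornerFree E →
      (density E / 2) ^ C * (4 : ℝ) ^ ((0.03 : ℝ) * n) ≤ N := by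
  classical
  obtain ⟨Cb, hCb0, hCb⟩ := bias h1 h2 h3
  obtain ⟨Cs, hCs⟩ := hS
  obtain ⟨e, he⟩ := exists_expo
  refine ⟨2 + (Cb + 1) * Cs * (8 + e) + e, by omega, fun n N E hN hT hcf => ?_⟩
  rcases E.eq_empty_or_nonempty with h0 | hne
  · have h5 : density E = 0 := by rw [h0]; simp [density]
    rw [h5, zero_div, zero_pow (by omega), zero_mul]
    positivity
  obtain ⟨K, _, F, G, H, B, L, _, _, a, b, c, hE⟩ := hT
  have hE0 : (0 : ℝ) < #E := by exact_mod_cast hne.card_pos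
  have hδ0 : 0 < density E := by unfold density; positivity
  have hδ1 : density E ≤ 1 := density_le E
  have hdE : density E * 4 ^ n = #E := by unfold density; field_simp
  generalize density E = δ at hδ0 hδ1 hdE ⊢
  have hD := hCb n K B F G H E δ hδ0 hδ1 (fun p hp => ((hE p.1 p.2).1 hp).1) hdE.le
  have hε : 0 < (δ / 2) ^ Cb := by positivity
  have hε1 : (δ / 2) ^ Cb ≤ 1 := pow_le_one₀ (by positivity) (by linarith)
  obtain ⟨U, W, hWf, hW2, hWc, hU, hUW⟩ := hCs n K (B - B.flip) _ hε hε1 hD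
  obtain ⟨m, hm⟩ : ∃ m, m = finrank (ZMod 2) U := ⟨_, rfl⟩
  rw [← hm] at hU
  obtain ⟨ι, hιU, hιinj⟩ : ∃ ι : V m →+ V n, (∀ x, ι x ∈ U) ∧ ∀ x, ι x = 0 → x = 0 := by
    rw [hm]
    refine ⟨(U.subtype.comp (Module.finBasis (ZMod 2) U).equivFun.symm.toLinearMap).toAddMonoidHom,
      fun x => ?_, fun x hx => ?_⟩
    · exact ((Module.finBasis (ZMod 2) U).equivFun.symm x).2
    · have h5 : (((Module.finBasis (ZMod 2) U).equivFun.symm x : U) : V n) = 0 := hx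
      have h6 : (Module.finBasis (ZMod 2) U).equivFun.symm x = 0 := Subtype.ext h5
      exact (LinearEquiv.map_eq_zero_iff _).1 h6
  obtain ⟨⟨a0, b0⟩, hq⟩ := exists_coset ι E
  have hE'm : ∀ s t, (s, t) ∈ (univ.filter fun p : V m × V m => (a0 + ι p.1, b0 + ι p.2) ∈ E) ↔
      (a0 + ι s, b0 + ι t) ∈ E := fun s t => by simp
  have hq' : 4 ^ m * #E ≤ 4 ^ n *
    #(univ.filter fun p : V m × V m => (a0 + ι p.1, b0 + ι p.2) ∈ E) := hq
  generalize (univ.filter fun p : V m × V m => (a0 + ι p.1, b0 + ι p.2) ∈ E) = E' at hq' hE'm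
  have hcf' : CornerFree E' := by
    intro x y z h4 h5 h6
    rw [hE'm] at h4 h5 h6
    rw [map_add, ← add_assoc] at h5 h6
    exact hιinj z (hcf _ _ _ h4 h5 h6)
  have hcard : δ * 4 ^ m ≤ #E' := by
    have h4 : (4 : ℝ) ^ m * #E ≤ 4 ^ n * #E' := by exact_mod_cast hq'
    rw [← hdE] at h4
    have h5 : (0 : ℝ) < 4 ^ n := by positivity
    refine le_of_mul_le_mul_left (a := (4 : ℝ) ^ n) ?_ h5
    linarith
  have key := on_sub (m := m) (N := N) hSY hRK e he K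
    (fun s => F (a0 + ι s) - B (ι s) b0 - B a0 b0) (fun t => G (b0 + ι t) - B a0 (ι t))
    (fun r => H (a0 + b0 + ι r))
    (AddMonoidHom.mk' (fun s => (B (ι s)).comp ι) (by
      intro s s'
      ext t
      simp))
    L (fun i s => a i (a0 + ι s)) (fun i t => b i (b0 + ι t)) (fun i r => c i (a0 + b0 + ι r))
    E' (fun s t => by
      rw [hE'm, hE]
      have h5 : a0 + ι s + (b0 + ι t) = a0 + b0 + ι (s + t) := by rw [map_add]; abel
      rw [h5]
      refine and_congr ?_ Iff.rfl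
      have h6 : B (a0 + ι s) (b0 + ι t) = B a0 b0 + B (ι s) b0 + B a0 (ι t) + B (ι s) (ι t) := by
        simp only [map_add, AddMonoidHom.add_apply]
        abel
      rw [h6, AddMonoidHom.mk'_apply, AddMonoidHom.comp_apply]
      constructor
      · intro h7
        rw [← sub_eq_zero] at h7 ⊢
        rw [← h7]
        abel
      · intro h7
        rw [← sub_eq_zero] at h7 ⊢
        rw [← h7]
        abel) hcf' W hWf hW2 (fun x y => by
      have := hUW (ι x) (hιU x) (ι y) (hιU y)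
      simpa using this) δ hδ0 hδ1 hcard hN
  exact numbers hδ0 hδ1 (by exact_mod_cast (by omega : 0 < N)) hWc (Nat.cast_nonneg _) hU key

end Pool.Agent.Helper55.BT
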