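import Pool.Agent.Helper55.BT.Stm2

/-!
# Project BT, module CEN1 (helper32)
-/

set_option autoImplicit false

open Finset Module

namespace Pool.Agent.Helper55.BT.CEN1

variable {n : ℕ} {Γ : Type} [Group Γ]

/-- the commutator -/
def cm (p q : Γ) : Γ := p * q * p⁻¹ * q⁻¹

/-- the data of a central extension -/
structure CE (π : Γ → V n) : Prop where
  mul : ∀ p q, π (p * q) = π p + π q
  cen : ∀ p, π p = 0 → ∀ q, p * q = q * p

namespace CE

variable {π : Γ → V n} (h : CE π)
include h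

theorem one : π 1 = 0 := by
  have := h.mul 1 1
  rw [mul_one] at this
  simpa using this

theorem inv (p : Γ) : π p⁻¹ = -π p := by
  have := h.mul p⁻¹ p
  rw [inv_mul_cancel, h.one] at this
  exact eq_neg_of_add_eq_zero_left this.symm

theorem cm_mem (p q : Γ) : π (cm p q) = 0 := by
  rw [cm, h.mul, h.mul, h.mul, h.inv, h.inv]
  abel

theorem cm_mul_left (p p' q : Γ) : cm (p * p') q = cm p q * cm p' q := by
  have h1 := h.cen _ (h.cm_mem p' q)
  have h2 : cm (p * p') q = p * cm p' q * (q * p⁻¹ * q⁻¹) := by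
    unfold cm; group
  rw [h2, ← h1 p, mul_assoc, ← mul_assoc p, ← mul_assoc p, h1]
  rfl

theorem cm_mul_right (p q q' : Γ) : cm p (q * q') = cm p q * cm p q' := by
  have h1 := h.cen _ (h.cm_mem p q')
  have h2 : cm p (q * q') = p * q * p⁻¹ * cm p q' * q⁻¹ := by
    unfold cm; group
  rw [h2, ← h1 (p * q * p⁻¹), mul_assoc, h1]
  rfl

theorem cm_ker_left {a : Γ} (ha : π a = 0) (q : Γ) : cm a q = 1 := by
  unfold cm
  rw [h.cen a ha q]
  group

theorem cm_ker_right {a : Γ} (ha : π a = 0) (p : Γ) : cm p a = 1 := by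
  unfold cm
  rw [← h.cen a ha p]
  group

theorem cm_congr {p p' q q' : Γ} (hp : π p = π p') (hq : π q = π q') : cm p q = cm p' q' := by
  have e1 : π (p'⁻¹ * p) = 0 := by rw [h.mul, h.inv, hp, neg_add_cancel]
  have e2 : π (q'⁻¹ * q) = 0 := by rw [h.mul, h.inv, hq, neg_add_cancel]
  have h1 : cm p q = cm (p' * (p'⁻¹ * p)) (q' * (q'⁻¹ * q)) := by
    rw [mul_inv_cancel_left, mul_inv_cancel_left]
  rw [h1, h.cm_mul_left, h.cm_ker_left e1, mul_one, h.cm_mul_right, h.cm_ker_right e2, mul_one]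

omit h in
theorem cm_self (p : Γ) : cm p p = 1 := by unfold cm; group

omit h in
theorem cm_swap (p q : Γ) : cm q p = (cm p q)⁻¹ := by unfold cm; group

theorem sq_mem (p : Γ) : π (p * p) = 0 := by
  rw [h.mul]
  funext i
  exact CharTwo.add_self_eq_zero _

theorem cm_sq (p q : Γ) : cm p q * cm p q = 1 := by
  rw [← h.cm_mul_left, h.cm_ker_left (h.sq_mem p)]

/-- the central elements of order two over zero -/
def A : Subgroup Γ where
  carrier := {a | π a = 0 ∧ a * a = 1}
  one_mem' := ⟨h.one, mul_one 1⟩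
  mul_mem' := by
    rintro a b ⟨ha, ha'⟩ ⟨hb, hb'⟩
    refine ⟨by rw [h.mul, ha, hb, add_zero], ?_⟩
    have e : a * b * (a * b) = a * a * (b * b) := by
      rw [mul_assoc, ← mul_assoc b a b, h.cen b hb a]
      group
    rw [e, ha', hb', mul_one]
  inv_mem' := by
    rintro a ⟨ha, ha'⟩
    refine ⟨by rw [h.inv, ha, neg_zero], ?_⟩
    rw [← mul_inv_rev, ha', inv_one]

theorem cm_mem_A (p q : Γ) : cm p q ∈ h.A := ⟨h.cm_mem p q, h.cm_sq p q⟩

/-- `A` is commutative -/
@[reducible] def commGroupA : CommGroup h.A :=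
  { (inferInstance : Group h.A) with
    mul_comm := fun a b => Subtype.ext (h.cen a.1 a.2.1 b.1) }

end CE

/-- An alternating bilinear map over a field is `b - b.flip`. -/
theorem half {n : ℕ} {E : Type} [AddCommGroup E] [Module (ZMod 2) E]
    (C : V n →ₗ[ZMod 2] V n →ₗ[ZMod 2] E) (h0 : ∀ x, C x x = 0) (h1 : ∀ x y, C x y = -C y x) :
    ∃ b : V n →ₗ[ZMod 2] V n →ₗ[ZMod 2] E, ∀ x y, C x y = b x y - b y x := by
  classical
  let e := Pi.basisFun (ZMod 2) (Fin n)
  let b : V n →ₗ[ZMod 2] V n →ₗ[ZMod 2] E :=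
    e.constr (ZMod 2) fun i => e.constr (ZMod 2) fun j => if j < i then C (e i) (e j) else 0
  have hb : ∀ i j, b (e i) (e j) = if j < i then C (e i) (e j) else 0 := by
    intro i j
    show (e.constr (ZMod 2) (fun i => e.constr (ZMod 2) fun j =>
      if j < i then C (e i) (e j) else 0)) (e i) (e j) = _
    rw [Basis.constr_basis, Basis.constr_basis]
  have key : C = b - b.flip := by
    refine e.ext fun i => e.ext fun j => ?_
    rw [LinearMap.sub_apply, LinearMap.sub_apply, LinearMap.flip_apply, hb, hb]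
    rcases lt_trichotomy i j with hij | hij | hij
    · rw [if_neg (not_lt.2 hij.le), if_pos hij, zero_sub, h1]
    · subst hij
      rw [if_neg (lt_irrefl _), h0, sub_self]
    · rw [if_pos hij, if_neg (not_lt.2 hij.le), sub_zero]
  refine ⟨b, fun x y => ?_⟩
  conv_lhs => rw [key]
  rfl

theorem main : S_CEN1 := by
  intro n Γ _ π hmul hcen
  classical
  have h : CE π := ⟨hmul, hcen⟩
  let _ : CommGroup h.A := h.commGroupA
  have h2 : ∀ x : Additive h.A, 2 • x = 0 := by
    intro x
    rw [two_nsmul]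
    exact Subtype.ext x.toMul.2.2
  let _ : Module (ZMod 2) (Additive h.A) := AddCommGroup.zmodModule h2
  -- the image of π
  let I : Submodule (ZMod 2) (V n) :=
    AddSubgroup.toZModSubmodule 2
      { carrier := Set.range π
        zero_mem' := ⟨1, h.one⟩
        add_mem' := by
          rintro _ _ ⟨p, rfl⟩ ⟨q, rfl⟩
          exact ⟨p * q, h.mul p q⟩
        neg_mem' := by
          rintro _ ⟨p, rfl⟩
          exact ⟨p⁻¹, h.inv p⟩ }
  have hI : ∀ x, x ∈ I ↔ ∃ p, π p = x := fun x => Iff.rfl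
  obtain ⟨ψ, hψ⟩ := LinearMap.exists_extend (LinearMap.id : I →ₗ[ZMod 2] I)
  have hψ' : ∀ p, (ψ (π p) : V n) = π p := by
    intro p
    have := LinearMap.congr_fun hψ ⟨π p, (hI _).2 ⟨p, rfl⟩⟩
    exact congrArg Subtype.val this
  have hs : ∀ x, ∃ p, π p = ψ x := fun x => (hI _).1 (ψ x).2
  choose s hs using hs
  have hadd1 : ∀ x x' y, cm (s (x + x')) (s y) = cm (s x) (s y) * cm (s x') (s y) := by
    intro x x' y
    rw [← h.cm_mul_left]
    refine h.cm_congr ?_ rfl
    rw [h.mul, hs, hs, hs, map_add]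
    rfl
  have hadd2 : ∀ x y y', cm (s x) (s (y + y')) = cm (s x) (s y) * cm (s x) (s y') := by
    intro x y y'
    rw [← h.cm_mul_right]
    refine h.cm_congr rfl ?_
    rw [h.mul, hs, hs, hs, map_add]
    rfl
  let C0 : V n →+ V n →+ Additive h.A :=
    AddMonoidHom.mk' (fun x => AddMonoidHom.mk' (fun y => Additive.ofMul
      (⟨cm (s x) (s y), h.cm_mem_A _ _⟩ : h.A)) (fun y y' => Subtype.ext (hadd2 x y y')))
      (fun x x' => AddMonoidHom.ext fun y => Subtype.ext (hadd1 x x' y))
  let C : V n →ₗ[ZMod 2] V n →ₗ[ZMod 2] Additive h.A :=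
    AddMonoidHom.toZModLinearMap 2
      ({ toFun := fun x => (C0 x).toZModLinearMap 2
         map_zero' := LinearMap.ext fun y => by
          show C0 0 y = 0
          rw [map_zero, AddMonoidHom.zero_apply]
         map_add' := fun x x' => LinearMap.ext fun y => by
          show C0 (x + x') y = C0 x y + C0 x' y
          rw [map_add, AddMonoidHom.add_apply] } : V n →+ (V n →ₗ[ZMod 2] Additive h.A))
  have hC : ∀ x y, ((C x y).toMul : Γ) = cm (s x) (s y) := fun x y => rfl
  obtain ⟨b, hb⟩ := half C (fun x => Subtype.ext ((hC x x).trans (CE.cm_self _)))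
    (fun x y => Subtype.ext ((hC x y).trans (CE.cm_swap _ _)))
  refine ⟨fun x y => ((b x y).toMul : h.A), fun x y => (b x y).toMul.2.1, fun x x' y => ?_,
    fun x y y' => ?_, fun p q => ?_⟩
  · show (((b (x + x') y).toMul : h.A) : Γ) = _
    rw [map_add, LinearMap.add_apply]
    rfl
  · show (((b x (y + y')).toMul : h.A) : Γ) = _
    rw [map_add]
    rfl
  · have e1 : b (π p) (π q) = C (π p) (π q) + b (π q) (π p) := by rw [hb, sub_add_cancel]
    have e2 : (((b (π p) (π q)).toMul : h.A) : Γ) =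
        cm (s (π p)) (s (π q)) * (((b (π q) (π p)).toMul : h.A) : Γ) := by rw [e1]; rfl
    have e3 : cm p q = cm (s (π p)) (s (π q)) :=
      h.cm_congr (by rw [hs, hψ']) (by rw [hs, hψ'])
    have e4 : p * q = q * p * cm p q := by
      rw [← h.cen _ (h.cm_mem p q)]
      unfold cm
      group
    show p * q * (((b (π q) (π p)).toMul : h.A) : Γ) = q * p * (((b (π p) (π q)).toMul : h.A) : Γ)
    rw [e2, ← e3, ← mul_assoc, ← e4]

end Pool.Agent.Helper55.BT.CEN1
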