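import Pool.Agent.Helper55.BT.Stm2

/-! Module CEN2 by helper2. -/

set_option autoImplicit false

namespace Pool.Agent.Helper55.BT.CEN2

open Pool.Agent.Helper55.BT

theorem gen (U : Type) [AddCommGroup U] (Γ : Type) [Group Γ] (π : Γ → U)
    (hπ : ∀ p q, π (p * q) = π p + π q) (hc : ∀ p, π p = 0 → ∀ q, p * q = q * p)
    (b : U → U → Γ) (hb0 : ∀ x y, π (b x y) = 0)
    (hbl : ∀ x x' y, b (x + x') y = b x y * b x' y)
    (hbr : ∀ x y y', b x (y + y') = b x y * b x y')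
    (hcomm : ∀ p q, p * q * b (π q) (π p) = q * p * b (π p) (π q)) :
    ∃ (K : Type) (_ : AddCommGroup K) (B : U →+ U →+ K) (κ : Γ → K),
      Function.Injective κ ∧ ∀ p q, κ (p * q) = κ p + κ q + B (π p) (π q) := by
  have hπ1 : π 1 = 0 := by
    have h := hπ 1 1
    rw [mul_one] at h
    exact left_eq_add.mp h
  have hπi : ∀ p, π p⁻¹ = -π p := by
    intro p
    have h := hπ p⁻¹ p
    rw [inv_mul_cancel, hπ1] at h
    exact eq_neg_of_add_eq_zero_left h.symm
  have hcb : ∀ x y q, b x y * q = q * b x y := fun x y q => hc _ (hb0 x y) q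
  have hci : ∀ x y q, (b x y)⁻¹ * q = q * (b x y)⁻¹ := by
    intro x y q
    apply hc
    rw [hπi, hb0, neg_zero]
  have hπbi : ∀ x y, π (b x y)⁻¹ = 0 := fun x y => by rw [hπi, hb0, neg_zero]
  have hb0l : ∀ y, b 0 y = 1 := by
    intro y
    have h := hbl 0 0 y
    rw [add_zero] at h
    exact left_eq_mul.mp h
  have hb0r : ∀ x, b x 0 = 1 := by
    intro x
    have h := hbr x 0 0
    rw [add_zero] at h
    exact left_eq_mul.mp h
  let op : Γ → Γ → Γ := fun p q => p * q * (b (π p) (π q))⁻¹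
  have hπop : ∀ p q, π (op p q) = π p + π q := by
    intro p q
    show π (p * q * (b (π p) (π q))⁻¹) = _
    rw [hπ, hπ, hπbi, add_zero]
  have hassoc : ∀ p q r, op (op p q) r = op p (op q r) := by
    intro p q r
    have e1 : op (op p q) r = op p q * r * (b (π (op p q)) (π r))⁻¹ := rfl
    have e2 : op p (op q r) = p * op q r * (b (π p) (π (op q r)))⁻¹ := rfl
    rw [e1, e2, hπop, hπop, hbl, hbr, mul_inv_rev, mul_inv_rev]
    show p * q * (b (π p) (π q))⁻¹ * r * ((b (π q) (π r))⁻¹ * (b (π p) (π r))⁻¹) =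
      p * (q * r * (b (π q) (π r))⁻¹) * ((b (π p) (π r))⁻¹ * (b (π p) (π q))⁻¹)
    have e3 : p * q * (b (π p) (π q))⁻¹ * r = p * q * r * (b (π p) (π q))⁻¹ := by
      rw [mul_assoc (p * q), hci, ← mul_assoc]
    rw [e3]
    simp only [mul_assoc]
    congr 3
    rw [hci (π p) (π q), mul_assoc]
  have hzero : ∀ p, op 1 p = p := by
    intro p
    show 1 * p * (b (π 1) (π p))⁻¹ = p
    rw [hπ1, hb0l, one_mul, inv_one, mul_one]
  have hneg : ∀ p, op (p⁻¹ * b (-(π p)) (π p)) p = 1 := by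
    intro p
    have e : π (p⁻¹ * b (-(π p)) (π p)) = -π p := by rw [hπ, hπi, hb0, add_zero]
    show p⁻¹ * b (-(π p)) (π p) * p * (b (π (p⁻¹ * b (-(π p)) (π p))) (π p))⁻¹ = 1
    rw [e, mul_assoc p⁻¹, hcb, ← mul_assoc, inv_mul_cancel, one_mul, mul_inv_cancel]
  have hopc : ∀ p q, op p q = op q p := by
    intro p q
    show p * q * (b (π p) (π q))⁻¹ = q * p * (b (π q) (π p))⁻¹
    rw [mul_inv_eq_iff_eq_mul, mul_assoc, hci, ← mul_assoc, ← hcomm, mul_assoc, mul_inv_cancel,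
      mul_one]
  letI : Add Γ := ⟨op⟩
  letI : Zero Γ := ⟨1⟩
  letI : Neg Γ := ⟨fun p => p⁻¹ * b (-(π p)) (π p)⟩
  letI G1 : AddGroup Γ := AddGroup.ofLeftAxioms hassoc hzero hneg
  letI G2 : AddCommGroup Γ := { G1 with add_comm := hopc }
  have hadd : ∀ p q : Γ, p + q = p * q * (b (π p) (π q))⁻¹ := fun p q => rfl
  refine ⟨Γ, G2, AddMonoidHom.mk' (fun x => AddMonoidHom.mk' (fun y => b x y) ?_) ?_, id,
    Function.injective_id, ?_⟩
  · intro y y'
    rw [hadd, hb0, hb0, hb0l, inv_one, mul_one]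
    exact hbr x y y'
  · intro x x'
    ext y
    show b (x + x') y = b x y + b x' y
    rw [hadd, hb0, hb0, hb0l, inv_one, mul_one]
    exact hbl x x' y
  · intro p q
    show p * q = p + q + b (π p) (π q)
    rw [hadd (p + q), hb0, hb0r, inv_one, mul_one, hadd, mul_assoc, inv_mul_cancel, mul_one]

theorem main : S_CEN1 → S_CEN := by
  intro h n Γ _ π hπ hc
  obtain ⟨b, h0, hl, hr, hcm⟩ := h n Γ π hπ hc
  exact gen (V n) Γ π hπ hc b h0 hl hr hcm

end Pool.Agent.Helper55.BT.CEN2
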