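import Pool.Agent.Helper55.BT.Stm2

/-!
# BT, HEI: the Heisenberg type group
-/

set_option autoImplicit false

namespace Pool.Agent.Helper55.BT.HEI

open Pool.Agent.Helper55.BT

/-- the underlying set of the Heisenberg type group -/
structure Hs {n : ℕ} {K : Type} [AddCommGroup K] (B : V n →+ V n →+ K) : Type where
  fst : V n
  snd : K

variable {n : ℕ} {K : Type} [AddCommGroup K] (B : V n →+ V n →+ K)

lemma Hs.ext' {B : V n →+ V n →+ K} {p q : Hs B} (h1 : p.fst = q.fst) (h2 : p.snd = q.snd) :
    p = q := by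
  cases p; cases q; simp only at h1 h2; subst h1; subst h2; rfl

instance : Mul (Hs B) := ⟨fun p q => ⟨p.fst + q.fst, p.snd + q.snd + B p.fst q.fst⟩⟩
instance : One (Hs B) := ⟨⟨0, 0⟩⟩
instance : Inv (Hs B) := ⟨fun p => ⟨-p.fst, -p.snd + B p.fst p.fst⟩⟩

lemma mul_fst (p q : Hs B) : (p * q).fst = p.fst + q.fst := rfl
lemma mul_snd (p q : Hs B) : (p * q).snd = p.snd + q.snd + B p.fst q.fst := rfl
lemma one_fst : (1 : Hs B).fst = 0 := rfl
lemma one_snd : (1 : Hs B).snd = 0 := rfl
lemma inv_fst (p : Hs B) : (p⁻¹).fst = -p.fst := rfl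
lemma inv_snd (p : Hs B) : (p⁻¹).snd = -p.snd + B p.fst p.fst := rfl

instance : Group (Hs B) := Group.ofLeftAxioms
  (fun p q r => by
    apply Hs.ext'
    · simp only [mul_fst]; abel
    · simp only [mul_snd, mul_fst, map_add, AddMonoidHom.add_apply]; abel)
  (fun p => by
    apply Hs.ext'
    · simp only [mul_fst, one_fst, zero_add]
    · simp only [mul_snd, one_fst, one_snd, map_zero, AddMonoidHom.zero_apply, zero_add, add_zero])
  (fun p => by
    apply Hs.ext'
    · simp only [mul_fst, inv_fst, one_fst, neg_add_cancel]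
    · simp only [mul_snd, inv_fst, inv_snd, one_snd, map_neg, AddMonoidHom.neg_apply]; abel)

theorem main : S_HEI := by
  intro n K _ B
  refine ⟨Hs B, inferInstance, Hs.fst, fun x k => ⟨x, k⟩, fun p q => rfl, ?_, fun x k => rfl,
    fun x y k l => rfl, ?_⟩
  · intro p hp q
    apply Hs.ext'
    · show p.fst + q.fst = q.fst + p.fst
      abel
    · show p.snd + q.snd + B p.fst q.fst = q.snd + p.snd + B q.fst p.fst
      rw [hp, map_zero, map_zero, AddMonoidHom.zero_apply]
      abel
  · intro x k l h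
    exact congrArg Hs.snd h

end Pool.Agent.Helper55.BT.HEI
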