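import Pool.Agent.Helper55.BT.Stm

/-!
Project BT: module ITER (iteration of AVG). -/

set_option autoImplicit false

open Finset

namespace Pool.Agent.Helper55.BT.ITER

/-- the tail of `∑ (s + 2)^4 / 2^s` is `tl t / 2 ^ t` -/
noncomputable def tl (t : ℕ) : ℝ :=
  2 * ((t : ℝ) + 2) ^ 4 + 8 * ((t : ℝ) + 2) ^ 3 + 36 * ((t : ℝ) + 2) ^ 2 + 104 * ((t : ℝ) + 2) + 150

theorem tl_nonneg (t : ℕ) : 0 ≤ tl t := by
  unfold tl
  positivity

theorem tl_succ (t : ℕ) : tl t / 2 ^ t = ((t : ℝ) + 2) ^ 4 / 2 ^ t + tl (t + 1) / 2 ^ (t + 1) := by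
  have h2 : (2 : ℝ) ^ t ≠ 0 := by positivity
  unfold tl
  push_cast
  rw [pow_succ]
  field_simp
  ring

theorem step_log {v s s' m : ℕ} (hv : 0 < v) (hs : 0 < s) (hs' : 0 < s') (hm : 1 ≤ m)
    (h : s ^ m ≤ 2 ^ m * v * s' ^ (m - 1)) :
    ((m : ℝ) - 1) * (Real.log v - Real.log s') ≤
      m * (Real.log v - Real.log s + Real.log 2) := by
  have h1 : ((s : ℝ)) ^ m ≤ 2 ^ m * v * (s' : ℝ) ^ (m - 1) := by exact_mod_cast h
  have hv' : (0 : ℝ) < v := by exact_mod_cast hv
  have hs1 : (0 : ℝ) < s := by exact_mod_cast hs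
  have hs2 : (0 : ℝ) < s' := by exact_mod_cast hs'
  have h2 := Real.log_le_log (by positivity) h1
  rw [Real.log_mul (by positivity) (by positivity), Real.log_mul (by positivity) (by positivity),
    Real.log_pow, Real.log_pow, Real.log_pow, Nat.cast_sub hm, Nat.cast_one] at h2
  nlinarith [h2]

theorem main (hA : S_AVG) : S_ITER := by
  intro V P _ _ R p₀ S r hS hr
  have hv : 0 < Fintype.card V := Fintype.card_pos
  set ℓ : ℝ := Real.log (Fintype.card V) - Real.log S.card with hℓ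
  have hlog2 : 0 < Real.log 2 := Real.log_pos (by norm_num)
  have hℓ0 : 0 ≤ ℓ := by
    have h1 : (0 : ℝ) < S.card := by exact_mod_cast hS.card_pos
    have h2 : (S.card : ℝ) ≤ Fintype.card V := by exact_mod_cast Finset.card_le_univ S
    have := Real.log_le_log h1 h2
    linarith
  have key : ∀ t : ℕ, ∃ (q : P) (S' : Finset V), S' ⊆ S ∧ S'.Nonempty ∧ R.le q p₀ ∧
      (R.cost q : ℝ) ≤ R.cost p₀ + 34 * r * (598 - tl t / 2 ^ t) ∧
      (∀ a ∈ S', R.ρ q a ≤ r / 2 ^ t) ∧
      ((t : ℝ) + 2) * (Real.log (Fintype.card V) - Real.log S'.card) ≤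
        2 * ((t : ℝ) + 1) * (ℓ + t * Real.log 2) := by
    intro t
    induction t with
    | zero =>
      refine ⟨p₀, S, Finset.Subset.refl _, hS, R.refl p₀, ?_, ?_, ?_⟩
      · have : tl 0 = 598 := by
          unfold tl
          norm_num
        rw [this]
        simp
      · intro a ha
        rw [pow_zero, Nat.div_one]
        exact hr a ha
      · rw [← hℓ]
        simp
    | succ t ih =>
      obtain ⟨q, S₁, hsub, hne, hle, hcost, hρ, hlog⟩ := ih
      have hm4 : 4 ≤ (t + 2) ^ 2 := by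
        have := Nat.pow_le_pow_left (show 2 ≤ t + 2 by omega) 2
        simpa using this
      obtain ⟨q', S', hS', hle', hcost', hρ', hcard⟩ := hA V P R q S₁ (r / 2 ^ t) ((t + 2) ^ 2) hne
        (by omega) hρ
      have hS1pos : 0 < S₁.card := hne.card_pos
      have hm1 : 1 ≤ (t + 2) ^ 2 := Nat.one_le_pow _ _ (by omega)
      have hne' : S'.Nonempty := by
        rw [Finset.nonempty_iff_ne_empty]
        intro h0
        rw [h0, Finset.card_empty, zero_pow, mul_zero] at hcard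
        · have : 0 < S₁.card ^ ((t + 2) ^ 2) := pow_pos hS1pos _
          omega
        · omega
      refine ⟨q', S', hS'.trans hsub, hne', R.trans _ _ _ hle' hle, ?_, ?_, ?_⟩
      · have h1 : (R.cost q' : ℝ) ≤ R.cost q + 34 * (((t : ℝ) + 2) ^ 2) ^ 2 * ((r / 2 ^ t : ℕ) : ℝ) := by
          exact_mod_cast hcost'
        have h2 : ((r / 2 ^ t : ℕ) : ℝ) ≤ (r : ℝ) / 2 ^ t := by
          have := @Nat.cast_div_le ℝ _ _ _ r (2 ^ t)
          push_cast at this
          exact this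
        have h3 : 34 * (((t : ℝ) + 2) ^ 2) ^ 2 * ((r / 2 ^ t : ℕ) : ℝ) ≤
            34 * (((t : ℝ) + 2) ^ 2) ^ 2 * ((r : ℝ) / 2 ^ t) :=
          mul_le_mul_of_nonneg_left h2 (by positivity)
        have h4 : 34 * (((t : ℝ) + 2) ^ 2) ^ 2 * ((r : ℝ) / 2 ^ t) =
            34 * r * (((t : ℝ) + 2) ^ 4 / 2 ^ t) := by ring
        have h5 := tl_succ t
        have h6 : 34 * (r : ℝ) * (598 - tl (t + 1) / 2 ^ (t + 1)) =
            34 * r * (598 - tl t / 2 ^ t) + 34 * r * (((t : ℝ) + 2) ^ 4 / 2 ^ t) := by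
          rw [h5]
          ring
        rw [h6]
        linarith
      · intro a ha
        have h1 := hρ' a ha
        rw [pow_succ, ← Nat.div_div_eq_div_mul]
        omega
      · have h1 := step_log hv hS1pos hne'.card_pos hm1 hcard
        push_cast at h1
        have ht0 : (0 : ℝ) ≤ t := Nat.cast_nonneg t
        set x : ℝ := Real.log (Fintype.card V) - Real.log S₁.card with hx
        set y : ℝ := Real.log (Fintype.card V) - Real.log S'.card with hy
        -- (t+1)(t+3) y ≤ (t+2)^2 (x + log 2), (t+2) x ≤ 2 (t+1) (ℓ + t log 2)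
        have h2 : ((t : ℝ) + 2) * (x + Real.log 2) ≤ 2 * ((t : ℝ) + 1) * (ℓ + (t + 1) * Real.log 2) := by
          have h3 : ((t : ℝ) + 2) * Real.log 2 ≤ 2 * ((t : ℝ) + 1) * Real.log 2 :=
            mul_le_mul_of_nonneg_right (by linarith) hlog2.le
          calc ((t : ℝ) + 2) * (x + Real.log 2) = ((t : ℝ) + 2) * x + ((t : ℝ) + 2) * Real.log 2 := by ring
            _ ≤ 2 * ((t : ℝ) + 1) * (ℓ + t * Real.log 2) + 2 * ((t : ℝ) + 1) * Real.log 2 :=
              add_le_add hlog h3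
            _ = 2 * ((t : ℝ) + 1) * (ℓ + (t + 1) * Real.log 2) := by ring
        have h4 : ((t : ℝ) + 1) * (((t : ℝ) + 3) * y) ≤
            ((t : ℝ) + 1) * (2 * ((t : ℝ) + 2) * (ℓ + (t + 1) * Real.log 2)) := by
          calc ((t : ℝ) + 1) * (((t : ℝ) + 3) * y) = ((((t : ℝ) + 2) ^ 2) - 1) * y := by ring
            _ ≤ ((t : ℝ) + 2) ^ 2 * (x + Real.log 2) := h1
            _ = ((t : ℝ) + 2) * (((t : ℝ) + 2) * (x + Real.log 2)) := by ring
            _ ≤ ((t : ℝ) + 2) * (2 * ((t : ℝ) + 1) * (ℓ + (t + 1) * Real.log 2)) :=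
              mul_le_mul_of_nonneg_left h2 (by positivity)
            _ = ((t : ℝ) + 1) * (2 * ((t : ℝ) + 2) * (ℓ + (t + 1) * Real.log 2)) := by ring
        have h5 := le_of_mul_le_mul_left h4 (by positivity)
        push_cast
        calc ((t : ℝ) + 1 + 2) * y = ((t : ℝ) + 3) * y := by ring
          _ ≤ 2 * ((t : ℝ) + 2) * (ℓ + (t + 1) * Real.log 2) := h5
          _ = 2 * ((t : ℝ) + 1 + 1) * (ℓ + (t + 1) * Real.log 2) := by ring
  obtain ⟨q, S', hsub, hne, hle, hcost, hρ, hlog⟩ := key (Nat.log 2 r + 1)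
  set T : ℕ := Nat.log 2 r + 1 with hT
  have hrT : r < 2 ^ T := Nat.lt_pow_succ_log_self (by norm_num) r
  have hT2 : 2 ^ T ≤ 2 * (r + 1) := by
    rw [hT, pow_succ]
    rcases Nat.eq_zero_or_pos r with h | h
    · rw [h]
      simp
    · have := Nat.pow_log_le_self 2 h.ne'
      omega
  refine ⟨q, S', hsub, hle, ?_, ?_, ?_⟩
  · have h1 : (R.cost q : ℝ) ≤ R.cost p₀ + 20400 * r := by
      have h2 : 0 ≤ tl T / 2 ^ T := div_nonneg (tl_nonneg T) (by positivity)
      have h3 : 34 * (r : ℝ) * (598 - tl T / 2 ^ T) ≤ 34 * r * 598 :=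
        mul_le_mul_of_nonneg_left (by linarith) (by positivity)
      have h4 : (0 : ℝ) ≤ r := Nat.cast_nonneg r
      linarith
    exact_mod_cast h1
  · intro a ha
    have h1 := hρ a ha
    rw [Nat.div_eq_of_lt hrT] at h1
    omega
  · -- the size
    have hT0 : (0 : ℝ) ≤ T := Nat.cast_nonneg T
    have hW : 0 ≤ ℓ + T * Real.log 2 := by positivity
    have h1 : Real.log (Fintype.card V) - Real.log S'.card ≤ 2 * (ℓ + T * Real.log 2) := by
      have h2 : ((T : ℝ) + 2) * (Real.log (Fintype.card V) - Real.log S'.card) ≤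
          ((T : ℝ) + 2) * (2 * (ℓ + T * Real.log 2)) := by
        calc ((T : ℝ) + 2) * (Real.log (Fintype.card V) - Real.log S'.card)
            ≤ 2 * ((T : ℝ) + 1) * (ℓ + T * Real.log 2) := hlog
          _ ≤ 2 * ((T : ℝ) + 2) * (ℓ + T * Real.log 2) :=
            mul_le_mul_of_nonneg_right (by linarith) hW
          _ = ((T : ℝ) + 2) * (2 * (ℓ + T * Real.log 2)) := by ring
      exact le_of_mul_le_mul_left h2 (by positivity)
    have hSpos : (0 : ℝ) < S.card := by exact_mod_cast hS.card_pos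
    have hS'pos : (0 : ℝ) < S'.card := by exact_mod_cast hne.card_pos
    have hvpos : (0 : ℝ) < Fintype.card V := by exact_mod_cast hv
    have h3 : Real.log ((S.card : ℝ) ^ 2) ≤
        Real.log (((2 : ℝ) ^ T) ^ 2 * Fintype.card V * S'.card) := by
      rw [Real.log_mul (by positivity) (by positivity), Real.log_mul (by positivity) (by positivity),
        Real.log_pow, Real.log_pow, Real.log_pow]
      push_cast
      rw [hℓ] at h1
      linarith
    have h4 : (S.card : ℝ) ^ 2 ≤ ((2 : ℝ) ^ T) ^ 2 * Fintype.card V * S'.card :=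
      (Real.log_le_log_iff (by positivity) (by positivity)).1 h3
    have h5 : S.card ^ 2 ≤ (2 ^ T) ^ 2 * Fintype.card V * S'.card := by exact_mod_cast h4
    calc S.card ^ 2 ≤ (2 ^ T) ^ 2 * Fintype.card V * S'.card := h5
      _ ≤ (2 * (r + 1)) ^ 2 * Fintype.card V * S'.card :=
        Nat.mul_le_mul_right _ (Nat.mul_le_mul_right _ (Nat.pow_le_pow_left hT2 2))

end Pool.Agent.Helper55.BT.ITER
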