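import Pool.Agent.Helper55.BT.Stm

/-!
# The rank system of a bilinear map (module LIN)
-/

set_option autoImplicit false

open Finset Module

namespace Pool.Agent.Helper55.BT.LIN

open Pool.Agent.Helper55.BT

section

variable {F M N : Type} [Field F] [AddCommGroup M] [Module F M] [AddCommGroup N] [Module F N]
  [FiniteDimensional F M] [FiniteDimensional F N]

omit [FiniteDimensional F N] in
theorem rn (g : M →ₗ[F] N) (U : Submodule F M) :
    finrank F (U.map g) + finrank F (U ⊓ LinearMap.ker g : Submodule F M) = finrank F U := by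
  have h := (g.domRestrict U).finrank_range_add_finrank_ker
  rw [LinearMap.range_domRestrict] at h
  rw [← h]
  congr 1
  rw [LinearMap.ker_domRestrict, ← Submodule.map_comap_subtype, Submodule.finrank_map_subtype_eq]

theorem rk_mono {X X' W W' : Submodule F M} (hX : X ≤ X') (hW : W' ≤ W) :
    finrank F (X.map W.mkQ) ≤ finrank F (X'.map W'.mkQ) := by
  have hk : W' ≤ LinearMap.ker W.mkQ := by rw [Submodule.ker_mkQ]; exact hW
  calc finrank F (X.map W.mkQ) ≤ finrank F (X'.map W.mkQ) :=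
        Submodule.finrank_mono (Submodule.map_mono hX)
    _ = finrank F ((X'.map W'.mkQ).map (W'.liftQ W.mkQ hk)) := by
        rw [← Submodule.map_comp, Submodule.liftQ_mkQ]
    _ ≤ finrank F (X'.map W'.mkQ) := Submodule.finrank_map_le _ _

theorem rk_sup (X W : Submodule F M) :
    finrank F (X.map W.mkQ) + finrank F W = finrank F (W ⊔ X : Submodule F M) := by
  have h1 := rn W.mkQ X
  rw [Submodule.ker_mkQ] at h1
  have h2 := Submodule.finrank_sup_add_finrank_inf_eq W X
  rw [inf_comm] at h1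
  omega

omit [FiniteDimensional F N] in
theorem rk_inf (f : M →ₗ[F] N) (U : Submodule F M) (W : Submodule F N) :
    finrank F ((U.map f).map W.mkQ) + finrank F (U ⊓ W.comap f : Submodule F M) =
      finrank F U := by
  have h1 := rn (W.mkQ.comp f) U
  rw [LinearMap.ker_comp, Submodule.ker_mkQ, Submodule.map_comp] at h1
  exact h1

end

theorem main : S_LIN := by
  intro V Ω K _ _ _ _ _ _ _ _ D
  have : FiniteDimensional (ZMod 2) Ω := Module.Finite.of_finite
  have : FiniteDimensional (ZMod 2) K := Module.Finite.of_finite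
  refine ⟨{
    le := fun q p => q.1 ≤ p.1 ∧ p.2 ≤ q.2
    ρ := fun p a => finrank (ZMod 2) ((p.1.map (D a)).map p.2.mkQ)
    cmp := fun p q b => (q.1 ⊓ p.2.comap (D b), q.2 ⊔ p.1.map (D b))
    cost := fun p => (finrank (ZMod 2) Ω - finrank (ZMod 2) p.1) + finrank (ZMod 2) p.2
    Abs := fun p q c => q.1.map (D c) ≤ p.2 ∧ p.1.map (D c) ≤ q.2
    refl := fun p => ⟨le_refl _, le_refl _⟩
    trans := fun p q s h1 h2 => ⟨h1.1.trans h2.1, h2.2.trans h1.2⟩
    mono := fun p q a h => rk_mono (Submodule.map_mono h.1) h.2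
    cmp_le := fun p q b => ⟨inf_le_left, le_sup_left⟩
    cmp_mono := fun p p' q q' b h1 h2 =>
      ⟨inf_le_inf h2.1 (Submodule.comap_mono h1.2), sup_le_sup h2.2 (Submodule.map_mono h1.1)⟩
    cost_cmp := ?_
    zero := ?_
    subadd := ?_
    abs_zero := ?_
    abs_cmp := ?_
    add_le := ?_
    defect := ?_ }, fun p a => rfl, fun p => rfl⟩
  · -- cost_cmp
    intro p q b hqp
    have h1 := rk_inf (D b) q.1 p.2
    have h2 := rk_sup (p.1.map (D b)) q.2
    have h3 : finrank (ZMod 2) ((q.1.map (D b)).map p.2.mkQ) ≤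
        finrank (ZMod 2) ((p.1.map (D b)).map p.2.mkQ) := rk_mono (Submodule.map_mono hqp.1) le_rfl
    have h4 : finrank (ZMod 2) ((p.1.map (D b)).map q.2.mkQ) ≤
        finrank (ZMod 2) ((p.1.map (D b)).map p.2.mkQ) := rk_mono le_rfl hqp.2
    have h5 : finrank (ZMod 2) q.1 ≤ finrank (ZMod 2) Ω := Submodule.finrank_le _
    show (finrank (ZMod 2) Ω - finrank (ZMod 2) (q.1 ⊓ p.2.comap (D b) : Submodule (ZMod 2) Ω)) +
      finrank (ZMod 2) (q.2 ⊔ p.1.map (D b) : Submodule (ZMod 2) K) ≤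
      (finrank (ZMod 2) Ω - finrank (ZMod 2) q.1) + finrank (ZMod 2) q.2 +
        2 * finrank (ZMod 2) ((p.1.map (D b)).map p.2.mkQ)
    omega
  · -- zero
    intro p
    show finrank (ZMod 2) ((p.1.map (D 0)).map p.2.mkQ) = 0
    rw [map_zero, Submodule.map_zero, Submodule.map_bot, finrank_bot]
  · -- subadd
    intro p a b
    show finrank (ZMod 2) ((p.1.map (D (a + b))).map p.2.mkQ) ≤
      finrank (ZMod 2) ((p.1.map (D a)).map p.2.mkQ) +
        finrank (ZMod 2) ((p.1.map (D b)).map p.2.mkQ)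
    refine le_trans (Submodule.finrank_mono ?_) (Submodule.finrank_add_le_finrank_add_finrank _ _)
    rw [← Submodule.map_sup]
    refine Submodule.map_mono ?_
    rintro _ ⟨x, hx, rfl⟩
    rw [map_add, LinearMap.add_apply]
    exact Submodule.add_mem_sup ⟨x, hx, rfl⟩ ⟨x, hx, rfl⟩
  · -- abs_zero
    intro p
    show p.1.map (D 0) ≤ p.2 ∧ p.1.map (D 0) ≤ p.2
    rw [map_zero, Submodule.map_zero]
    exact ⟨bot_le, bot_le⟩
  · -- abs_cmp
    intro p q c b h
    show (q.1 ⊓ p.2.comap (D b)).map (D (c + b)) ≤ p.2 ∧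
      p.1.map (D (c + b)) ≤ q.2 ⊔ p.1.map (D b)
    constructor
    · rintro _ ⟨x, hx, rfl⟩
      rw [map_add, LinearMap.add_apply]
      exact p.2.add_mem (h.1 ⟨x, hx.1, rfl⟩) hx.2
    · rintro _ ⟨x, hx, rfl⟩
      rw [map_add, LinearMap.add_apply]
      exact Submodule.add_mem_sup (h.2 ⟨x, hx, rfl⟩) ⟨x, hx, rfl⟩
  · -- add_le
    intro p q c b hqp habs
    obtain ⟨h1, h2⟩ := habs
    set cU : Submodule (ZMod 2) (K ⧸ p.2) := (p.1.map (D c)).map p.2.mkQ with hcU
    set bU : Submodule (ZMod 2) (K ⧸ p.2) := (p.1.map (D b)).map p.2.mkQ with hbU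
    set sU : Submodule (ZMod 2) (K ⧸ p.2) := (p.1.map (D (c + b))).map p.2.mkQ with hsU
    set bU' : Submodule (ZMod 2) (K ⧸ p.2) := (q.1.map (D b)).map p.2.mkQ with hbU'
    have hk : p.2 ≤ LinearMap.ker q.2.mkQ := by rw [Submodule.ker_mkQ]; exact hqp.2
    set π : (K ⧸ p.2) →ₗ[ZMod 2] (K ⧸ q.2) := p.2.liftQ q.2.mkQ hk with hπ
    have hπc : ∀ X : Submodule (ZMod 2) K, (X.map p.2.mkQ).map π = X.map q.2.mkQ := by
      intro X
      rw [← Submodule.map_comp, hπ, Submodule.liftQ_mkQ]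
    have e1 := rn π (cU ⊔ bU')
    have e2 : finrank (ZMod 2) ((q.1.map (D b)).map q.2.mkQ) ≤
        finrank (ZMod 2) ((cU ⊔ bU').map π) := by
      rw [← hπc, ← hbU']
      exact Submodule.finrank_mono (Submodule.map_mono le_sup_right)
    have e3 : finrank (ZMod 2) cU ≤
        finrank (ZMod 2) ((cU ⊔ bU') ⊓ LinearMap.ker π : Submodule (ZMod 2) (K ⧸ p.2)) := by
      refine Submodule.finrank_mono (le_inf le_sup_left ?_)
      rintro _ ⟨y, hy, rfl⟩
      rw [LinearMap.mem_ker, hπ]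
      rw [← LinearMap.comp_apply, Submodule.liftQ_mkQ]
      have : y ∈ LinearMap.ker q.2.mkQ := by rw [Submodule.ker_mkQ]; exact h2 hy
      exact this
    have e4 : finrank (ZMod 2) ((q.1.map (D b)).map q.2.mkQ) ≤ finrank (ZMod 2) bU' := by
      rw [← hπc, ← hbU']
      exact Submodule.finrank_map_le _ _
    have e5 := Submodule.finrank_sup_add_finrank_inf_eq sU bU
    have e6 : finrank (ZMod 2) (cU ⊔ bU' : Submodule (ZMod 2) (K ⧸ p.2)) ≤
        finrank (ZMod 2) (sU ⊔ bU : Submodule (ZMod 2) (K ⧸ p.2)) := by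
      refine Submodule.finrank_mono (sup_le ?_ ?_)
      · rintro _ ⟨_, ⟨x, hx, rfl⟩, rfl⟩
        have : p.2.mkQ (D c x) = p.2.mkQ (D (c + b) x) - p.2.mkQ (D b x) := by
          rw [← map_sub, map_add, LinearMap.add_apply, add_sub_cancel_right]
        rw [this]
        exact Submodule.sub_mem _ (Submodule.mem_sup_left ⟨_, ⟨x, hx, rfl⟩, rfl⟩)
          (Submodule.mem_sup_right ⟨_, ⟨x, hx, rfl⟩, rfl⟩)
      · exact (Submodule.map_mono (Submodule.map_mono hqp.1)).trans le_sup_right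
    have e7 : finrank (ZMod 2) bU' ≤
        finrank (ZMod 2) (sU ⊓ bU : Submodule (ZMod 2) (K ⧸ p.2)) := by
      refine Submodule.finrank_mono (le_inf ?_ (Submodule.map_mono (Submodule.map_mono hqp.1)))
      rintro _ ⟨_, ⟨x, hx, rfl⟩, rfl⟩
      have hz : p.2.mkQ (D c x) = 0 := by
        have : D c x ∈ LinearMap.ker p.2.mkQ := by
          rw [Submodule.ker_mkQ]
          exact h1 ⟨x, hx, rfl⟩
        exact this
      have : p.2.mkQ (D b x) = p.2.mkQ (D (c + b) x) := by
        rw [map_add, LinearMap.add_apply, map_add, hz, zero_add]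
      rw [this]
      exact ⟨_, ⟨x, hqp.1 hx, rfl⟩, rfl⟩
    show finrank (ZMod 2) cU + 2 * finrank (ZMod 2) ((q.1.map (D b)).map q.2.mkQ) ≤
      finrank (ZMod 2) sU + finrank (ZMod 2) bU
    omega
  · -- defect
    intro p a b
    set aU : Submodule (ZMod 2) (K ⧸ p.2) := (p.1.map (D a)).map p.2.mkQ with haU
    set bU : Submodule (ZMod 2) (K ⧸ p.2) := (p.1.map (D b)).map p.2.mkQ with hbU
    set sU : Submodule (ZMod 2) (K ⧸ p.2) := (p.1.map (D (a + b))).map p.2.mkQ with hsU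
    have e1 : finrank (ZMod 2) (((p.1 ⊓ p.2.comap (D (a + b))).map (D a)).map
        (p.2 ⊔ p.1.map (D (a + b))).mkQ) ≤
        finrank (ZMod 2) (((p.1 ⊓ p.2.comap (D (a + b))).map (D a)).map p.2.mkQ) :=
      rk_mono le_rfl le_sup_left
    have e2 := Submodule.finrank_sup_add_finrank_inf_eq aU bU
    have e3 : finrank (ZMod 2) sU ≤
        finrank (ZMod 2) (aU ⊔ bU : Submodule (ZMod 2) (K ⧸ p.2)) := by
      refine Submodule.finrank_mono ?_
      rintro _ ⟨_, ⟨x, hx, rfl⟩, rfl⟩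
      rw [map_add, LinearMap.add_apply, map_add]
      exact Submodule.add_mem_sup ⟨_, ⟨x, hx, rfl⟩, rfl⟩ ⟨_, ⟨x, hx, rfl⟩, rfl⟩
    have e4 : finrank (ZMod 2) (((p.1 ⊓ p.2.comap (D (a + b))).map (D a)).map p.2.mkQ) ≤
        finrank (ZMod 2) (aU ⊓ bU : Submodule (ZMod 2) (K ⧸ p.2)) := by
      refine Submodule.finrank_mono (le_inf
        (Submodule.map_mono (Submodule.map_mono inf_le_left)) ?_)
      rintro _ ⟨_, ⟨x, hx, rfl⟩, rfl⟩
      have hz : p.2.mkQ (D (a + b) x) = 0 := by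
        have : D (a + b) x ∈ LinearMap.ker p.2.mkQ := by
          rw [Submodule.ker_mkQ]
          exact hx.2
        exact this
      have : p.2.mkQ (D a x) = -p.2.mkQ (D b x) := by
        rw [map_add, LinearMap.add_apply, map_add] at hz
        exact eq_neg_of_add_eq_zero_left hz
      rw [this]
      exact Submodule.neg_mem _ ⟨_, ⟨x, hx.1, rfl⟩, rfl⟩
    show finrank (ZMod 2) (((p.1 ⊓ p.2.comap (D (a + b))).map (D a)).map
        (p.2 ⊔ p.1.map (D (a + b))).mkQ) + finrank (ZMod 2) sU ≤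
      finrank (ZMod 2) aU + finrank (ZMod 2) bU
    omega

end Pool.Agent.Helper55.BT.LIN
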