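import Pool.Agent.Helper55.BT.Stm

/-!
# Project BT, part 2 (MP_db4732_co.BilinearTwists, helper55): central extensions

`Γ` is any group with a homomorphism `π` to `F_2^n` whose kernel is central.
-/

set_option autoImplicit false

open Finset Module

namespace Pool.Agent.Helper55.BT

/-- CEN. Central extensions of `F_2^n` are twists of abelian groups by bilinear maps.
Let `A = {p | π p = 0}` (central, hence commutative). For `p, q ∈ Γ` the commutator
`[p, q] = p * q * p⁻¹ * q⁻¹` is in `A`, depends only on `π p`, `π q`, and is multiplicative in each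
variable (`[p p', q] = [p, q] [p', q]`, as `[p', q]` is central). Let `I = π Γ` (a subspace), `ψ` a linear
projection of `F_2^n` onto `I`, `g i ∈ Γ` with `π (g i) = ψ (e i)`, and
`b x y = ∏_{i, j : j < i} [g i, g j] ^ (x i).val * (y j).val` (a biadditive map with values in `A`, as
`[g i, g j] ^ 2 = 1`). For `x = π p`, `y = π q` one has `[p, q] = ∏_{i, j} [g i, g j] ^ (x i y j)`
`= b x y * (b y x)⁻¹` (both sides only depend on `x`, `y`; `x = ψ x = ∑ x i • ψ (e i)`).
Now `K := Γ` with the new operation `p ∘ q = p * q * (b (π p) (π q))⁻¹`, which is associative (`b`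
biadditive, central values, `π (b x y) = 0`) and commutative (formula for `[p, q]`), with unit `1` and
inverse `p⁻¹ * b (π p) (π p)⁻¹ ...`. `κ = id`, `B x y = b x y`:
`p * q = (p ∘ q) * b (π p) (π q) = p ∘ q ∘ b (π p) (π q)`. -/
def S_CEN : Prop :=
  ∀ (n : ℕ) (Γ : Type) [Group Γ] (π : Γ → V n), (∀ p q, π (p * q) = π p + π q) →
    (∀ p, π p = 0 → ∀ q, p * q = q * p) →
    ∃ (K : Type) (_ : AddCommGroup K) (B : V n →+ V n →+ K) (κ : Γ → K),
      Function.Injective κ ∧ ∀ p q, κ (p * q) = κ p + κ q + B (π p) (π q)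

/-- CEN1 (first half of CEN): the biadditive map `b` with values in the central subgroup `A = ker π`. -/
def S_CEN1 : Prop :=
  ∀ (n : ℕ) (Γ : Type) [Group Γ] (π : Γ → V n), (∀ p q, π (p * q) = π p + π q) →
    (∀ p, π p = 0 → ∀ q, p * q = q * p) →
    ∃ b : V n → V n → Γ, (∀ x y, π (b x y) = 0) ∧
      (∀ x x' y, b (x + x') y = b x y * b x' y) ∧ (∀ x y y', b x (y + y') = b x y * b x y') ∧
      ∀ p q, p * q * b (π q) (π p) = q * p * b (π p) (π q)

/-- CEN2 (second half of CEN): `S_CEN1 → S_CEN`, that is, the new group structure on `Γ`. (Note: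
`p * q = q * p * [q⁻¹ ...]`: with `CEN1`, `p ∘ q = p * q * (b (π p) (π q))⁻¹` is commutative.) -/
def S_CEN2 : Prop := S_CEN1 → S_CEN

/-- HEI. The Heisenberg type group `V n × K` with `(x, k) (y, l) = (x + y, k + l + B x y)`:
associative as `B` is biadditive, unit `(0, 0)`, inverse `(-x, -k + B x x)`. `κ x k = (x, k)`. -/
def S_HEI : Prop :=
  ∀ (n : ℕ) (K : Type) [AddCommGroup K] (B : V n →+ V n →+ K),
    ∃ (Γ : Type) (_ : Group Γ) (π : Γ → V n) (κ : V n → K → Γ),
      (∀ p q, π (p * q) = π p + π q) ∧ (∀ p, π p = 0 → ∀ q, p * q = q * p) ∧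
      (∀ x k, π (κ x k) = x) ∧ (∀ x y k l, κ x k * κ y l = κ (x + y) (k + l + B x y)) ∧
      ∀ x k l, κ x k = κ x l → k = l

end Pool.Agent.Helper55.BT
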