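import Pool.Agent.Helper55.BT.Varn
import Pool.Agent.Helper55.BT.Stm2
import Pool.Agent.Helper45.AE.Lift2

/-!
# Lifts to groups with a central kernel
-/

set_option autoImplicit false

open Module

namespace Pool.Agent.Helper55.BT

open Finset hiding box
open Pool.Agent.Helper45.AE (box CornerFree corners density density_le lin lin_add pull nt sum_pull
  sum_nt card_le_four corners_le num_lift corners_mono)

variable {n : ℕ} {Γ : Type}

/-- the partial section number `i` of `P` -/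
noncomputable def sect (π : Γ → V n) (P : Finset Γ) (i : ℕ) (x : V n) : Option Γ := by
  classical
  exact if h : i < #(P.filter fun p => π p = x) then
    some ((P.filter fun p => π p = x).equivFin.symm ⟨i, h⟩ : Γ) else none

theorem sect_some {π : Γ → V n} {P : Finset Γ} {i : ℕ} {x : V n} {p : Γ}
    (h : sect π P i x = some p) : p ∈ P ∧ π p = x := by
  classical
  unfold sect at h
  split_ifs at h with h1
  simp only [Option.some.injEq] at h
  have := ((P.filter fun p => π p = x).equivFin.symm ⟨i, h1⟩).2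
  rw [h] at this
  exact mem_filter.1 this

theorem exists_sect {π : Γ → V n} {P : Finset Γ} {p : Γ} (hp : p ∈ P) :
    ∃ i < #(P.filter fun q => π q = π p), sect π P i (π p) = some p := by
  classical
  have hp' : p ∈ P.filter fun q => π q = π p := mem_filter.2 ⟨hp, rfl⟩
  refine ⟨((P.filter fun q => π q = π p).equivFin ⟨p, hp'⟩).1,
    ((P.filter fun q => π q = π p).equivFin ⟨p, hp'⟩).2, ?_⟩
  unfold sect
  rw [dif_pos ((P.filter fun q => π q = π p).equivFin ⟨p, hp'⟩).2]
  simp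

/-- the points where the sections are defined and have the right product, with `P(x, y) ≠ 0` -/
noncomputable def piece [Mul Γ] {N : ℕ} {L : Type} [Field L] (σ τ ρ : V n → Option Γ)
    (a b c : Fin N → V n → L) : Finset (V n × V n) := by
  classical
  exact univ.filter fun p => (∃ r s t, σ p.1 = some r ∧ τ p.2 = some s ∧ ρ (p.1 + p.2) = some t ∧
    r * s = t) ∧ ∑ i, a i p.1 * b i p.2 * c i (p.1 + p.2) ≠ 0

theorem twisted_piece (hCEN : S_CEN) {N : ℕ} [Group Γ] (π : Γ → V n)
    (hπ : ∀ p q, π (p * q) = π p + π q) (hcen : ∀ p, π p = 0 → ∀ q, p * q = q * p)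
    (σ τ ρ : V n → Option Γ) (hσ : ∀ x p, σ x = some p → π p = x)
    (hτ : ∀ x p, τ x = some p → π p = x)
    (L : Type) [Field L] [CharP L 2] (a b c : Fin N → V n → L) :
    Twisted N (piece σ τ ρ a b c) := by
  classical
  obtain ⟨K, _, B, κ, hκi, hκ⟩ := hCEN n Γ π hπ hcen
  refine ⟨K, inferInstance, fun x => (σ x).elim 0 κ, fun y => (τ y).elim 0 κ,
    fun w => (ρ w).elim 0 fun r => -κ r, -B, L, inferInstance, inferInstance,
    fun i x => (σ x).elim 0 fun _ => a i x, fun i y => (τ y).elim 0 fun _ => b i y,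
    fun i w => (ρ w).elim 0 fun _ => c i w, fun x y => ?_⟩
  simp only [piece, mem_filter, mem_univ, true_and]
  rcases h1 : σ x with _ | r
  · simp
  rcases h2 : τ y with _ | s
  · simp
  rcases h3 : ρ (x + y) with _ | t
  · simp
  simp only [Option.some.injEq, Option.elim_some]
  refine and_congr ?_ Iff.rfl
  have h4 := hκ r s
  rw [hσ x r h1, hτ y s h2] at h4
  have h5 : κ r + κ s + -κ t = (-B) x y ↔ κ (r * s) = κ t := by
    rw [h4, AddMonoidHom.neg_apply, AddMonoidHom.neg_apply, ← sub_eq_zero,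
      ← sub_eq_zero (a := κ r + κ s + B x y)]
    have : κ r + κ s + -κ t - -B x y = κ r + κ s + B x y - κ t := by abel
    rw [this]
  rw [h5]
  constructor
  · rintro ⟨r', s', t', rfl, rfl, rfl, h⟩
    rw [h]
  · intro h
    exact ⟨r, s, t, rfl, rfl, rfl, hκi h⟩

/-- few elements have a large fibre -/
theorem few_large (π : Γ → V n) (P : Finset Γ) (m : ℕ) :
    #(univ.filter fun x : V n => m < #(P.filter fun p => π p = x)) * m ≤ #P := by
  classical
  have h1 : #P = ∑ x : V n, #(P.filter fun p => π p = x) :=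
    Finset.card_eq_sum_card_fiberwise fun _ _ => mem_coe.2 (mem_univ _)
  rw [h1]
  calc #(univ.filter fun x : V n => m < #(P.filter fun p => π p = x)) * m
      = ∑ _x ∈ univ.filter (fun x : V n => m < #(P.filter fun p => π p = x)), m := by
        rw [Finset.sum_const, smul_eq_mul]
    _ ≤ ∑ x ∈ univ.filter (fun x : V n => m < #(P.filter fun p => π p = x)),
          #(P.filter fun p => π p = x) :=
        Finset.sum_le_sum fun x hx => (mem_filter.1 hx).2.le
    _ ≤ _ := Finset.sum_le_sum_of_subset (Finset.filter_subset _ _)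

/-- **Lifts.** -/
theorem twisted_in_lift (hCEN : S_CEN) {N : ℕ} {Γ : Type} [Group Γ] (π : Γ → V n)
    (hπ : ∀ p q, π (p * q) = π p + π q) (hcen : ∀ p, π p = 0 → ∀ q, p * q = q * p)
    (P Q R : Finset Γ) (L : Type) [Field L] [CharP L 2] (a b c : Fin N → V n → L)
    (A : Finset (V n × V n)) (M : ℝ) (hM : 1 ≤ M)
    (hP : (#P : ℝ) ≤ M * 2 ^ n) (hQ : (#Q : ℝ) ≤ M * 2 ^ n) (hR : (#R : ℝ) ≤ M * 2 ^ n)
    (hA : ∀ x y, (x, y) ∈ A ↔ (∃ p ∈ P, ∃ q ∈ Q, p * q ∈ R ∧ π p = x ∧ π q = y) ∧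
      ∑ i, a i x * b i y * c i (x + y) ≠ 0) :
    ∃ E : Finset (V n × V n), Twisted N E ∧ E ⊆ A ∧ (density A / (2 * M)) ^ 13 ≤ density E := by
  classical
  rcases A.eq_empty_or_nonempty with h0 | hne
  · refine ⟨∅, ⟨ℤ, inferInstance, fun _ => 1, fun _ => 0, fun _ => 0, 0, ZMod 2, inferInstance,
        inferInstance, fun _ _ => 0, fun _ _ => 0, fun _ _ => 0, fun x y => ?_⟩,
      Finset.empty_subset _, ?_⟩
    · simp
    · rw [h0]
      simp [density]
  have hM0 : 0 < M := by linarith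
  have hA0 : (0 : ℝ) < #A := by exact_mod_cast hne.card_pos
  have h4n : (0 : ℝ) < 4 ^ n := by positivity
  set δ := density A with hδ
  have hAδ : (#A : ℝ) = δ * 4 ^ n := by rw [hδ]; unfold density; field_simp
  have hδ0 : 0 < δ := by rw [hδ]; unfold density; positivity
  have hδ1 : δ ≤ 1 := density_le A
  set t : ℝ := 6 * M / δ with ht
  have ht1 : 1 ≤ t := by
    rw [ht, le_div_iff₀ hδ0]
    linarith
  set m : ℕ := ⌈t⌉₊ with hm
  have hm1 : t ≤ m := Nat.le_ceil t
  have hm2 : (m : ℝ) ≤ 2 * t := by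
    have := (Nat.ceil_lt_add_one (by linarith : 0 ≤ t)).le
    linarith
  have hm0 : (0 : ℝ) < m := by linarith
  -- the bad lines
  have key : ∀ (S : Finset Γ), (#S : ℝ) ≤ M * 2 ^ n →
      (#(univ.filter fun x : V n => m < #(S.filter fun p => π p = x)) : ℝ) * 2 ^ n ≤
        δ / 6 * 4 ^ n := by
    intro S hS
    have h1 : ((#(univ.filter fun x : V n => m < #(S.filter fun p => π p = x)) : ℕ) : ℝ) * m ≤ #S := by
      exact_mod_cast few_large π S m
    have h2 : (#(univ.filter fun x : V n => m < #(S.filter fun p => π p = x)) : ℝ) * t ≤ M * 2 ^ n := by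
      calc (#(univ.filter fun x : V n => m < #(S.filter fun p => π p = x)) : ℝ) * t
          ≤ (#(univ.filter fun x : V n => m < #(S.filter fun p => π p = x)) : ℝ) * m :=
            mul_le_mul_of_nonneg_left hm1 (Nat.cast_nonneg _)
        _ ≤ _ := h1.trans hS
    have e4 : (4 : ℝ) ^ n = 2 ^ n * 2 ^ n := by rw [← mul_pow]; norm_num
    have h2n : (0 : ℝ) < 2 ^ n := by positivity
    set b : ℝ := (#(univ.filter fun x : V n => m < #(S.filter fun p => π p = x)) : ℝ) with hb
    have h3 : b ≤ δ / 6 * 2 ^ n := by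
      have h5 : b * (6 * M) ≤ M * 2 ^ n * δ := by
        have := mul_le_mul_of_nonneg_right h2 hδ0.le
        rw [ht] at this
        have e : b * (6 * M / δ) * δ = b * (6 * M) := by field_simp
        rw [e] at this
        exact this
      have h6 : b * 6 ≤ 2 ^ n * δ := by
        refine le_of_mul_le_mul_right ?_ hM0
        calc b * 6 * M = b * (6 * M) := by ring
          _ ≤ _ := h5
          _ = 2 ^ n * δ * M := by ring
      linarith
    rw [e4]
    calc b * 2 ^ n ≤ δ / 6 * 2 ^ n * 2 ^ n := mul_le_mul_of_nonneg_right h3 h2n.le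
      _ = _ := by ring
  set XP := univ.filter fun x : V n => m < #(P.filter fun p => π p = x) with hXP
  set XQ := univ.filter fun x : V n => m < #(Q.filter fun p => π p = x) with hXQ
  set XR := univ.filter fun x : V n => m < #(R.filter fun p => π p = x) with hXR
  set I := range m ×ˢ range m ×ˢ range m with hI
  set pc : ℕ × ℕ × ℕ → Finset (V n × V n) := fun i =>
    piece (sect π P i.1) (sect π Q i.2.1) (sect π R i.2.2) a b c with hpc
  have hcov : A ⊆ ((XP ×ˢ (univ : Finset (V n))) ∪ ((univ : Finset (V n)) ×ˢ XQ)) ∪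
      ((((univ : Finset (V n)) ×ˢ XR).image fun q => (q.1, q.2 + q.1)) ∪ I.biUnion pc) := by
    intro w ha
    obtain ⟨⟨p, hp, q, hq, hr, h1, h2⟩, hne0⟩ := (hA w.1 w.2).1 ha
    by_cases g1 : w.1 ∈ XP
    · exact mem_union_left _ (mem_union_left _ (mem_product.2 ⟨g1, mem_univ _⟩))
    by_cases g2 : w.2 ∈ XQ
    · exact mem_union_left _ (mem_union_right _ (mem_product.2 ⟨mem_univ _, g2⟩))
    by_cases g3 : w.1 + w.2 ∈ XR
    · refine mem_union_right _ (mem_union_left _ (mem_image.2 ⟨(w.1, w.1 + w.2),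
        mem_product.2 ⟨mem_univ _, g3⟩, ?_⟩))
      refine Prod.ext rfl ?_
      show w.1 + w.2 + w.1 = w.2
      have := Split.add_self_V w.1
      calc w.1 + w.2 + w.1 = (w.1 + w.1) + w.2 := by abel
        _ = w.2 := by rw [this, zero_add]
    refine mem_union_right _ (mem_union_right _ ?_)
    obtain ⟨i, hi, hi'⟩ := exists_sect (π := π) hp
    obtain ⟨j, hj, hj'⟩ := exists_sect (π := π) hq
    obtain ⟨k, hk, hk'⟩ := exists_sect (π := π) hr
    rw [hπ] at hk hk'
    rw [h1] at hi hi' hk hk'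
    rw [h2] at hj hj' hk hk'
    simp only [hXP, hXQ, hXR, mem_filter, mem_univ, true_and, not_lt] at g1 g2 g3
    refine mem_biUnion.2 ⟨(i, j, k), ?_, ?_⟩
    · simp only [hI, mem_product, mem_range]
      exact ⟨hi.trans_le g1, hj.trans_le g2, hk.trans_le g3⟩
    · simp only [hpc, piece, mem_filter, mem_univ, true_and]
      exact ⟨⟨p, q, p * q, hi', hj', hk', rfl⟩, hne0⟩
  have hsub : ∀ i, pc i ⊆ A := by
    intro i w ha
    simp only [hpc, piece, mem_filter, mem_univ, true_and] at ha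
    obtain ⟨⟨p, q, r, h1, h2, h3, h4⟩, hne0⟩ := ha
    refine (hA w.1 w.2).2 ⟨⟨p, (sect_some h1).1, q, (sect_some h2).1, ?_, (sect_some h1).2,
      (sect_some h2).2⟩, hne0⟩
    rw [h4]
    exact (sect_some h3).1
  have hsum : (#A : ℝ) ≤ (#XP * 2 ^ n + 2 ^ n * #XQ) + (2 ^ n * #XR + ∑ i ∈ I, (#(pc i) : ℝ)) := by
    have h1 := Finset.card_le_card hcov
    have h2 := h1.trans (Finset.card_union_le _ _)
    have h3 := Finset.card_union_le (XP ×ˢ (univ : Finset (V n))) ((univ : Finset (V n)) ×ˢ XQ)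
    have h4 := Finset.card_union_le (((univ : Finset (V n)) ×ˢ XR).image fun q => (q.1, q.2 + q.1))
      (I.biUnion pc)
    have h5 : #(((univ : Finset (V n)) ×ˢ XR).image fun q => (q.1, q.2 + q.1)) ≤ 2 ^ n * #XR := by
      refine Finset.card_image_le.trans (le_of_eq ?_)
      rw [Finset.card_product, Finset.card_univ, card_V']
    rw [Finset.card_product, Finset.card_product, Finset.card_univ, card_V'] at h3
    have h6 : #(I.biUnion pc) ≤ ∑ i ∈ I, #(pc i) := Finset.card_biUnion_le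
    have h8 : #A ≤ (#XP * 2 ^ n + 2 ^ n * #XQ) + (2 ^ n * #XR + ∑ i ∈ I, #(pc i)) := by omega
    exact_mod_cast h8
  have k1 := key P hP
  have k2 := key Q hQ
  have k3 := key R hR
  have hhalf : δ / 2 * 4 ^ n ≤ ∑ i ∈ I, (#(pc i) : ℝ) := by
    rw [hAδ] at hsum
    have e1 : (2 : ℝ) ^ n * #XQ = #XQ * 2 ^ n := mul_comm _ _
    have e2 : (2 : ℝ) ^ n * #XR = #XR * 2 ^ n := mul_comm _ _
    rw [e1, e2] at hsum
    linarith
  have hIne : I.Nonempty := by
    have hm3 : 0 < m := by exact_mod_cast hm0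
    exact ⟨(0, 0, 0), by simp only [hI, mem_product, mem_range]; exact ⟨hm3, hm3, hm3⟩⟩
  have hIc : (#I : ℝ) = m ^ 3 := by
    rw [hI, Finset.card_product, Finset.card_product, Finset.card_range]
    push_cast; ring
  obtain ⟨i, hi, hmax⟩ := Finset.exists_max_image I (fun i => (#(pc i) : ℝ)) hIne
  refine ⟨pc i, twisted_piece hCEN π hπ hcen _ _ _ (fun x p h => (sect_some h).2)
    (fun x p h => (sect_some h).2) L a b c, hsub i, ?_⟩
  have h1 : δ / 2 * 4 ^ n ≤ m ^ 3 * #(pc i) := by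
    calc δ / 2 * 4 ^ n ≤ ∑ i ∈ I, (#(pc i) : ℝ) := hhalf
      _ ≤ ∑ _j ∈ I, (#(pc i) : ℝ) := Finset.sum_le_sum hmax
      _ = m ^ 3 * #(pc i) := by rw [Finset.sum_const, nsmul_eq_mul, hIc]
  refine (num_lift δ M t m hδ0 hδ1 hM ht hm2 hm0).trans ?_
  unfold density
  rw [div_le_div_iff₀ (by positivity) h4n]
  linarith

/-- sets obtained from lifts to groups with a central kernel -/
def CentralLift {n : ℕ} (M : ℝ) (N : ℕ) (E : Finset (V n × V n)) : Prop :=
  ∃ (Γ : Type) (_ : Group Γ) (π : Γ → V n) (P Q R : Finset Γ)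
    (L : Type) (_ : Field L) (_ : CharP L 2) (a b c : Fin N → V n → L),
    (∀ p q, π (p * q) = π p + π q) ∧ (∀ p, π p = 0 → ∀ q, p * q = q * p) ∧
    (#P : ℝ) ≤ M * 2 ^ n ∧ (#Q : ℝ) ≤ M * 2 ^ n ∧ (#R : ℝ) ≤ M * 2 ^ n ∧
      ∀ x y, (x, y) ∈ E ↔ (∃ p ∈ P, ∃ q ∈ Q, p * q ∈ R ∧ π p = x ∧ π q = y) ∧
        ∑ i, a i x * b i y * c i (x + y) ≠ 0

theorem num_C' (δ M : ℝ) (N : ℕ) (hδ : 0 ≤ δ) (hδ1 : δ ≤ 1) (hM : 1 ≤ M) (hN : 1 ≤ N) (k : ℕ) :
    (δ / (2 * (M * N))) ^ (14 * k) ≤ ((δ / (2 * M)) ^ 13 / (2 * N)) ^ k := by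
  have hN1 : (1 : ℝ) ≤ N := by exact_mod_cast hN
  have hM0 : 0 < M := by linarith
  have hN0 : (0 : ℝ) < N := by linarith
  rw [pow_mul]
  refine pow_le_pow_left₀ (by positivity) ?_ k
  have h1 : δ / (2 * (M * N)) ≤ δ / (2 * M) := by
    refine div_le_div_of_nonneg_left hδ (by positivity) ?_
    nlinarith
  have h2 : δ / (2 * (M * N)) ≤ 1 / (2 * N) := by
    rw [div_le_div_iff₀ (by positivity) (by positivity)]
    nlinarith
  calc (δ / (2 * (M * N))) ^ 14 = (δ / (2 * (M * N))) ^ 13 * (δ / (2 * (M * N))) := by ring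
    _ ≤ (δ / (2 * M)) ^ 13 * (1 / (2 * N)) :=
      mul_le_mul (pow_le_pow_left₀ (by positivity) h1 13) h2 (by positivity) (by positivity)
    _ = (δ / (2 * M)) ^ 13 / (2 * N) := by ring

theorem lift_corners (hCEN : S_CEN) {C N : ℕ} (hN : 1 ≤ N)
    (hm : ∀ E : Finset (V n × V n), Twisted N E →
      (density E / (2 * N)) ^ C * 8 ^ n ≤ corners E)
    (E : Finset (V n × V n)) (M : ℝ) (hM : 1 ≤ M) (hE : CentralLift M N E) :
    (density E / (2 * (M * N))) ^ (14 * C) * 8 ^ n ≤ corners E := by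
  obtain ⟨Γ, _, π, P, Q, R, L, _, _, a, b, c, hπ, hcen, hP, hQ, hR, h⟩ := hE
  obtain ⟨E', hE', hsub, hd⟩ := twisted_in_lift hCEN π hπ hcen P Q R L a b c E M hM hP hQ hR h
  have h1 := hm E' hE'
  have h2 : (corners E' : ℝ) ≤ corners E := by exact_mod_cast corners_mono hsub
  refine le_trans (mul_le_mul_of_nonneg_right ?_ (by positivity)) (h1.trans h2)
  have hd0 : 0 ≤ density E := by unfold density; positivity
  have hM0 : 0 < M := by linarith
  have hN0 : (0 : ℝ) < N := by exact_mod_cast (by omega : 0 < N)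
  refine (num_C' (density E) M N hd0 (density_le E) hM hN C).trans ?_
  refine pow_le_pow_left₀ (by positivity) ?_ C
  exact div_le_div_of_nonneg_right hd (by positivity)

/-- solution sets of twisted additive equations are central lifts -/
theorem centralLift_of_twisted (hHEI : S_HEI) {N : ℕ} (E : Finset (V n × V n))
    (hE : Twisted N E) : CentralLift 1 N E := by
  classical
  obtain ⟨K, _, F, G, H, B, L, _, _, a, b, c, h⟩ := hE
  obtain ⟨Γ, _, π, κ, hπ, hcen, hπκ, hκ, hκi⟩ := hHEI n K (-B)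
  have hc : ∀ f : V n → Γ, (#((univ : Finset (V n)).image f) : ℝ) ≤ 1 * 2 ^ n := by
    intro f
    have : #((univ : Finset (V n)).image f) ≤ 2 ^ n := by
      refine Finset.card_image_le.trans (le_of_eq ?_)
      rw [Finset.card_univ, card_V']
    rw [one_mul]
    exact_mod_cast this
  refine ⟨Γ, inferInstance, π, univ.image fun x => κ x (F x), univ.image fun y => κ y (G y),
    univ.image fun w => κ w (-H w), L, inferInstance, inferInstance, a, b, c, hπ, hcen, hc _, hc _,
    hc _, fun x y => ?_⟩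
  rw [h]
  refine and_congr ?_ Iff.rfl
  constructor
  · intro h1
    refine ⟨κ x (F x), mem_image_of_mem _ (mem_univ _), κ y (G y), mem_image_of_mem _ (mem_univ _),
      mem_image.2 ⟨x + y, mem_univ _, ?_⟩, hπκ _ _, hπκ _ _⟩
    rw [hκ, AddMonoidHom.neg_apply, AddMonoidHom.neg_apply, ← h1]
    congr 1
    abel
  · rintro ⟨p, hp, q, hq, hr, h1, h2⟩
    obtain ⟨x', -, rfl⟩ := mem_image.1 hp
    obtain ⟨y', -, rfl⟩ := mem_image.1 hq
    obtain ⟨w, -, hw⟩ := mem_image.1 hr
    rw [hπκ] at h1 h2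
    subst h1 h2
    have h3 := congrArg π hw
    rw [hπ, hπκ, hπκ, hπκ] at h3
    subst h3
    rw [hκ] at hw
    have h4 := hκi _ _ _ hw
    rw [AddMonoidHom.neg_apply, AddMonoidHom.neg_apply] at h4
    have h5 : F x' + G y' + H (x' + y') - B x' y' = (F x' + G y' + -B x' y') - (-H (x' + y')) := by
      abel
    rw [← sub_eq_zero, h5, h4, sub_self]

/-- lifts to abelian groups -/
theorem centralLift_of_lifted {M : ℝ} (E : Finset (V n × V n))
    (hE : Pool.Agent.Helper45.AE.IsLifted M E) : CentralLift M 1 E := by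
  classical
  obtain ⟨B, _, π, P, Q, R, hP, hQ, hR, h⟩ := hE
  have hc : ∀ S : Finset B, #(S.map Multiplicative.ofAdd.toEmbedding) = #S :=
    fun S => Finset.card_map _
  refine ⟨Multiplicative B, inferInstance, fun p => π (Multiplicative.toAdd p),
    P.map Multiplicative.ofAdd.toEmbedding, Q.map Multiplicative.ofAdd.toEmbedding,
    R.map Multiplicative.ofAdd.toEmbedding, ZMod 2, inferInstance, inferInstance,
    fun _ _ => 1, fun _ _ => 1, fun _ _ => 1, fun p q => ?_, fun p _ q => mul_comm p q,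
    by rw [hc]; exact hP, by rw [hc]; exact hQ, by rw [hc]; exact hR, fun x y => ?_⟩
  · show π (Multiplicative.toAdd (p * q)) = _
    rw [toAdd_mul, map_add]
  · rw [h]
    have h1 : (∑ _i : Fin 1, (1 : ZMod 2) * 1 * 1) ≠ 0 := by simp
    simp only [h1, ne_eq, not_false_eq_true, and_true]
    constructor
    · rintro ⟨p, hp, q, hq, hr, h1, h2⟩
      refine ⟨Multiplicative.ofAdd p, mem_map_of_mem _ hp, Multiplicative.ofAdd q,
        mem_map_of_mem _ hq, ?_, h1, h2⟩
      exact mem_map_of_mem Multiplicative.ofAdd.toEmbedding hr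
    · rintro ⟨p', hp, q', hq, hr, h1, h2⟩
      obtain ⟨p, kp, rfl⟩ := mem_map.1 hp
      obtain ⟨q, kq, rfl⟩ := mem_map.1 hq
      obtain ⟨r, kr, hr'⟩ := mem_map.1 hr
      refine ⟨p, kp, q, kq, ?_, h1, h2⟩
      have : r = p + q := hr'
      rw [← this]
      exact kr

end Pool.Agent.Helper55.BT
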