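import Pool.Agent.Helper55.BT.Stm

/-!
# Project BT (helper55, MP_db4732_co), module RK (helper26)

The matrix `[β x y = κ]` over `F_2` has rank at most `∑_{i ≤ w} C(n, i)`.
-/

set_option autoImplicit false

open Finset Module

namespace Pool.Agent.Helper55.BT.RK

open Pool.Agent.Helper55.BT

/-- idempotency of the elements of `F_2` -/
theorem z2_mul_self (a : ZMod 2) : a * a = a := by
  revert a; decide

/-- multiplying a monomial by a variable -/
theorem mono_mul {n : ℕ} (S : Finset (Fin n)) (k : Fin n) (y : V n) :
    (∏ l ∈ S, y l) * y k = ∏ l ∈ insert k S, y l := by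
  by_cases hk : k ∈ S
  · rw [insert_eq_of_mem hk, ← Finset.mul_prod_erase S (fun l => y l) hk]
    rw [mul_comm (y k), mul_assoc, z2_mul_self]
  · rw [Finset.prod_insert hk, mul_comm]

/-- a product of `s.card` affine forms is a combination of multilinear monomials of degree at most
`s.card` -/
theorem prod_expand {n : ℕ} {ι : Type} [DecidableEq ι] (a : ι → ZMod 2) (b : ι → Fin n → ZMod 2)
    (s : Finset ι) :
    ∃ c : Finset (Fin n) → ZMod 2, (∀ S, s.card < S.card → c S = 0) ∧
      ∀ y : V n, ∏ i ∈ s, (a i + ∑ k, b i k * y k) = ∑ S, c S * ∏ l ∈ S, y l := by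
  classical
  induction s using Finset.induction_on with
  | empty =>
    refine ⟨fun S => if S = ∅ then 1 else 0, ?_, ?_⟩
    · intro S hS
      have : S ≠ ∅ := by
        rintro rfl
        simp at hS
      simp [this]
    · intro y
      simp
  | insert i s hi ih =>
    obtain ⟨c, hc0, hc⟩ := ih
    refine ⟨fun T => a i * c T + ∑ S, ∑ k, if insert k S = T then c S * b i k else 0, ?_, ?_⟩
    · intro T hT
      rw [Finset.card_insert_of_notMem hi] at hT
      have h1 : c T = 0 := hc0 T (by omega)
      have h2 : ∀ S : Finset (Fin n), ∀ k : Fin n,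
          (if insert k S = T then c S * b i k else 0) = 0 := by
        intro S k
        split_ifs with h
        · have h3 : T.card ≤ S.card + 1 := by
            rw [← h]; exact Finset.card_insert_le k S
          rw [hc0 S (by omega), zero_mul]
        · rfl
      simp only [h1, mul_zero, h2, Finset.sum_const_zero, add_zero]
    · intro y
      rw [Finset.prod_insert hi, hc y]
      have e1 : ∀ T : Finset (Fin n), (a i * c T + ∑ S, ∑ k, if insert k S = T then c S * b i k
          else 0) * ∏ l ∈ T, y l = a i * (c T * ∏ l ∈ T, y l) +
          ∑ S, ∑ k, (if insert k S = T then c S * b i k * ∏ l ∈ T, y l else 0) := by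
        intro T
        rw [add_mul, Finset.sum_mul, mul_assoc]
        congr 1
        refine Finset.sum_congr rfl fun S _ => ?_
        rw [Finset.sum_mul]
        refine Finset.sum_congr rfl fun k _ => ?_
        split_ifs <;> simp
      rw [Finset.sum_congr rfl fun T _ => e1 T, Finset.sum_add_distrib, ← Finset.mul_sum, add_mul]
      congr 1
      rw [Finset.sum_comm]
      have e2 : ∀ S : Finset (Fin n), ∑ T : Finset (Fin n), ∑ k : Fin n,
          (if insert k S = T then c S * b i k * ∏ l ∈ T, y l else 0)
          = (∑ k, b i k * y k) * (c S * ∏ l ∈ S, y l) := by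
        intro S
        rw [Finset.sum_comm, Finset.sum_mul]
        refine Finset.sum_congr rfl fun k _ => ?_
        rw [Finset.sum_ite_eq Finset.univ (insert k S) (fun T => c S * b i k * ∏ l ∈ T, y l)]
        simp only [Finset.mem_univ, if_true]
        rw [← mono_mul S k y]
        ring
      rw [Finset.sum_congr rfl fun S _ => e2 S, ← Finset.mul_sum]

/-- number of the subsets of size at most `w` -/
theorem card_small (n w : ℕ) :
    Fintype.card {S : Finset (Fin n) // S.card ≤ w} = ∑ i ∈ range (w + 1), n.choose i := by
  classical
  rw [Fintype.card_subtype]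
  rw [Finset.card_eq_sum_card_fiberwise (f := fun S : Finset (Fin n) => S.card)
    (t := range (w + 1))]
  · refine Finset.sum_congr rfl fun i hi => ?_
    have hi' : i ≤ w := by
      have := Finset.mem_range.mp hi
      omega
    have e : (Finset.univ.filter (fun S : Finset (Fin n) => S.card ≤ w)).filter
        (fun S => S.card = i) = Finset.powersetCard i Finset.univ := by
      ext S
      simp only [Finset.mem_filter, Finset.mem_univ, true_and, Finset.mem_powersetCard,
        Finset.subset_univ]
      constructor
      · rintro ⟨_, h⟩; exact h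
      · intro h; exact ⟨by omega, h⟩
    rw [e, Finset.card_powersetCard, Finset.card_univ, Fintype.card_fin]
  · intro S hS
    simp only [Finset.coe_filter, Finset.mem_univ, true_and, Set.mem_ofPred_eq] at hS
    simp only [Finset.coe_range, Set.mem_Iio]
    omega

theorem main : S_RK := by
  classical
  intro n w β κ
  have hy : ∀ y : V n, y = ∑ k, y k • (Pi.single k (1 : ZMod 2) : V n) := by
    intro y
    ext j
    simp [Finset.sum_apply, Pi.single_apply]
  have hz : ∀ (z : ZMod 2) (x : V n) (k : Fin n) (i : Fin w),
      β x (z • (Pi.single k (1 : ZMod 2) : V n)) i = β x (Pi.single k 1) i * z := by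
    intro z x k i
    have hz01 : z = 0 ∨ z = 1 := by
      revert z; decide
    rcases hz01 with rfl | rfl
    · rw [zero_smul, map_zero, mul_zero]; rfl
    · rw [one_smul, mul_one]
  have hβ : ∀ (x y : V n) (i : Fin w), β x y i = ∑ k, β x (Pi.single k 1) i * y k := by
    intro x y i
    conv_lhs => rw [hy y]
    rw [map_sum, Finset.sum_apply]
    exact Finset.sum_congr rfl fun k _ => hz (y k) x k i
  choose c hc0 hc using fun x : V n => prod_expand (n := n) (fun i : Fin w => 1 + κ i)
    (fun i k => β x (Pi.single k 1) i) Finset.univ
  have hmain : ∀ x y : V n, (if β x y = κ then (1 : ZMod 2) else 0)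
      = ∑ S : Finset (Fin n), c x S * ∏ l ∈ S, y l := by
    intro x y
    rw [← hc x y]
    have h1 : ∀ i : Fin w, (1 + κ i + ∑ k, β x (Pi.single k 1) i * y k)
        = if β x y i = κ i then 1 else 0 := by
      intro i
      rw [← hβ x y i]
      generalize β x y i = p
      generalize κ i = q
      revert p q
      decide
    rw [Finset.prod_congr rfl fun i _ => h1 i]
    by_cases h : β x y = κ
    · rw [if_pos h]
      symm
      refine Finset.prod_eq_one fun i _ => ?_
      rw [if_pos (congrFun h i)]
    · rw [if_neg h]
      symm
      obtain ⟨i, hi⟩ := Function.ne_iff.mp h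
      exact Finset.prod_eq_zero (Finset.mem_univ i) (if_neg hi)
  let e : Fin (∑ i ∈ range (w + 1), n.choose i) ≃ {S : Finset (Fin n) // S.card ≤ w} :=
    (Fintype.equivFinOfCardEq (card_small n w)).symm
  refine ⟨fun j x => c x (e j).1, fun j y => ∏ l ∈ (e j).1, y l, ?_⟩
  intro x y
  rw [hmain x y]
  rw [Equiv.sum_comp e (fun S => c x S.1 * ∏ l ∈ S.1, y l)]
  rw [← Finset.sum_subtype (Finset.univ.filter (fun S : Finset (Fin n) => S.card ≤ w))
    (fun S => by simp) (fun S => c x S * ∏ l ∈ S, y l)]
  symm
  refine Finset.sum_subset (Finset.filter_subset _ _) fun S _ hS => ?_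
  have : w < S.card := by
    simpa using hS
  rw [hc0 x S (by simpa using this), zero_mul]

end Pool.Agent.Helper55.BT.RK
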