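import Pool.Agent.Helper55.BT.Stm

/-!
# Module SLICE: a biased biadditive map vanishes modulo a small subgroup on a large subspace (helper15)
-/

set_option autoImplicit false

open Finset Module

namespace Pool.Agent.Helper55.BT.SLICE

/-- the elements of order at most two -/
def T2 (K : Type) [AddCommGroup K] : AddSubgroup K where
  carrier := {k | k + k = 0}
  zero_mem' := add_zero 0
  add_mem' := by
    intro a b ha hb
    have ha' : a + a = 0 := ha
    have hb' : b + b = 0 := hb
    change a + b + (a + b) = 0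
    calc a + b + (a + b) = (a + a) + (b + b) := by abel
      _ = 0 := by rw [ha', hb', add_zero]
  neg_mem' := by
    intro a ha
    have ha' : a + a = 0 := ha
    change -a + -a = 0
    rw [← neg_add, ha', neg_zero]

instance (K : Type) [AddCommGroup K] : Module (ZMod 2) (T2 K) :=
  AddCommGroup.zmodModule (n := 2) (fun x => by
    apply Subtype.ext
    rw [two_nsmul]
    exact x.2)

theorem natcard_pow {M : Type} [AddCommGroup M] [Module (ZMod 2) M] [Finite M] :
    Nat.card M = 2 ^ finrank (ZMod 2) M := by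
  have := Module.natCard_eq_pow_finrank (K := ZMod 2) (V := M)
  rwa [Nat.card_zmod] at this

theorem main (hI : S_ITER) (hL : S_LIN) : S_SLICE := by
  refine ⟨20406, ?_⟩
  intro n K _ D ε hε hε1 hD
  classical
  have h2V : ∀ x : V n, x + x = 0 := fun x => by ext i; exact CharTwo.add_self_eq_zero _
  have hDT : ∀ x y, D x y ∈ T2 K := by
    intro x y
    change D x y + D x y = 0
    rw [← map_add, h2V, map_zero]
  let D' : V n →ₗ[ZMod 2] V n →ₗ[ZMod 2] T2 K := LinearMap.mk₂ (ZMod 2)
    (fun x y => ⟨D x y, hDT x y⟩)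
    (fun x x' y => by
      apply Subtype.ext
      change D (x + x') y = D x y + D x' y
      rw [map_add]; rfl)
    (fun c x y => by
      let f : V n →+ T2 K :=
        { toFun := fun x => ⟨D x y, hDT x y⟩
          map_zero' := by apply Subtype.ext; change D 0 y = 0; rw [map_zero]; rfl
          map_add' := by
            intro a b
            apply Subtype.ext
            change D (a + b) y = D a y + D b y
            rw [map_add]; rfl }
      exact ZMod.map_smul f c x)
    (fun x y y' => by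
      apply Subtype.ext
      change D x (y + y') = D x y + D x y'
      rw [map_add])
    (fun c x y => by
      let f : V n →+ T2 K :=
        { toFun := fun y => ⟨D x y, hDT x y⟩
          map_zero' := by apply Subtype.ext; change D x 0 = 0; rw [map_zero]
          map_add' := by
            intro a b
            apply Subtype.ext
            change D x (a + b) = D x a + D x b
            rw [map_add] }
      exact ZMod.map_smul f c y)
  have hD' : ∀ x y, ((D' x y : T2 K) : K) = D x y := fun x y => rfl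
  let K₂ : Submodule (ZMod 2) (T2 K) :=
    Submodule.span (ZMod 2) (Set.range fun p : V n × V n => D' p.1 p.2)
  have i1 : Module.Finite (ZMod 2) K₂ := FiniteDimensional.span_of_finite _ (Set.finite_range _)
  have i2 : Finite K₂ := Module.finite_of_finite (ZMod 2)
  have hmemK : ∀ x y, D' x y ∈ K₂ := fun x y => Submodule.subset_span ⟨(x, y), rfl⟩
  let D2 : V n →ₗ[ZMod 2] V n →ₗ[ZMod 2] K₂ := LinearMap.mk₂ (ZMod 2)
    (fun x y => ⟨D' x y, hmemK x y⟩)
    (fun x x' y => by
      apply Subtype.ext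
      change D' (x + x') y = D' x y + D' x' y
      rw [map_add]; rfl)
    (fun c x y => by
      apply Subtype.ext
      change D' (c • x) y = c • D' x y
      rw [map_smul]; rfl)
    (fun x y y' => by
      apply Subtype.ext
      change D' x (y + y') = D' x y + D' x y'
      rw [map_add])
    (fun c x y => by
      apply Subtype.ext
      change D' x (c • y) = c • D' x y
      rw [map_smul])
  have hD2 : ∀ x y, (((D2 x y : K₂) : T2 K) : K) = D x y := fun x y => rfl
  have hD20 : ∀ x y, D x y = 0 ↔ D2 x y = 0 := by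
    intro x y
    rw [← hD2]
    constructor
    · intro h
      exact Subtype.ext (Subtype.ext h)
    · intro h
      rw [h]; rfl
  obtain ⟨R, hρ, hcost⟩ := hL (V n) (V n) K₂ D2
  -- parameters
  set ℓ : ℝ := Real.logb 2 (2 / ε) with hℓ
  have h2ε : (2 : ℝ) ≤ 2 / ε := by
    rw [le_div_iff₀ hε]
    nlinarith
  have hℓ1 : 1 ≤ ℓ := by
    rw [hℓ, Real.le_logb_iff_rpow_le (by norm_num) (by linarith)]
    simpa using h2ε
  set r : ℕ := ⌊ℓ⌋₊ with hr
  have hrℓ : (r : ℝ) ≤ ℓ := Nat.floor_le (by linarith)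
  have hcardV : Fintype.card (V n) = 2 ^ n := by
    rw [Fintype.card_fun, ZMod.card, Fintype.card_fin]
  have hfinV : finrank (ZMod 2) (V n) = n := by simp
  -- the kernels
  let Z : V n → ℕ := fun a => (univ.filter fun y : V n => D a y = 0).card
  have hZsum : Set.ncard {p : V n × V n | D p.1 p.2 = 0} = ∑ a, Z a := by
    rw [Set.ncard_eq_toFinset_card']
    have h1 : ({p : V n × V n | D p.1 p.2 = 0} : Set (V n × V n)).toFinset =
        univ.filter fun p : V n × V n => D p.1 p.2 = 0 := by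
      ext p
      simp
    rw [h1, card_filter, Fintype.sum_prod_type]
    apply sum_congr rfl
    intro a _
    rw [← card_filter]
  have hZ : ∀ a, Z a * 2 ^ finrank (ZMod 2) (LinearMap.range (D2 a)) = 2 ^ n := by
    intro a
    have h1 : Z a = 2 ^ finrank (ZMod 2) (LinearMap.ker (D2 a)) := by
      rw [← natcard_pow, Nat.card_eq_fintype_card, Fintype.card_subtype]
      apply congrArg card
      ext y
      simp only [mem_filter, mem_univ, true_and, LinearMap.mem_ker]
      exact hD20 a y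
    rw [h1, ← pow_add, add_comm, LinearMap.finrank_range_add_finrank_ker, hfinV]
  have hZle : ∀ a, (Z a : ℝ) ≤ 2 ^ n := by
    intro a
    have h1 : Z a ≤ 2 ^ n := by
      rw [← hZ a]
      exact Nat.le_mul_of_pos_right _ (by positivity)
    exact_mod_cast h1
  let S : Finset (V n) := univ.filter fun a => ε / 2 * 2 ^ n ≤ (Z a : ℝ)
  have hS : ε / 2 * 2 ^ n ≤ (S.card : ℝ) := by
    have h1 : (∑ a, (Z a : ℝ)) ≤ S.card * 2 ^ n + 2 ^ n * (ε / 2 * 2 ^ n) := by
      have h2 : ∀ a ∈ (univ : Finset (V n)), (Z a : ℝ) ≤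
          (if a ∈ S then (2 : ℝ) ^ n else 0) + ε / 2 * 2 ^ n := by
        intro a _
        by_cases ha : a ∈ S
        · rw [if_pos ha]
          have := hZle a
          have : 0 ≤ ε / 2 * 2 ^ n := by positivity
          linarith [hZle a]
        · rw [if_neg ha, zero_add]
          by_contra hcon
          push Not at hcon
          exact ha (mem_filter.2 ⟨mem_univ _, hcon.le⟩)
      refine (sum_le_sum h2).trans (le_of_eq ?_)
      rw [sum_add_distrib, sum_ite_mem, univ_inter, sum_const, sum_const, card_univ, hcardV,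
        nsmul_eq_mul, nsmul_eq_mul]
      push_cast
      ring
    have h3 : ε * 4 ^ n ≤ ∑ a, (Z a : ℝ) := by
      have := hD
      rw [hZsum] at this
      push_cast at this
      exact this
    have h4 : (4 : ℝ) ^ n = 2 ^ n * 2 ^ n := by
      rw [← mul_pow]; norm_num
    rw [h4] at h3
    have h5 : (0 : ℝ) < 2 ^ n := by positivity
    have h6 : ε / 2 * 2 ^ n * 2 ^ n ≤ (S.card : ℝ) * 2 ^ n := by nlinarith
    exact le_of_mul_le_mul_right h6 h5
  have hSpos : 0 < S.card := by
    have h1 : (0 : ℝ) < S.card := lt_of_lt_of_le (by positivity) hS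
    exact_mod_cast h1
  have hSne : S.Nonempty := card_pos.1 hSpos
  have hSr : ∀ a ∈ S, finrank (ZMod 2) (LinearMap.range (D2 a)) ≤ r := by
    intro a ha
    have h1 : ε / 2 * 2 ^ n ≤ (Z a : ℝ) := (mem_filter.1 ha).2
    have h2 : (Z a : ℝ) * 2 ^ finrank (ZMod 2) (LinearMap.range (D2 a)) = 2 ^ n := by
      exact_mod_cast hZ a
    set k := finrank (ZMod 2) (LinearMap.range (D2 a))
    have h3 : (2 : ℝ) ^ k ≤ 2 / ε := by
      have h5 : (0 : ℝ) < 2 ^ n := by positivity
      have h6 : (0 : ℝ) < 2 ^ k := by positivity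
      have h7 : ε / 2 * 2 ^ n * 2 ^ k ≤ 2 ^ n := by
        calc ε / 2 * 2 ^ n * 2 ^ k ≤ (Z a : ℝ) * 2 ^ k :=
              mul_le_mul_of_nonneg_right h1 h6.le
          _ = 2 ^ n := h2
      rw [le_div_iff₀ hε]
      have h8 : (2 ^ k * ε) * 2 ^ n ≤ 2 * 2 ^ n := by nlinarith
      exact le_of_mul_le_mul_right h8 h5
    rw [hr]
    apply Nat.le_floor
    rw [hℓ, Real.le_logb_iff_rpow_le (by norm_num) (by linarith), Real.rpow_natCast]
    exact h3
  let p₀ : Submodule (ZMod 2) (V n) × Submodule (ZMod 2) K₂ := (⊤, ⊥)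
  have hρ0 : ∀ a ∈ S, R.ρ p₀ a ≤ r := by
    intro a ha
    rw [hρ]
    refine le_trans (Submodule.finrank_map_le _ _) ?_
    change finrank (ZMod 2) (Submodule.map (D2 a) ⊤) ≤ r
    rw [Submodule.map_top]
    exact hSr a ha
  have hcost0 : R.cost p₀ = 0 := by
    rw [hcost]
    change (finrank (ZMod 2) (V n) - finrank (ZMod 2) (⊤ : Submodule (ZMod 2) (V n))) +
      finrank (ZMod 2) (⊥ : Submodule (ZMod 2) K₂) = 0
    rw [finrank_top, finrank_bot, Nat.sub_self]
  obtain ⟨q, S', hS'S, -, hcq, hρq, hcard⟩ := hI (V n) _ R p₀ S r hSne hρ0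
  rw [hcost0, zero_add, hcost, hfinV] at hcq
  -- the annihilated elements
  let A : Submodule (ZMod 2) (V n) :=
    { carrier := {a | ∀ y ∈ q.1, D2 a y ∈ q.2}
      zero_mem' := by
        intro y _
        rw [map_zero]
        exact q.2.zero_mem
      add_mem' := by
        intro a b ha hb y hy
        rw [map_add]
        exact q.2.add_mem (ha y hy) (hb y hy)
      smul_mem' := by
        intro c a ha y hy
        rw [map_smul]
        exact q.2.smul_mem c (ha y hy) }
  have hAmem : ∀ a, a ∈ A ↔ ∀ y ∈ q.1, D2 a y ∈ q.2 := fun a => Iff.rfl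
  have hS'A : ∀ a ∈ S', a ∈ A := by
    intro a ha
    rw [hAmem]
    intro y hy
    have h1 := hρq a ha
    rw [hρ] at h1
    have h2 : (q.1.map (D2 a)).map q.2.mkQ = ⊥ := Submodule.finrank_eq_zero.1 h1
    have h3 : q.2.mkQ (D2 a y) ∈ (q.1.map (D2 a)).map q.2.mkQ :=
      Submodule.mem_map_of_mem (Submodule.mem_map_of_mem hy)
    rw [h2, Submodule.mem_bot] at h3
    exact (Submodule.Quotient.mk_eq_zero _).1 h3
  have hAcard : S'.card ≤ 2 ^ finrank (ZMod 2) A := by
    rw [← natcard_pow]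
    have h1 : S'.card = Nat.card {x // x ∈ S'} := by
      rw [Nat.card_eq_fintype_card, Fintype.card_coe]
    rw [h1]
    exact Nat.card_le_card_of_injective (fun x : {x // x ∈ S'} => (⟨x.1, hS'A x.1 x.2⟩ : A))
      (fun x y h => Subtype.ext (congrArg (fun z : A => (z : V n)) h))
  -- the dimension of `A`
  have hlogA : (n : ℝ) ≤ finrank (ZMod 2) A + 6 * ℓ := by
    set d := finrank (ZMod 2) A
    have h1 : (S.card : ℝ) ^ 2 ≤ (2 * ((r : ℝ) + 1)) ^ 2 * 2 ^ n * S'.card := by
      have := hcard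
      rw [hcardV] at this
      exact_mod_cast this
    have h2 : (S'.card : ℝ) ≤ 2 ^ d := by exact_mod_cast hAcard
    have h3 : (ε / 2 * 2 ^ n) ^ 2 ≤ (S.card : ℝ) ^ 2 :=
      pow_le_pow_left₀ (by positivity) hS 2
    have h4 : (r : ℝ) + 1 ≤ 2 ^ r := by
      have : r + 1 ≤ 2 ^ r := Nat.lt_two_pow_self
      exact_mod_cast this
    have h5 : (2 : ℝ) ^ r ≤ 2 / ε := by
      rw [← Real.rpow_natCast, ← Real.le_logb_iff_rpow_le (by norm_num) (by linarith)]
      exact hrℓ
    have h6 : (2 * ((r : ℝ) + 1)) ^ 2 ≤ (2 * (2 / ε)) ^ 2 :=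
      pow_le_pow_left₀ (by positivity) (by linarith) 2
    have h7 : (ε / 2 * 2 ^ n) ^ 2 ≤ (2 * (2 / ε)) ^ 2 * 2 ^ n * 2 ^ d := by
      calc (ε / 2 * 2 ^ n) ^ 2 ≤ (2 * ((r : ℝ) + 1)) ^ 2 * 2 ^ n * S'.card := h3.trans h1
        _ ≤ (2 * (2 / ε)) ^ 2 * 2 ^ n * 2 ^ d := by gcongr
    have h8 : (2 : ℝ) ^ n ≤ 4 * (2 / ε) ^ 4 * 2 ^ d := by
      have h9 : (0 : ℝ) < 2 ^ n := by positivity
      have h10 : (ε / 2 * 2 ^ n) ^ 2 = (ε / 2) ^ 2 * 2 ^ n * 2 ^ n := by ring
      have h11 : (2 * (2 / ε)) ^ 2 * 2 ^ n * 2 ^ d = 4 * (2 / ε) ^ 2 * 2 ^ d * 2 ^ n := by ring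
      rw [h10, h11] at h7
      have h12 := le_of_mul_le_mul_right h7 h9
      have h13 : (2 / ε) ^ 2 * ((ε / 2) ^ 2 * 2 ^ n) ≤ (2 / ε) ^ 2 * (4 * (2 / ε) ^ 2 * 2 ^ d) :=
        mul_le_mul_of_nonneg_left h12 (by positivity)
      have h14 : (2 / ε) ^ 2 * ((ε / 2) ^ 2 * 2 ^ n) = 2 ^ n := by
        field_simp
      rw [h14] at h13
      calc (2 : ℝ) ^ n ≤ (2 / ε) ^ 2 * (4 * (2 / ε) ^ 2 * 2 ^ d) := h13
        _ = 4 * (2 / ε) ^ 4 * 2 ^ d := by ring
    have hpos : (0 : ℝ) < 2 / ε := by positivity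
    have h15 := Real.logb_le_logb_of_le (b := 2) (by norm_num) (by positivity) h8
    rw [Real.logb_mul (by positivity) (by positivity), Real.logb_mul (by norm_num) (by positivity),
      Real.logb_pow, Real.logb_pow, Real.logb_pow, Real.logb_self_eq_one (by norm_num)] at h15
    have h16 : Real.logb 2 4 = 2 := by
      rw [show (4 : ℝ) = 2 ^ (2 : ℕ) by norm_num, Real.logb_pow, Real.logb_self_eq_one (by norm_num)]
      norm_num
    rw [h16, ← hℓ] at h15
    push_cast at h15
    linarith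
  have hfr := Submodule.finrank_sup_add_finrank_inf_eq q.1 A
  have hsup : finrank (ZMod 2) (q.1 ⊔ A : Submodule (ZMod 2) (V n)) ≤ n := by
    have := Submodule.finrank_le (q.1 ⊔ A)
    rwa [hfinV] at this
  have hq1 : finrank (ZMod 2) q.1 ≤ n := by
    have := Submodule.finrank_le q.1
    rwa [hfinV] at this
  let W : AddSubgroup K := (q.2.toAddSubgroup.map K₂.subtype.toAddMonoidHom).map (T2 K).subtype
  have hWmem : ∀ w : K₂, w ∈ q.2 → (((w : T2 K)) : K) ∈ W := by
    intro w hw
    exact ⟨(w : T2 K), ⟨w, hw, rfl⟩, rfl⟩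
  have hWsurj : ∃ f : q.2 → W, Function.Surjective f := by
    refine ⟨fun w => ⟨(((w : K₂) : T2 K) : K), hWmem _ w.2⟩, ?_⟩
    rintro ⟨w, hw⟩
    obtain ⟨t, ⟨k, hk, rfl⟩, rfl⟩ := hw
    exact ⟨⟨k, hk⟩, rfl⟩
  obtain ⟨f, hf⟩ := hWsurj
  have hWfin : Finite W := Finite.of_surjective f hf
  refine ⟨q.1 ⊓ A, W, ?_, ?_, ?_, ?_, ?_⟩
  · exact Set.toFinite _
  · rintro w ⟨t, -, rfl⟩
    exact t.2
  · have h1 : Nat.card W ≤ 2 ^ finrank (ZMod 2) q.2 := by
      rw [← natcard_pow]
      exact Nat.card_le_card_of_surjective f hf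
    have h2 : finrank (ZMod 2) q.2 ≤ r * 20406 := by omega
    have h5 : (2 : ℝ) ^ r ≤ 2 / ε := by
      rw [← Real.rpow_natCast, ← Real.le_logb_iff_rpow_le (by norm_num) (by linarith)]
      exact hrℓ
    calc (Nat.card W : ℝ) ≤ (2 : ℝ) ^ finrank (ZMod 2) q.2 := by exact_mod_cast h1
      _ ≤ 2 ^ (r * 20406) := pow_le_pow_right₀ (by norm_num) h2
      _ = (2 ^ r) ^ 20406 := by rw [pow_mul]
      _ ≤ (2 / ε) ^ 20406 := pow_le_pow_left₀ (by positivity) h5 _
  · have h1 : (n : ℝ) ≤ finrank (ZMod 2) q.1 + 20400 * r := by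
      have : n ≤ finrank (ZMod 2) q.1 + 20400 * r := by omega
      exact_mod_cast this
    have h2 : (finrank (ZMod 2) q.1 : ℝ) + finrank (ZMod 2) A ≤
        n + finrank (ZMod 2) (q.1 ⊓ A : Submodule (ZMod 2) (V n)) := by
      have : finrank (ZMod 2) q.1 + finrank (ZMod 2) A ≤
        n + finrank (ZMod 2) (q.1 ⊓ A : Submodule (ZMod 2) (V n)) := by omega
      exact_mod_cast this
    have h3 : (20400 : ℝ) * r ≤ 20400 * ℓ := by linarith
    push_cast
    linarith
  · intro x hx y hy
    rw [← hD2]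
    exact hWmem _ (hx.2 y hy.1)

end Pool.Agent.Helper55.BT.SLICE
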