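import Pool.Agent.Helper55.BT.Stm

/-!
# SYM (helper5): a symmetric biadditive map is a coboundary in a larger group

The larger group is the extension of `F_2^n` by `K` with the cocycle `B`; `q x = -(0, x)`.
-/

set_option autoImplicit false

namespace Pool.Agent.Helper55.BT.SYM

/-- the extension of `A` by `K` with cocycle `B` -/
@[ext]
structure Ext {A K : Type} [AddCommGroup A] [AddCommGroup K] (B : A →+ A →+ K) where
  a : K
  x : A

variable {A K : Type} [AddCommGroup A] [AddCommGroup K] {B : A →+ A →+ K}

instance : Add (Ext B) := ⟨fun u v => ⟨u.a + v.a + B u.x v.x, u.x + v.x⟩⟩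
instance : Zero (Ext B) := ⟨⟨0, 0⟩⟩
instance : Neg (Ext B) := ⟨fun u => ⟨-u.a + B u.x u.x, -u.x⟩⟩

theorem add_a (u v : Ext B) : (u + v).a = u.a + v.a + B u.x v.x := rfl
theorem add_x (u v : Ext B) : (u + v).x = u.x + v.x := rfl
theorem zero_a : (0 : Ext B).a = 0 := rfl
theorem zero_x : (0 : Ext B).x = 0 := rfl
theorem neg_a (u : Ext B) : (-u).a = -u.a + B u.x u.x := rfl
theorem neg_x (u : Ext B) : (-u).x = -u.x := rfl

/-- the extension is a commutative group if `B` is symmetric -/
@[reducible] def grp (hB : ∀ x y, B x y = B y x) : AddCommGroup (Ext B) where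
  add_assoc u v w := by
    ext
    · simp only [add_a, add_x, map_add, AddMonoidHom.add_apply]
      abel
    · simp only [add_x, add_assoc]
  zero_add u := by
    ext
    · simp [add_a, zero_a, zero_x]
    · simp [add_x, zero_x]
  add_zero u := by
    ext
    · simp [add_a, zero_a, zero_x]
    · simp [add_x, zero_x]
  nsmul := nsmulRec
  zsmul := zsmulRec
  neg_add_cancel u := by
    ext
    · simp only [add_a, neg_a, neg_x, zero_a, map_neg, AddMonoidHom.neg_apply]
      abel
    · simp only [add_x, neg_x, zero_x, neg_add_cancel]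
  add_comm u v := by
    ext
    · simp only [add_a, hB u.x v.x]
      abel
    · simp only [add_x, add_comm]

theorem main : S_SYM := by
  intro n K _ B hB
  let _ := grp hB
  refine ⟨Ext B, grp hB, ⟨⟨fun a => ⟨a, 0⟩, rfl⟩, fun a b => ?_⟩, fun x => -⟨0, x⟩, ?_, ?_⟩
  · ext
    · change a + b = a + b + B 0 0
      simp
    · change (0 : V n) _ = (0 + 0 : V n) _
      simp
  · intro a b h
    exact congrArg Ext.a h
  · intro x y
    rw [sub_sub, sub_eq_add_neg, neg_add, neg_neg, neg_neg, eq_neg_add_iff_add_eq]
    ext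
    · change 0 + B x y + B (x + y) 0 = 0 + 0 + B x y
      simp
    · change (x + y + 0 : V n) _ = (x + y : V n) _
      simp

end Pool.Agent.Helper55.BT.SYM
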