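import Pool.Agent.Helper55.BT.Lift
import Pool.Agent.Helper55.BT.B1
import Pool.Agent.Helper55.BT.B2
import Pool.Agent.Helper55.BT.B3
import Pool.Agent.Helper55.BT.AVG
import Pool.Agent.Helper55.BT.AVG1
import Pool.Agent.Helper55.BT.AVG2
import Pool.Agent.Helper55.BT.ITER
import Pool.Agent.Helper55.BT.LIN
import Pool.Agent.Helper55.BT.SLICE
import Pool.Agent.Helper55.BT.SYM
import Pool.Agent.Helper55.BT.RK
import Pool.Agent.Helper55.BT.HEI
import Pool.Agent.Helper55.BT.CEN2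

/-!
# Central lifts: assembly
-/

set_option autoImplicit false

open Module

namespace Pool.Agent.Helper55.BT

open Finset hiding box
open Pool.Agent.Helper45.AE (box CornerFree corners density density_le lin lin_add pull nt sum_pull
  sum_nt card_le_four corners_le num_lift corners_mono IsLifted lift_box bigC bigC_pos)

/-- the basic bound -/
theorem base' : ∃ C : ℕ, 0 < C ∧ ∀ (n N : ℕ) (E : Finset (V n × V n)), 1 ≤ N → Twisted N E →
    CornerFree E → (density E / 2) ^ C * (4 : ℝ) ^ ((0.03 : ℝ) * n) ≤ N :=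
  base B1.main B2.main B3.main
    (SLICE.main (ITER.main (AVG.main AVG1.main AVG2.main)) LIN.main) SYM.main RK.main

theorem exists_box_const : ∃ C : ℕ, ∀ (n : ℕ) (M : ℝ) (E : Finset (V n × V n)), 1 ≤ M →
    IsLifted M E → ∃ X Y Z : Finset (V n), box X Y Z ⊆ E ∧
      (density E / (2 * M)) ^ C * 4 ^ n ≤ #(box X Y Z) :=
  ⟨bigC, fun _ M E hM hE => lift_box E M hM hE⟩

theorem density_div_le {n : ℕ} (E : Finset (V n × V n)) (D : ℝ) (hD : 1 ≤ D) :
    0 ≤ density E / (2 * D) ∧ density E / (2 * D) ≤ 1 := by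
  have h0 : 0 ≤ density E := by unfold density; positivity
  have h1 := density_le E
  refine ⟨by positivity, ?_⟩
  rw [div_le_one (by positivity)]
  linarith

theorem main (hCEN1 : S_CEN1) : ∃ C : ℕ, 0 < C ∧
    (∀ (n : ℕ) (M : ℝ) (N : ℕ) (E : Finset (V n × V n)), 1 ≤ M → 1 ≤ N → CentralLift M N E →
      (density E / (2 * (M * N))) ^ C * 8 ^ n ≤ corners E) ∧
    (∀ (n : ℕ) (M : ℝ) (E : Finset (V n × V n)), 1 ≤ M → IsLifted M E →
      ∃ X Y Z : Finset (V n), box X Y Z ⊆ E ∧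
        (density E / (2 * M)) ^ C * 4 ^ n ≤ #(box X Y Z)) := by
  obtain ⟨C0, hC0, hbase⟩ := base'
  obtain ⟨C2, hbox⟩ := exists_box_const
  refine ⟨14 * (136 * C0 + 137) + C2, by omega, fun n M N E hM hN hE => ?_,
    fun n M E hM hE => ?_⟩
  · have h1 := lift_corners (CEN2.main hCEN1) hN
      (fun E' hE' => many_corners hC0 hN (fun d B => hbase d N B hN) E' hE') E M hM hE
    refine le_trans (mul_le_mul_of_nonneg_right ?_ (by positivity)) h1
    have hN1 : (1 : ℝ) ≤ N := by exact_mod_cast hN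
    obtain ⟨h2, h3⟩ := density_div_le E (M * N) (by nlinarith)
    exact pow_le_pow_of_le_one h2 h3 (by omega)
  · obtain ⟨X, Y, Z, h1, h2⟩ := hbox n M E hM hE
    refine ⟨X, Y, Z, h1, le_trans (mul_le_mul_of_nonneg_right ?_ (by positivity)) h2⟩
    obtain ⟨h3, h4⟩ := density_div_le E M hM
    exact pow_le_pow_of_le_one h3 h4 (by omega)

/-- the covering bound -/
theorem cover {C : ℕ} (hC : 0 < C) {n N : ℕ} {M : ℝ} (hM : 1 ≤ M) (hN : 1 ≤ N)
    (hm : ∀ E : Finset (V n × V n), CentralLift M N E →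
      (density E / (2 * (M * N))) ^ C * 8 ^ n ≤ corners E) (T : ℕ) (s : ℝ)
    (A : Finset (V n × V n)) (E : Fin T → Finset (V n × V n)) (hA : CornerFree A)
    (hE : ∀ i, CentralLift M N (E i)) (hs : ∀ i, (#(E i \ A) : ℝ) ≤ s)
    (hcov : ∀ p ∈ A, ∃ i, p ∈ E i) :
    (#A : ℝ) ≤ 2 * T * (M * N) * 4 ^ n * ((3 * s + 2 ^ n) / 4 ^ n) ^ (1 / (C : ℝ)) := by
  classical
  have hN1 : (1 : ℝ) ≤ N := by exact_mod_cast hN
  have h1 : A ⊆ univ.biUnion E := fun p hp => by
    obtain ⟨i, hi⟩ := hcov p hp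
    exact mem_biUnion.2 ⟨i, mem_univ _, hi⟩
  have h2 : (#A : ℝ) ≤ ∑ i, (#(E i) : ℝ) := by
    have := (Finset.card_le_card h1).trans Finset.card_biUnion_le
    exact_mod_cast this
  refine h2.trans ((Finset.sum_le_sum fun i _ =>
    twisted_bound hC.ne' (by nlinarith) A (E i) hA (hm (E i) (hE i)) s (hs i)).trans (le_of_eq ?_))
  rw [Finset.sum_const, Finset.card_univ, Fintype.card_fin, nsmul_eq_mul]
  ring

theorem cover' {C : ℕ} (hC : 0 < C) {n N : ℕ} {M : ℝ} (hM : 1 ≤ M) (hN : 1 ≤ N)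
    (hm : ∀ E : Finset (V n × V n), CentralLift M N E →
      (density E / (2 * (M * N))) ^ C * 8 ^ n ≤ corners E) (T : ℕ)
    (A : Finset (V n × V n)) (E : Fin T → Finset (V n × V n)) (hA : CornerFree A)
    (hE : ∀ i, CentralLift M N (E i)) (hAE : ∀ p, p ∈ A ↔ ∃ i, p ∈ E i) :
    (#A : ℝ) ≤ 2 * T * (M * N) * 4 ^ ((1 - 1 / (2 * (C : ℝ))) * n) := by
  classical
  have h4 := cover hC hM hN hm T 0 A E hA hE (fun i => by
    have : E i \ A = ∅ := sdiff_eq_empty_iff_subset.2 fun p hp => (hAE p).2 ⟨i, hp⟩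
    rw [this]; simp) (fun p hp => (hAE p).1 hp)
  refine h4.trans (le_of_eq ?_)
  have hC' : (0 : ℝ) < C := by exact_mod_cast hC
  have e1 : (2 : ℝ) ^ n / 4 ^ n = (4 : ℝ) ^ (-(n : ℝ) / 2) := by
    have e2 : (2 : ℝ) ^ n = (4 : ℝ) ^ ((n : ℝ) / 2) := by
      rw [show (4 : ℝ) = (2 : ℝ) ^ (2 : ℝ) by norm_num, ← Real.rpow_mul (by norm_num),
        ← Real.rpow_natCast]
      congr 1; ring
    rw [e2, ← Real.rpow_natCast 4 n, ← Real.rpow_sub (by norm_num)]
    congr 1; ring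
  rw [mul_zero, zero_add, e1, ← Real.rpow_mul (by norm_num), mul_assoc (2 * (T : ℝ) * (M * N)),
    ← Real.rpow_natCast 4 n, ← Real.rpow_add (by norm_num)]
  congr 2
  field_simp
  ring

end Pool.Agent.Helper55.BT
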