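import Pool.Agent.Helper55.BT.Stm3

/-! Module NIL (helper78): corner-free sets from nilpotent groups of class two contain central lifts. -/

set_option autoImplicit false

open Finset Module

namespace Pool.Agent.Helper55.BT.NIL

/-- the classes modulo the centre, written additively -/
theorem exists_cl (Γ : Type) [Group Γ] (hcl : ∀ g h k : Γ, g * h * g⁻¹ * h⁻¹ * k = k * (g * h * g⁻¹ * h⁻¹)) :
    ∃ (K : Type) (_ : AddCommGroup K) (cl : Γ → K), Function.Surjective cl ∧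
      (∀ g h, cl (g * h) = cl g + cl h) ∧ ∀ g, cl g = 0 → ∀ k, g * k = k * g := by
  have hc : ∀ x y : Γ ⧸ Subgroup.center Γ, x * y = y * x := by
    intro x y
    obtain ⟨g, rfl⟩ := QuotientGroup.mk_surjective x
    obtain ⟨h, rfl⟩ := QuotientGroup.mk_surjective y
    rw [← QuotientGroup.mk_mul, ← QuotientGroup.mk_mul, QuotientGroup.eq, Subgroup.mem_center_iff]
    intro k
    have e : (g * h)⁻¹ * (h * g) = h⁻¹ * g⁻¹ * h⁻¹⁻¹ * g⁻¹⁻¹ := by group
    rw [e]
    exact (hcl h⁻¹ g⁻¹ k).symm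
  let _ : CommGroup (Γ ⧸ Subgroup.center Γ) := { (inferInstance : Group (Γ ⧸ Subgroup.center Γ)) with
    mul_comm := hc }
  refine ⟨Additive (Γ ⧸ Subgroup.center Γ), inferInstance,
    fun g => Additive.ofMul (QuotientGroup.mk g : Γ ⧸ Subgroup.center Γ), ?_, ?_, ?_⟩
  · intro x
    obtain ⟨g, hg⟩ := QuotientGroup.mk_surjective (Additive.toMul x)
    exact ⟨g, congrArg Additive.ofMul hg⟩
  · intro g h
    rfl
  · intro g hg k
    have h1 : (QuotientGroup.mk g : Γ ⧸ Subgroup.center Γ) = 1 := hg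
    rw [QuotientGroup.eq_one_iff, Subgroup.mem_center_iff] at h1
    exact (h1 k).symm

theorem main : S_NIL := by
  classical
  intro e hA n N Γ _ hcl φ ψ χ L _ _ a b c E hE
  have h4 : (0:ℝ) < 4 ^ n := by positivity
  rcases E.eq_empty_or_nonempty with hemp | hne
  · subst hemp
    refine ⟨∅, subset_rfl, ?_, by simp⟩
    refine ⟨Multiplicative (V n), inferInstance, fun v => Multiplicative.toAdd v, ∅, ∅, ∅, L, inferInstance,
      inferInstance, a, b, c, fun _ _ => rfl, fun p _ q => mul_comm p q, by simp, by simp, by simp, ?_⟩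
    intro x y
    simp
  obtain ⟨K, _, cl, hsurj, hmul, hcen⟩ := exists_cl Γ hcl
  have hone : cl 1 = 0 := by
    have := hmul 1 1
    rw [mul_one] at this
    exact left_eq_add.1 this
  have hinv : ∀ g, cl g⁻¹ = - cl g := by
    intro g
    have := hmul g⁻¹ g
    rw [inv_mul_cancel, hone] at this
    exact eq_neg_of_add_eq_zero_left this.symm
  have hcardV : Fintype.card (V n) = 2 ^ n := by simp [V]
  have hE4 : (#E : ℝ) ≤ 4 ^ n := by
    have h1 : #E ≤ Fintype.card (V n × V n) := card_le_univ E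
    rw [Fintype.card_prod, hcardV, ← mul_pow] at h1
    exact_mod_cast h1
  have hEpos : (0:ℝ) < #E := by exact_mod_cast hne.card_pos
  have hδ : 0 < (#E : ℝ) / 4 ^ n := by positivity
  have hδ1 : (#E : ℝ) / 4 ^ n ≤ 1 := by rw [div_le_one h4]; exact hE4
  obtain ⟨X, Y, Z, L', c0, d0, hX, hY, hZ, hcard⟩ := hA n K (fun x => cl (φ x)) (fun y => cl (ψ y))
    (fun w => - cl (χ w)) E ((#E : ℝ) / 4 ^ n) (by
      rintro ⟨x, y⟩ hp
      have h1 := ((hE x y).1 hp).1
      show cl (φ x) + cl (ψ y) + - cl (χ (x + y)) = 0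
      rw [← hmul, h1, add_neg_cancel]) hδ hδ1 (by rw [div_mul_cancel₀ _ h4.ne'])
  obtain ⟨g, rfl⟩ := hsurj c0
  obtain ⟨h, rfl⟩ := hsurj d0
  refine ⟨E.filter fun p => p.1 ∈ X ∧ p.2 ∈ Y ∧ p.1 + p.2 ∈ Z, filter_subset _ _, ?_, ?_⟩
  swap
  · rw [le_div_iff₀ h4]
    refine le_trans ?_ hcard
    refine mul_le_mul_of_nonneg_right ?_ h4.le
    exact pow_le_pow_of_le_one (by positivity) (by linarith) (Nat.le_succ e)
  -- the group
  let S : Subgroup (Multiplicative (V n) × Γ) :=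
    { carrier := {p | cl p.2 = L' (Multiplicative.toAdd p.1)}
      mul_mem' := by
        intro p q hp hq
        simp only [Set.mem_setOf_eq] at hp hq ⊢
        rw [Prod.snd_mul, Prod.fst_mul, hmul, hp, hq, toAdd_mul, map_add]
      one_mem' := by
        simp only [Set.mem_setOf_eq]
        rw [Prod.snd_one, Prod.fst_one, hone, toAdd_one, map_zero]
      inv_mem' := by
        intro p hp
        simp only [Set.mem_setOf_eq] at hp ⊢
        rw [Prod.snd_inv, Prod.fst_inv, hinv, hp, toAdd_inv, map_neg] }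
  have hS : ∀ (v : V n) (k : Γ), cl k = L' v → (Multiplicative.ofAdd v, k) ∈ S := fun v k hk => hk
  have kX : ∀ x ∈ X, cl (g⁻¹ * φ x) = L' x := by
    intro x hx
    rw [hmul, hinv, hX x hx]; abel
  have kY : ∀ y ∈ Y, cl (ψ y * h⁻¹) = L' y := by
    intro y hy
    rw [hmul, hinv, hY y hy]; abel
  have kZ : ∀ w ∈ Z, cl (g⁻¹ * χ w * h⁻¹) = L' w := by
    intro w hw
    have := neg_injective (hZ w hw)
    rw [hmul, hmul, hinv, hinv, this]; abel
  have cardle : ∀ (W : Finset (V n)) (f : {x // x ∈ W} → S), (#(W.attach.image f) : ℝ) ≤ (1 : ℝ) * 2 ^ n := by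
    intro W f
    have h1 : #(W.attach.image f) ≤ 2 ^ n := by
      refine card_image_le.trans ?_
      rw [card_attach, ← hcardV]
      exact card_le_univ W
    rw [one_mul]
    exact_mod_cast h1
  refine ⟨S, inferInstance, fun s => Multiplicative.toAdd s.1.1,
    X.attach.image (fun x => ⟨(Multiplicative.ofAdd x.1, g⁻¹ * φ x.1), hS _ _ (kX x.1 x.2)⟩),
    Y.attach.image (fun y => ⟨(Multiplicative.ofAdd y.1, ψ y.1 * h⁻¹), hS _ _ (kY y.1 y.2)⟩),
    Z.attach.image (fun w => ⟨(Multiplicative.ofAdd w.1, g⁻¹ * χ w.1 * h⁻¹), hS _ _ (kZ w.1 w.2)⟩),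
    L, inferInstance, inferInstance, a, b, c, fun _ _ => rfl, ?_, cardle _ _, cardle _ _, cardle _ _, ?_⟩
  · rintro ⟨⟨v, k⟩, hp⟩ hv ⟨⟨w, k'⟩, hq⟩
    have hp' : cl k = L' (Multiplicative.toAdd v) := hp
    have hv' : Multiplicative.toAdd v = 0 := hv
    rw [hv', map_zero] at hp'
    refine Subtype.ext (Prod.ext (mul_comm v w) ?_)
    exact hcen k hp' k'
  · intro x y
    rw [mem_filter, hE]
    constructor
    · rintro ⟨⟨h1, h2⟩, hx, hy, hxy⟩
      refine ⟨?_, h2⟩
      refine ⟨_, mem_image_of_mem _ (mem_attach X ⟨x, hx⟩), _, mem_image_of_mem _ (mem_attach Y ⟨y, hy⟩), ?_,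
        rfl, rfl⟩
      rw [mem_image]
      refine ⟨⟨x + y, hxy⟩, mem_attach _ _, ?_⟩
      refine Subtype.ext (Prod.ext rfl ?_)
      show g⁻¹ * χ (x + y) * h⁻¹ = (g⁻¹ * φ x) * (ψ y * h⁻¹)
      rw [← h1]; group
    · rintro ⟨⟨p, hp, q, hq, hpq, rfl, rfl⟩, h2⟩
      rw [mem_image] at hp hq hpq
      obtain ⟨⟨x, hx⟩, -, rfl⟩ := hp
      obtain ⟨⟨y, hy⟩, -, rfl⟩ := hq
      obtain ⟨⟨w, hw⟩, -, h3⟩ := hpq
      have h4 := congrArg Subtype.val h3
      have h5 : Multiplicative.ofAdd w = Multiplicative.ofAdd x * Multiplicative.ofAdd y := congrArg Prod.fst h4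
      have h6 : g⁻¹ * χ w * h⁻¹ = (g⁻¹ * φ x) * (ψ y * h⁻¹) := congrArg Prod.snd h4
      have h7 : w = x + y := h5
      subst h7
      have h8 : φ x * ψ y = χ (x + y) := by
        have e1 : χ (x + y) = g * (g⁻¹ * χ (x + y) * h⁻¹) * h := by group
        rw [e1, h6]; group
      exact ⟨⟨h8, h2⟩, hx, hy, hw⟩

end Pool.Agent.Helper55.BT.NIL
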