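import Pool.Agent.Helper55.BT.Main
import Pool.Agent.Helper55.BT.AFF
import Pool.Agent.Helper55.BT.CEN1

/-!
# Lifts to nilpotent groups of class two
-/

set_option autoImplicit false

open Module

namespace Pool.Agent.Helper55.BT

open Finset hiding box
open Pool.Agent.Helper45.AE (box CornerFree corners density density_le lin lin_add pull nt sum_pull
  sum_nt card_le_four corners_le num_lift corners_mono IsLifted)

variable {n : ℕ} {Γ : Type}

/-- solution sets of equations in nilpotent groups of class at most two -/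
def NilEq {n : ℕ} (N : ℕ) (E : Finset (V n × V n)) : Prop :=
  ∃ (Γ : Type) (_ : Group Γ) (φ ψ χ : V n → Γ)
    (L : Type) (_ : Field L) (_ : CharP L 2) (a b c : Fin N → V n → L),
    (∀ g h k : Γ, g * h * g⁻¹ * h⁻¹ * k = k * (g * h * g⁻¹ * h⁻¹)) ∧
    ∀ x y, (x, y) ∈ E ↔ φ x * ψ y = χ (x + y) ∧ ∑ i, a i x * b i y * c i (x + y) ≠ 0

/-- lifts to nilpotent groups of class at most two -/
def NilLift {n : ℕ} (M : ℝ) (N : ℕ) (E : Finset (V n × V n)) : Prop :=
  ∃ (Γ : Type) (_ : Group Γ) (π : Γ → V n) (P Q R : Finset Γ)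
    (L : Type) (_ : Field L) (_ : CharP L 2) (a b c : Fin N → V n → L),
    (∀ g h k : Γ, g * h * g⁻¹ * h⁻¹ * k = k * (g * h * g⁻¹ * h⁻¹)) ∧
    (∀ p q, π (p * q) = π p + π q) ∧
    (#P : ℝ) ≤ M * 2 ^ n ∧ (#Q : ℝ) ≤ M * 2 ^ n ∧ (#R : ℝ) ≤ M * 2 ^ n ∧
      ∀ x y, (x, y) ∈ E ↔ (∃ p ∈ P, ∃ q ∈ Q, p * q ∈ R ∧ π p = x ∧ π q = y) ∧
        ∑ i, a i x * b i y * c i (x + y) ≠ 0

theorem nileq_piece {N : ℕ} [Group Γ]
    (hcl : ∀ g h k : Γ, g * h * g⁻¹ * h⁻¹ * k = k * (g * h * g⁻¹ * h⁻¹))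
    (σ τ ρ : V n → Option Γ)
    (L : Type) [Field L] [CharP L 2] (a b c : Fin N → V n → L) :
    NilEq N (piece σ τ ρ a b c) := by
  classical
  refine ⟨Γ, inferInstance, fun x => (σ x).getD 1, fun y => (τ y).getD 1,
    fun w => (ρ w).getD 1, L, inferInstance, inferInstance,
    fun i x => (σ x).elim 0 fun _ => a i x, fun i y => (τ y).elim 0 fun _ => b i y,
    fun i w => (ρ w).elim 0 fun _ => c i w, hcl, fun x y => ?_⟩
  simp only [piece, mem_filter, mem_univ, true_and]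
  rcases h1 : σ x with _ | r
  · simp
  rcases h2 : τ y with _ | s
  · simp
  rcases h3 : ρ (x + y) with _ | t
  · simp
  simp only [Option.some.injEq, Option.elim_some, Option.getD_some]
  refine and_congr ?_ Iff.rfl
  constructor
  · rintro ⟨r', s', t', rfl, rfl, rfl, h⟩
    exact h
  · intro h
    exact ⟨r, s, t, rfl, rfl, rfl, h⟩

/-- **Lifts.** -/
theorem nileq_in_lift {N : ℕ} {Γ : Type} [Group Γ] (π : Γ → V n)
    (hπ : ∀ p q, π (p * q) = π p + π q)
    (hcl : ∀ g h k : Γ, g * h * g⁻¹ * h⁻¹ * k = k * (g * h * g⁻¹ * h⁻¹))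
    (P Q R : Finset Γ) (L : Type) [Field L] [CharP L 2] (a b c : Fin N → V n → L)
    (A : Finset (V n × V n)) (M : ℝ) (hM : 1 ≤ M)
    (hP : (#P : ℝ) ≤ M * 2 ^ n) (hQ : (#Q : ℝ) ≤ M * 2 ^ n) (hR : (#R : ℝ) ≤ M * 2 ^ n)
    (hA : ∀ x y, (x, y) ∈ A ↔ (∃ p ∈ P, ∃ q ∈ Q, p * q ∈ R ∧ π p = x ∧ π q = y) ∧
      ∑ i, a i x * b i y * c i (x + y) ≠ 0) :
    ∃ E : Finset (V n × V n), NilEq N E ∧ E ⊆ A ∧ (density A / (2 * M)) ^ 13 ≤ density E := by
  classical
  rcases A.eq_empty_or_nonempty with h0 | hne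
  · refine ⟨∅, ⟨Γ, inferInstance, fun _ => 1, fun _ => 1, fun _ => 1, ZMod 2, inferInstance,
        inferInstance, fun _ _ => 0, fun _ _ => 0, fun _ _ => 0, hcl, fun x y => ?_⟩,
      Finset.empty_subset _, ?_⟩
    · simp
    · rw [h0]
      simp [density]
  have hM0 : 0 < M := by linarith
  have hA0 : (0 : ℝ) < #A := by exact_mod_cast hne.card_pos
  have h4n : (0 : ℝ) < 4 ^ n := by positivity
  set δ := density A with hδ
  have hAδ : (#A : ℝ) = δ * 4 ^ n := by rw [hδ]; unfold density; field_simp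
  have hδ0 : 0 < δ := by rw [hδ]; unfold density; positivity
  have hδ1 : δ ≤ 1 := density_le A
  set t : ℝ := 6 * M / δ with ht
  have ht1 : 1 ≤ t := by
    rw [ht, le_div_iff₀ hδ0]
    linarith
  set m : ℕ := ⌈t⌉₊ with hm
  have hm1 : t ≤ m := Nat.le_ceil t
  have hm2 : (m : ℝ) ≤ 2 * t := by
    have := (Nat.ceil_lt_add_one (by linarith : 0 ≤ t)).le
    linarith
  have hm0 : (0 : ℝ) < m := by linarith
  -- the bad lines
  have key : ∀ (S : Finset Γ), (#S : ℝ) ≤ M * 2 ^ n →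
      (#(univ.filter fun x : V n => m < #(S.filter fun p => π p = x)) : ℝ) * 2 ^ n ≤
        δ / 6 * 4 ^ n := by
    intro S hS
    have h1 : ((#(univ.filter fun x : V n => m < #(S.filter fun p => π p = x)) : ℕ) : ℝ) * m ≤ #S := by
      exact_mod_cast few_large π S m
    have h2 : (#(univ.filter fun x : V n => m < #(S.filter fun p => π p = x)) : ℝ) * t ≤ M * 2 ^ n := by
      calc (#(univ.filter fun x : V n => m < #(S.filter fun p => π p = x)) : ℝ) * t
          ≤ (#(univ.filter fun x : V n => m < #(S.filter fun p => π p = x)) : ℝ) * m :=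
            mul_le_mul_of_nonneg_left hm1 (Nat.cast_nonneg _)
        _ ≤ _ := h1.trans hS
    have e4 : (4 : ℝ) ^ n = 2 ^ n * 2 ^ n := by rw [← mul_pow]; norm_num
    have h2n : (0 : ℝ) < 2 ^ n := by positivity
    set b : ℝ := (#(univ.filter fun x : V n => m < #(S.filter fun p => π p = x)) : ℝ) with hb
    have h3 : b ≤ δ / 6 * 2 ^ n := by
      have h5 : b * (6 * M) ≤ M * 2 ^ n * δ := by
        have := mul_le_mul_of_nonneg_right h2 hδ0.le
        rw [ht] at this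
        have e : b * (6 * M / δ) * δ = b * (6 * M) := by field_simp
        rw [e] at this
        exact this
      have h6 : b * 6 ≤ 2 ^ n * δ := by
        refine le_of_mul_le_mul_right ?_ hM0
        calc b * 6 * M = b * (6 * M) := by ring
          _ ≤ _ := h5
          _ = 2 ^ n * δ * M := by ring
      linarith
    rw [e4]
    calc b * 2 ^ n ≤ δ / 6 * 2 ^ n * 2 ^ n := mul_le_mul_of_nonneg_right h3 h2n.le
      _ = _ := by ring
  set XP := univ.filter fun x : V n => m < #(P.filter fun p => π p = x) with hXP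
  set XQ := univ.filter fun x : V n => m < #(Q.filter fun p => π p = x) with hXQ
  set XR := univ.filter fun x : V n => m < #(R.filter fun p => π p = x) with hXR
  set I := range m ×ˢ range m ×ˢ range m with hI
  set pc : ℕ × ℕ × ℕ → Finset (V n × V n) := fun i =>
    piece (sect π P i.1) (sect π Q i.2.1) (sect π R i.2.2) a b c with hpc
  have hcov : A ⊆ ((XP ×ˢ (univ : Finset (V n))) ∪ ((univ : Finset (V n)) ×ˢ XQ)) ∪
      ((((univ : Finset (V n)) ×ˢ XR).image fun q => (q.1, q.2 + q.1)) ∪ I.biUnion pc) := by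
    intro w ha
    obtain ⟨⟨p, hp, q, hq, hr, h1, h2⟩, hne0⟩ := (hA w.1 w.2).1 ha
    by_cases g1 : w.1 ∈ XP
    · exact mem_union_left _ (mem_union_left _ (mem_product.2 ⟨g1, mem_univ _⟩))
    by_cases g2 : w.2 ∈ XQ
    · exact mem_union_left _ (mem_union_right _ (mem_product.2 ⟨mem_univ _, g2⟩))
    by_cases g3 : w.1 + w.2 ∈ XR
    · refine mem_union_right _ (mem_union_left _ (mem_image.2 ⟨(w.1, w.1 + w.2),
        mem_product.2 ⟨mem_univ _, g3⟩, ?_⟩))
      refine Prod.ext rfl ?_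
      show w.1 + w.2 + w.1 = w.2
      have := Split.add_self_V w.1
      calc w.1 + w.2 + w.1 = (w.1 + w.1) + w.2 := by abel
        _ = w.2 := by rw [this, zero_add]
    refine mem_union_right _ (mem_union_right _ ?_)
    obtain ⟨i, hi, hi'⟩ := exists_sect (π := π) hp
    obtain ⟨j, hj, hj'⟩ := exists_sect (π := π) hq
    obtain ⟨k, hk, hk'⟩ := exists_sect (π := π) hr
    rw [hπ] at hk hk'
    rw [h1] at hi hi' hk hk'
    rw [h2] at hj hj' hk hk'
    simp only [hXP, hXQ, hXR, mem_filter, mem_univ, true_and, not_lt] at g1 g2 g3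
    refine mem_biUnion.2 ⟨(i, j, k), ?_, ?_⟩
    · simp only [hI, mem_product, mem_range]
      exact ⟨hi.trans_le g1, hj.trans_le g2, hk.trans_le g3⟩
    · simp only [hpc, piece, mem_filter, mem_univ, true_and]
      exact ⟨⟨p, q, p * q, hi', hj', hk', rfl⟩, hne0⟩
  have hsub : ∀ i, pc i ⊆ A := by
    intro i w ha
    simp only [hpc, piece, mem_filter, mem_univ, true_and] at ha
    obtain ⟨⟨p, q, r, h1, h2, h3, h4⟩, hne0⟩ := ha
    refine (hA w.1 w.2).2 ⟨⟨p, (sect_some h1).1, q, (sect_some h2).1, ?_, (sect_some h1).2,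
      (sect_some h2).2⟩, hne0⟩
    rw [h4]
    exact (sect_some h3).1
  have hsum : (#A : ℝ) ≤ (#XP * 2 ^ n + 2 ^ n * #XQ) + (2 ^ n * #XR + ∑ i ∈ I, (#(pc i) : ℝ)) := by
    have h1 := Finset.card_le_card hcov
    have h2 := h1.trans (Finset.card_union_le _ _)
    have h3 := Finset.card_union_le (XP ×ˢ (univ : Finset (V n))) ((univ : Finset (V n)) ×ˢ XQ)
    have h4 := Finset.card_union_le (((univ : Finset (V n)) ×ˢ XR).image fun q => (q.1, q.2 + q.1))
      (I.biUnion pc)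
    have h5 : #(((univ : Finset (V n)) ×ˢ XR).image fun q => (q.1, q.2 + q.1)) ≤ 2 ^ n * #XR := by
      refine Finset.card_image_le.trans (le_of_eq ?_)
      rw [Finset.card_product, Finset.card_univ, card_V']
    rw [Finset.card_product, Finset.card_product, Finset.card_univ, card_V'] at h3
    have h6 : #(I.biUnion pc) ≤ ∑ i ∈ I, #(pc i) := Finset.card_biUnion_le
    have h8 : #A ≤ (#XP * 2 ^ n + 2 ^ n * #XQ) + (2 ^ n * #XR + ∑ i ∈ I, #(pc i)) := by omega
    exact_mod_cast h8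
  have k1 := key P hP
  have k2 := key Q hQ
  have k3 := key R hR
  have hhalf : δ / 2 * 4 ^ n ≤ ∑ i ∈ I, (#(pc i) : ℝ) := by
    rw [hAδ] at hsum
    have e1 : (2 : ℝ) ^ n * #XQ = #XQ * 2 ^ n := mul_comm _ _
    have e2 : (2 : ℝ) ^ n * #XR = #XR * 2 ^ n := mul_comm _ _
    rw [e1, e2] at hsum
    linarith
  have hIne : I.Nonempty := by
    have hm3 : 0 < m := by exact_mod_cast hm0
    exact ⟨(0, 0, 0), by simp only [hI, mem_product, mem_range]; exact ⟨hm3, hm3, hm3⟩⟩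
  have hIc : (#I : ℝ) = m ^ 3 := by
    rw [hI, Finset.card_product, Finset.card_product, Finset.card_range]
    push_cast; ring
  obtain ⟨i, hi, hmax⟩ := Finset.exists_max_image I (fun i => (#(pc i) : ℝ)) hIne
  refine ⟨pc i, nileq_piece hcl _ _ _ L a b c, hsub i, ?_⟩
  have h1 : δ / 2 * 4 ^ n ≤ m ^ 3 * #(pc i) := by
    calc δ / 2 * 4 ^ n ≤ ∑ i ∈ I, (#(pc i) : ℝ) := hhalf
      _ ≤ ∑ _j ∈ I, (#(pc i) : ℝ) := Finset.sum_le_sum hmax
      _ = m ^ 3 * #(pc i) := by rw [Finset.sum_const, nsmul_eq_mul, hIc]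
  refine (num_lift δ M t m hδ0 hδ1 hM ht hm2 hm0).trans ?_
  unfold density
  rw [div_le_div_iff₀ (by positivity) h4n]
  linarith

theorem num_nil (δ δ1 δ2 M : ℝ) (N e C : ℕ) (hδ : 0 ≤ δ) (hδ1 : δ ≤ 1) (hM : 1 ≤ M) (hN : 1 ≤ N)
    (h1 : (δ / (2 * M)) ^ 13 ≤ δ1) (h2 : (δ1 / 2) ^ (e + 1) ≤ δ2) :
    (δ / (2 * (M * N))) ^ ((14 * (e + 1) + 1) * C) ≤ (δ2 / (2 * ((1 : ℝ) * N))) ^ C := by
  have hN1 : (1 : ℝ) ≤ N := by exact_mod_cast hN
  have hM0 : 0 < M := by linarith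
  have hN0 : (0 : ℝ) < N := by linarith
  obtain ⟨η, hη⟩ : ∃ η : ℝ, η = δ / (2 * (M * N)) := ⟨_, rfl⟩
  rw [← hη]
  have hη0 : 0 ≤ η := by rw [hη]; positivity
  have g1 : η ≤ δ / (2 * M) := by
    rw [hη]
    refine div_le_div_of_nonneg_left hδ (by positivity) ?_
    nlinarith
  have g2 : η ≤ 1 / (2 * N) := by
    rw [hη, div_le_div_iff₀ (by positivity) (by positivity)]
    nlinarith
  have g3 : η ≤ 1 / 2 := g2.trans (by
    rw [div_le_div_iff₀ (by positivity) (by norm_num)]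
    linarith)
  rw [pow_mul]
  refine pow_le_pow_left₀ (by positivity) ?_ C
  have g4 : η ^ 14 ≤ δ1 / 2 := by
    calc η ^ 14 = η ^ 13 * η := by ring
      _ ≤ (δ / (2 * M)) ^ 13 * (1 / 2) :=
        mul_le_mul (pow_le_pow_left₀ hη0 g1 13) g3 hη0 (by positivity)
      _ ≤ δ1 * (1 / 2) := mul_le_mul_of_nonneg_right h1 (by norm_num)
      _ = δ1 / 2 := by ring
  have g5 : (η ^ 14) ^ (e + 1) ≤ δ2 := (pow_le_pow_left₀ (by positivity) g4 _).trans h2
  have g6 : 0 ≤ δ2 := le_trans (by positivity) g5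
  calc η ^ (14 * (e + 1) + 1) = (η ^ 14) ^ (e + 1) * η := by rw [pow_succ, pow_mul]
    _ ≤ δ2 * (1 / (2 * N)) := mul_le_mul g5 g2 hη0 g6
    _ = δ2 / (2 * ((1 : ℝ) * N)) := by rw [one_mul]; ring

theorem nil_corners (hNIL : S_NIL) {e C N : ℕ} (he : S_AFF e) (hN : 1 ≤ N)
    (hm : ∀ E : Finset (V n × V n), CentralLift 1 N E →
      (density E / (2 * ((1 : ℝ) * N))) ^ C * 8 ^ n ≤ corners E)
    (E : Finset (V n × V n)) (M : ℝ) (hM : 1 ≤ M) (hE : NilLift M N E) :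
    (density E / (2 * (M * N))) ^ ((14 * (e + 1) + 1) * C) * 8 ^ n ≤ corners E := by
  obtain ⟨Γ, _, π, P, Q, R, L, _, _, a, b, c, hcl, hπ, hP, hQ, hR, h⟩ := hE
  obtain ⟨E', hE', hsub, hd⟩ := nileq_in_lift π hπ hcl P Q R L a b c E M hM hP hQ hR h
  obtain ⟨Γ', _, φ, ψ, χ, L', _, _, a', b', c', hcl', h'⟩ := hE'
  obtain ⟨E0, hsub0, hE0, hd0⟩ := hNIL e he n N Γ' hcl' φ ψ χ L' a' b' c' E' h'
  have h1 := hm E0 hE0
  have h2 : (corners E0 : ℝ) ≤ corners E := by exact_mod_cast corners_mono (hsub0.trans hsub)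
  refine le_trans (mul_le_mul_of_nonneg_right ?_ (by positivity)) (h1.trans h2)
  have hd1 : 0 ≤ density E := by unfold density; positivity
  exact num_nil (density E) (density E') (density E0) M N e C hd1 (density_le E) hM hN hd hd0

/-- a central kernel gives a nilpotent group of class at most two -/
theorem nilLift_of_central {M : ℝ} {N : ℕ} (E : Finset (V n × V n)) (hE : CentralLift M N E) :
    NilLift M N E := by
  obtain ⟨Γ, _, π, P, Q, R, L, _, _, a, b, c, hπ, hcen, hP, hQ, hR, h⟩ := hE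
  have h1 : π 1 = 0 := by
    have := hπ 1 1
    rw [mul_one] at this
    exact left_eq_add.1 this
  have hinv : ∀ g, π g⁻¹ = - π g := fun g => by
    have := hπ g g⁻¹
    rw [mul_inv_cancel, h1] at this
    exact (neg_eq_of_add_eq_zero_right this.symm).symm
  refine ⟨Γ, inferInstance, π, P, Q, R, L, inferInstance, inferInstance, a, b, c, fun g h k => ?_,
    hπ, hP, hQ, hR, h⟩
  refine hcen _ ?_ k
  rw [hπ, hπ, hπ, hinv, hinv]
  abel

/-- equations are lifts -/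
theorem nilLift_of_nilEq {N : ℕ} (E : Finset (V n × V n)) (hE : NilEq N E) : NilLift 1 N E := by
  classical
  obtain ⟨Γ, _, φ, ψ, χ, L, _, _, a, b, c, hcl, h⟩ := hE
  have hc : ∀ f : V n → Γ, (#((univ : Finset (V n)).image fun x =>
      ((Multiplicative.ofAdd x, f x) : Multiplicative (V n) × Γ)) : ℝ) ≤ 1 * 2 ^ n := by
    intro f
    have : #((univ : Finset (V n)).image fun x =>
        ((Multiplicative.ofAdd x, f x) : Multiplicative (V n) × Γ)) ≤ 2 ^ n := by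
      refine Finset.card_image_le.trans (le_of_eq ?_)
      rw [Finset.card_univ, card_V']
    rw [one_mul]
    exact_mod_cast this
  refine ⟨Multiplicative (V n) × Γ, inferInstance, fun p => Multiplicative.toAdd p.1,
    univ.image fun x => (Multiplicative.ofAdd x, φ x),
    univ.image fun y => (Multiplicative.ofAdd y, ψ y),
    univ.image fun w => (Multiplicative.ofAdd w, χ w), L, inferInstance, inferInstance, a, b, c,
    fun g h k => ?_, fun p q => ?_, hc _, hc _, hc _, fun x y => ?_⟩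
  · refine Prod.ext ?_ (hcl g.2 h.2 k.2)
    exact mul_comm _ _
  · rfl
  rw [h]
  refine and_congr ?_ Iff.rfl
  constructor
  · intro h1
    refine ⟨_, mem_image_of_mem _ (mem_univ x), _, mem_image_of_mem _ (mem_univ y),
      mem_image.2 ⟨x + y, mem_univ _, ?_⟩, rfl, rfl⟩
    refine Prod.ext rfl ?_
    exact h1.symm
  · rintro ⟨p, hp, q, hq, hr, h1, h2⟩
    obtain ⟨x', -, rfl⟩ := mem_image.1 hp
    obtain ⟨y', -, rfl⟩ := mem_image.1 hq
    obtain ⟨w, -, hw⟩ := mem_image.1 hr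
    have e1 : x' = x := h1
    have e2 : y' = y := h2
    subst e1 e2
    rw [Prod.mk_mul_mk, Prod.mk.injEq] at hw
    have e3 : w = x' + y' := hw.1
    rw [← e3]
    exact hw.2.symm

theorem main2 (hNIL : S_NIL) : ∃ C : ℕ, 0 < C ∧
    (∀ (n : ℕ) (M : ℝ) (N : ℕ) (E : Finset (V n × V n)), 1 ≤ M → 1 ≤ N → NilLift M N E →
      (density E / (2 * (M * N))) ^ C * 8 ^ n ≤ corners E) ∧
    (∀ (n : ℕ) (M : ℝ) (E : Finset (V n × V n)), 1 ≤ M → IsLifted M E →
      ∃ X Y Z : Finset (V n), box X Y Z ⊆ E ∧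
        (density E / (2 * M)) ^ C * 4 ^ n ≤ #(box X Y Z)) := by
  obtain ⟨C, hC, hcorn, hbox⟩ := main CEN1.main
  obtain ⟨e, he⟩ : ∃ e, S_AFF e := ⟨_, AFF.main⟩
  refine ⟨(14 * (e + 1) + 1) * C, by positivity, fun n M N E hM hN hE => ?_,
    fun n M E hM hE => ?_⟩
  · exact nil_corners hNIL he hN (fun E' hE' => hcorn n 1 N E' le_rfl hN hE') E M hM hE
  · obtain ⟨X, Y, Z, h1, h2⟩ := hbox n M E hM hE
    refine ⟨X, Y, Z, h1, le_trans (mul_le_mul_of_nonneg_right ?_ (by positivity)) h2⟩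
    obtain ⟨h3, h4⟩ := density_div_le E M hM
    exact pow_le_pow_of_le_one h3 h4 (Nat.le_mul_of_pos_left C (by omega))

/-- the covering bound -/
theorem cover2 {C : ℕ} (hC : 0 < C) {n N : ℕ} {M : ℝ} (hM : 1 ≤ M) (hN : 1 ≤ N)
    (hm : ∀ E : Finset (V n × V n), NilLift M N E →
      (density E / (2 * (M * N))) ^ C * 8 ^ n ≤ corners E) (T : ℕ) (s : ℝ)
    (A : Finset (V n × V n)) (E : Fin T → Finset (V n × V n)) (hA : CornerFree A)
    (hE : ∀ i, NilLift M N (E i)) (hs : ∀ i, (#(E i \ A) : ℝ) ≤ s)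
    (hcov : ∀ p ∈ A, ∃ i, p ∈ E i) :
    (#A : ℝ) ≤ 2 * T * (M * N) * 4 ^ n * ((3 * s + 2 ^ n) / 4 ^ n) ^ (1 / (C : ℝ)) := by
  classical
  have hN1 : (1 : ℝ) ≤ N := by exact_mod_cast hN
  have h1 : A ⊆ univ.biUnion E := fun p hp => by
    obtain ⟨i, hi⟩ := hcov p hp
    exact mem_biUnion.2 ⟨i, mem_univ _, hi⟩
  have h2 : (#A : ℝ) ≤ ∑ i, (#(E i) : ℝ) := by
    have := (Finset.card_le_card h1).trans Finset.card_biUnion_le
    exact_mod_cast this
  refine h2.trans ((Finset.sum_le_sum fun i _ =>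
    twisted_bound hC.ne' (by nlinarith) A (E i) hA (hm (E i) (hE i)) s (hs i)).trans (le_of_eq ?_))
  rw [Finset.sum_const, Finset.card_univ, Fintype.card_fin, nsmul_eq_mul]
  ring

theorem cover2' {C : ℕ} (hC : 0 < C) {n N : ℕ} {M : ℝ} (hM : 1 ≤ M) (hN : 1 ≤ N)
    (hm : ∀ E : Finset (V n × V n), NilLift M N E →
      (density E / (2 * (M * N))) ^ C * 8 ^ n ≤ corners E) (T : ℕ)
    (A : Finset (V n × V n)) (E : Fin T → Finset (V n × V n)) (hA : CornerFree A)
    (hE : ∀ i, NilLift M N (E i)) (hAE : ∀ p, p ∈ A ↔ ∃ i, p ∈ E i) :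
    (#A : ℝ) ≤ 2 * T * (M * N) * 4 ^ ((1 - 1 / (2 * (C : ℝ))) * n) := by
  classical
  have h4 := cover2 hC hM hN hm T 0 A E hA hE (fun i => by
    have : E i \ A = ∅ := sdiff_eq_empty_iff_subset.2 fun p hp => (hAE p).2 ⟨i, hp⟩
    rw [this]; simp) (fun p hp => (hAE p).1 hp)
  refine h4.trans (le_of_eq ?_)
  have hC' : (0 : ℝ) < C := by exact_mod_cast hC
  have e1 : (2 : ℝ) ^ n / 4 ^ n = (4 : ℝ) ^ (-(n : ℝ) / 2) := by
    have e2 : (2 : ℝ) ^ n = (4 : ℝ) ^ ((n : ℝ) / 2) := by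
      rw [show (4 : ℝ) = (2 : ℝ) ^ (2 : ℝ) by norm_num, ← Real.rpow_mul (by norm_num),
        ← Real.rpow_natCast]
      congr 1; ring
    rw [e2, ← Real.rpow_natCast 4 n, ← Real.rpow_sub (by norm_num)]
    congr 1; ring
  rw [mul_zero, zero_add, e1, ← Real.rpow_mul (by norm_num), mul_assoc (2 * (T : ℝ) * (M * N)),
    ← Real.rpow_natCast 4 n, ← Real.rpow_add (by norm_num)]
  congr 2
  field_simp
  ring

end Pool.Agent.Helper55.BT
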