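import Pool.Agent.Helper55.BT.Stm

/-!
# A biadditive map which is symmetric modulo a small subgroup `W` is the sum of a symmetric one and one
with values in `W`
-/

set_option autoImplicit false

open Module

namespace Pool.Agent.Helper55.BT.Split

theorem add_self_V {n : ℕ} (x : V n) : x + x = 0 := by
  funext i
  exact CharTwo.add_self_eq_zero (x i)

theorem two_tors {n : ℕ} {K : Type} [AddCommGroup K] (B : V n →+ V n →+ K) (x y : V n) :
    B x y + B x y = 0 := by
  rw [← map_add, add_self_V, map_zero]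

theorem split {n : ℕ} {K : Type} [AddCommGroup K] (B : V n →+ V n →+ K) (W : AddSubgroup K)
    (hWf : (W : Set K).Finite) (hW2 : ∀ w ∈ W, w + w = 0) (hD : ∀ x y, B x y - B y x ∈ W) :
    ∃ (w : ℕ) (β : V n →+ V n →+ (Fin w → ZMod 2)) (B' : V n →+ V n →+ K)
      (k : (Fin w → ZMod 2) →+ K), Nat.card W = 2 ^ w ∧ Function.Injective k ∧
      (∀ x y, B x y = k (β x y) + B' x y) ∧ ∀ x y, B' x y = B' y x := by
  classical
  let K2 : AddSubgroup K := (AddMonoidHom.id K + AddMonoidHom.id K).ker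
  have hK2 : ∀ k : K, k ∈ K2 ↔ k + k = 0 := fun k => by
    simp [K2, AddMonoidHom.mem_ker]
  let _ : Module (ZMod 2) K2 := AddCommGroup.zmodModule (n := 2) (fun x => by
    rw [two_nsmul]
    exact Subtype.ext ((hK2 x.1).1 x.2))
  let W' : Submodule (ZMod 2) K2 := AddSubgroup.toZModSubmodule 2 (W.addSubgroupOf K2)
  have hWle : W ≤ K2 := fun w hw => (hK2 w).2 (hW2 w hw)
  have hmem : ∀ k : K2, k ∈ W' ↔ (k : K) ∈ W := fun k => by
    change k ∈ AddSubgroup.toZModSubmodule 2 (W.addSubgroupOf K2) ↔ _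
    rw [AddSubgroup.mem_toZModSubmodule, AddSubgroup.mem_addSubgroupOf]
  have hWfin : Finite W := hWf
  let eq1 : W' ≃ W :=
    { toFun := fun x => ⟨x.1.1, (hmem x.1).1 x.2⟩
      invFun := fun x => ⟨⟨x.1, hWle x.2⟩, (hmem _).2 x.2⟩
      left_inv := fun x => rfl
      right_inv := fun x => rfl }
  have hW'fin : Finite W' := Finite.of_equiv _ eq1.symm
  have hfd : FiniteDimensional (ZMod 2) W' := Module.Finite.of_finite
  obtain ⟨π, hπ⟩ := LinearMap.exists_leftInverse_of_injective W'.subtype (Submodule.ker_subtype _)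
  have hπ' : ∀ x : W', π x.1 = x := fun x => by
    have := LinearMap.congr_fun hπ x
    simpa using this
  let e : W' ≃ₗ[ZMod 2] (Fin (finrank (ZMod 2) W') → ZMod 2) :=
    (finBasis (ZMod 2) W').equivFun
  have hBm : ∀ x y, B x y ∈ K2 := fun x y => (hK2 _).2 (two_tors B x y)
  let β : V n →+ V n →+ (Fin (finrank (ZMod 2) W') → ZMod 2) :=
    AddMonoidHom.mk' (fun x => AddMonoidHom.mk' (fun y => e (π ⟨B x y, hBm x y⟩)) (fun y y' => by
      rw [← map_add, ← map_add]
      congr 2
      exact Subtype.ext (map_add _ _ _))) (fun x x' => by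
      refine DFunLike.ext _ _ fun y => ?_
      change e (π ⟨B (x + x') y, hBm _ _⟩) = e (π ⟨B x y, hBm _ _⟩) + e (π ⟨B x' y, hBm _ _⟩)
      rw [← map_add, ← map_add]
      congr 2
      apply Subtype.ext
      change B (x + x') y = B x y + B x' y
      rw [map_add, AddMonoidHom.add_apply])
  let k : (Fin (finrank (ZMod 2) W') → ZMod 2) →+ K :=
    (K2.subtype.comp W'.subtype.toAddMonoidHom).comp e.symm.toAddEquiv.toAddMonoidHom
  have hk : ∀ v, k v = ((e.symm v : W') : K2).1 := fun v => rfl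
  have hβ : ∀ x y, β x y = e (π ⟨B x y, hBm x y⟩) := fun x y => rfl
  let kβ : V n →+ V n →+ K :=
    AddMonoidHom.mk' (fun x => k.comp (β x)) (fun x x' => by
      refine DFunLike.ext _ _ fun y => ?_
      change k (β (x + x') y) = k (β x y) + k (β x' y)
      rw [map_add, AddMonoidHom.add_apply, map_add])
  have hkβ : ∀ x y, kβ x y = k (β x y) := fun x y => rfl
  refine ⟨finrank (ZMod 2) W', β, B - kβ, k, ?_, ?_, ?_, ?_⟩
  · rw [← Nat.card_congr eq1, Module.natCard_eq_pow_finrank (K := ZMod 2)]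
    simp
  · intro u v h
    rw [hk, hk] at h
    exact e.symm.injective (Subtype.ext (Subtype.ext h))
  · intro x y
    rw [AddMonoidHom.sub_apply, AddMonoidHom.sub_apply, hkβ]
    abel
  · intro x y
    rw [AddMonoidHom.sub_apply, AddMonoidHom.sub_apply, AddMonoidHom.sub_apply,
      AddMonoidHom.sub_apply, hkβ, hkβ]
    have h1 : k (β x y) - k (β y x) = B x y - B y x := by
      rw [← map_sub, hβ, hβ, ← map_sub, ← map_sub, hk, LinearEquiv.symm_apply_apply]
      have h2 : (⟨B x y, hBm x y⟩ : K2) - ⟨B y x, hBm y x⟩ ∈ W' := by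
        rw [hmem]
        exact hD x y
      have h3 := hπ' ⟨_, h2⟩
      rw [h3]
      rfl
    have h4 : B x y - k (β x y) - (B y x - k (β y x)) =
        (B x y - B y x) - (k (β x y) - k (β y x)) := by abel
    rw [← sub_eq_zero, h4, h1, sub_self]

end Pool.Agent.Helper55.BT.Split
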