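import Mathlib

/-!
# Project BT (MP_db4732_co.BilinearTwists, helper55): module statements

Goal: a corner-free set `{(x, y) : F(x) + G(y) + H(x + y) = B(x, y)}` in `(F_2^n)^2` (`F`, `G`, `H`
arbitrary functions to an arbitrary abelian group `K`, `B` biadditive, not symmetric) has at most
`C 4^((1 - c) n)` points. Main tool: for a bilinear map over `F_2` the slice rank is at most a
constant times the analytic rank; the elementary proof is split into `AVG`, `ITER`, `LIN`.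
-/

set_option autoImplicit false

open Finset Module

namespace Pool.Agent.Helper55.BT

/-- `F_2^n` -/
abbrev V (n : ℕ) := Fin n → ZMod 2

/-- States `p` (pairs `(U, W)` of subspaces) with a rank `ρ p a` of every `a` (the rank of
`D a : U → K / W`); `cmp p q b` is the state `q = (U', W')` compressed by `b` relative to the base
`p = (U, W)`: `(U' ∩ {x | D b x ∈ W}, W' + D b U)`; `Abs p q c`: `D c U' ⊆ W`, `D c U ⊆ W'`. -/
structure RankSystem (V P : Type) [AddCommGroup V] where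
  le : P → P → Prop
  ρ : P → V → ℕ
  cmp : P → P → V → P
  cost : P → ℕ
  Abs : P → P → V → Prop
  refl : ∀ p, le p p
  trans : ∀ p q s, le p q → le q s → le p s
  mono : ∀ p q a, le p q → ρ p a ≤ ρ q a
  cmp_le : ∀ p q b, le (cmp p q b) q
  cmp_mono : ∀ p p' q q' b, le p' p → le q q' → le (cmp p q b) (cmp p' q' b)
  cost_cmp : ∀ p q b, le q p → cost (cmp p q b) ≤ cost q + 2 * ρ p b
  zero : ∀ p, ρ p 0 = 0
  subadd : ∀ p a b, ρ p (a + b) ≤ ρ p a + ρ p b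
  abs_zero : ∀ p, Abs p p 0
  abs_cmp : ∀ p q c b, Abs p q c → Abs p (cmp p q b) (c + b)
  add_le : ∀ p q c b, le q p → Abs p q c → ρ p c + 2 * ρ q b ≤ ρ p (c + b) + ρ p b
  defect : ∀ p a b, ρ (cmp p p (a + b)) a + ρ p (a + b) ≤ ρ p a + ρ p b

/-- `g_0 (q) = E_{a ∈ S} ρ q a`, `g_{j+1} (q) = E_{b ∈ S} g_j (cmp p q b)` (relative to the base `p`) -/
noncomputable def g {V P : Type} [AddCommGroup V] (R : RankSystem V P) (S : Finset V) (p : P) :
    ℕ → P → ℝ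
  | 0, q => (∑ a ∈ S, (R.ρ q a : ℝ)) / S.card
  | j + 1, q => (∑ b ∈ S, g R S p j (R.cmp p q b)) / S.card

/-- AVG1. Let `η = 1 / (8 m)`, `g_j = g R S p₀ j`, which decreases in `j` (cmp_le, cmp_mono, mono);
`g_0 (p₀) ≤ r`. Case A: `g_{(i+1) m} (p₀) < (1 - η) g_{i m} (p₀)` for all `i < 16 m`. Then
`g_{16 m²} (p₀) ≤ r / 4` (as `(1 - 1/(8m))^(16 m) ≤ e^(-2) < 1/4`), so some state `q` reachable from `p₀`
by `16 m²` compressions (relative to `p₀`, by elements of `S`; cost at most `2 r` each) has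
`g_0 (q) ≤ r / 4`. Case B: some `i < 16 m` has `g_{(i+1) m} (p₀) ≥ (1 - η) g_{i m} (p₀)`, i.e.
`T^{i m} (g_m - (1 - η) g_0) (p₀) ≥ 0`, `(T h)(q) = E_{b ∈ S} h (cmp p₀ q b)`, so a state `q ≤ p₀` reachable
by `i m` compressions has `g_m (q) ≥ (1 - η) g_0 (q)`. By `cmp_mono` (`q ≤ p₀`) the same holds with the
base `q` in place of the base `p₀`. -/
def S_AVG1 : Prop :=
  ∀ (V P : Type) [AddCommGroup V] [Fintype V] (R : RankSystem V P) (p₀ : P) (S : Finset V)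
    (r m : ℕ), S.Nonempty → 2 ≤ m → (∀ a ∈ S, R.ρ p₀ a ≤ r) →
    ∃ q : P, R.le q p₀ ∧ R.cost q ≤ R.cost p₀ + 32 * m ^ 2 * r ∧
      (g R S p₀ 0 q ≤ r / 4 ∨ (1 - 1 / (8 * m)) * g R S q 0 q ≤ g R S q m q)

/-- AVG2. Let `φ = g R S q 0 q ≤ r`. For a random tuple `a_1, ..., a_m` of `S` put
`Δ = ∑ ρ q a_i - ρ q (∑ a_i) ≥ 0` (subadd). By `add_le`, `abs_cmp` (compress relative to `q`, starting with
`q`, `abs_zero`) `E ρ q (∑ a_i) ≥ ∑_{i<m} (2 g_i (q) - φ) ≥ m (1 - 2η) φ` (induction on the number of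
summands: if `le q' q`, `Abs q q' c`, then `E ρ q (c + ∑_{i<k} a_i) ≥ ρ q c + ∑_{i<k} 2 g_i (q') - k φ`;
`g_i (q) ≥ g_m (q)`), so `E Δ ≤ 2 m η φ = φ / 4`, and at least half of the tuples have `Δ ≤ φ / 2 ≤ r / 2`
(Markov; if `φ = 0` then `Δ = 0`). Some `c` is `∑ a_i` for at least `|S|^m / (2 |V|)` of these tuples. By
`defect` (with `a = a_i`, `b = c - a_i`) and `subadd` all entries `a` of these tuples have
`ρ (cmp q q c) a ≤ Δ ≤ r / 2`. Let `S'` be the set of the `a ∈ S` with `2 ρ (cmp q q c) a ≤ r`; then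
`|S'|^(m-1) ≥ |S|^m / (2 |V|)`, as a tuple with given sum is given by its first `m - 1` entries. -/
def S_AVG2 : Prop :=
  ∀ (V P : Type) [AddCommGroup V] [Fintype V] (R : RankSystem V P) (q : P) (S : Finset V)
    (r m : ℕ), S.Nonempty → 2 ≤ m → (∀ a ∈ S, R.ρ q a ≤ r) →
    (1 - 1 / (8 * m)) * g R S q 0 q ≤ g R S q m q →
    ∃ (c : V) (S' : Finset V), S' ⊆ S ∧ R.ρ q c ≤ m * r ∧
      (∀ a ∈ S', 2 * R.ρ (R.cmp q q c) a ≤ r) ∧
      S.card ^ m ≤ 2 * Fintype.card V * S'.card ^ (m - 1)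

/-- AVG (from AVG1 and AVG2). If `g R S p₀ 0 q ≤ r / 4`, then at least half of the `a ∈ S` have
`2 ρ q a ≤ r` (Markov) and `|S|^m ≤ |V| 2^(m-1) |S'|^(m-1)`. Otherwise AVG2 and the state
`cmp q q c`, cost at most `32 m² r + 2 m r`. -/
def S_AVG : Prop :=
  ∀ (V P : Type) [AddCommGroup V] [Fintype V] (R : RankSystem V P) (p₀ : P) (S : Finset V)
    (r m : ℕ), S.Nonempty → 2 ≤ m → (∀ a ∈ S, R.ρ p₀ a ≤ r) →
    ∃ (q : P) (S' : Finset V), S' ⊆ S ∧ R.le q p₀ ∧ R.cost q ≤ R.cost p₀ + 34 * m ^ 2 * r ∧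
      (∀ a ∈ S', 2 * R.ρ q a ≤ r) ∧
      S.card ^ m ≤ 2 ^ m * Fintype.card V * S'.card ^ (m - 1)

/-- ITER. Apply `S_AVG` with `m = (t + 2)^2`, `t = 0, 1, ..., T - 1`, `2^T ≤ 2 r < 2^(T+1)`; the ranks
are `≤ r / 2^t`. Cost: `∑ 34 (t + 2)^4 r / 2^t ≤ 20400 r` (`∑_{s ≥ 2} s^4 / 2^(s-2) = 598`). Densities
`σ_t = |S_t| / |V|`: `σ_{t+1} ≥ (σ_t / 2)^(m/(m-1))`, and `∏ m/(m-1) = 2` (telescoping), so
`σ_T ≥ (σ_0 / 2^T)^2`. -/
def S_ITER : Prop :=
  ∀ (V P : Type) [AddCommGroup V] [Fintype V] (R : RankSystem V P) (p₀ : P) (S : Finset V)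
    (r : ℕ), S.Nonempty → (∀ a ∈ S, R.ρ p₀ a ≤ r) →
    ∃ (q : P) (S' : Finset V), S' ⊆ S ∧ R.le q p₀ ∧ R.cost q ≤ R.cost p₀ + 20400 * r ∧
      (∀ a ∈ S', R.ρ q a = 0) ∧
      S.card ^ 2 ≤ (2 * (r + 1)) ^ 2 * Fintype.card V * S'.card

/-- LIN (linear algebra): the rank system of a bilinear map. -/
def S_LIN : Prop :=
  ∀ (V Ω K : Type) [AddCommGroup V] [Module (ZMod 2) V] [AddCommGroup Ω] [Module (ZMod 2) Ω]
    [Finite Ω] [AddCommGroup K] [Module (ZMod 2) K] [Finite K]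
    (D : V →ₗ[ZMod 2] Ω →ₗ[ZMod 2] K),
    ∃ R : RankSystem V (Submodule (ZMod 2) Ω × Submodule (ZMod 2) K),
      (∀ p a, R.ρ p a = finrank (ZMod 2) ((p.1.map (D a)).map p.2.mkQ)) ∧
      ∀ p, R.cost p = (finrank (ZMod 2) Ω - finrank (ZMod 2) p.1) + finrank (ZMod 2) p.2

/-- SLICE (from ITER and LIN): a biased biadditive map vanishes, modulo a small subgroup, on a large
subspace. Let `S` be the set of the `a` with `|D a V| ≤ 2/ε`: `|S| ≥ (ε/2) |V|`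
(`∑_a |V| / |D a V| ≥ ε |V|²`). LIN applied to `D : V n → V n → K₂`, `K₂` the (finite, exponent two)
subgroup generated by the values of `D` (or the range of `(Fin n × Fin n → ZMod 2) →+ K`), ITER with
`r ≈ log₂ (2/ε)`, then `{a | D a U ⊆ W}` is a subspace with at least `|S'|` elements; intersect it with
`U`. -/
def S_SLICE : Prop :=
  ∃ C : ℕ, ∀ (n : ℕ) (K : Type) [AddCommGroup K] (D : V n →+ V n →+ K) (ε : ℝ), 0 < ε → ε ≤ 1 →
    ε * 4 ^ n ≤ (Set.ncard {p : V n × V n | D p.1 p.2 = 0} : ℝ) →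
    ∃ (U : Submodule (ZMod 2) (V n)) (W : AddSubgroup K), (W : Set K).Finite ∧
      (∀ w ∈ W, w + w = 0) ∧ (Nat.card W : ℝ) ≤ (2 / ε) ^ C ∧
      (n : ℝ) ≤ finrank (ZMod 2) U + C * Real.logb 2 (2 / ε) ∧
      ∀ x ∈ U, ∀ y ∈ U, D x y ∈ W

/-- B1. For `h ∈ V` let `E_h = {(x, y) : (x, y), (x + h, y + h) ∈ E}`, `∑_h |E_h| ≥ δ² N³`
(Cauchy-Schwarz over `x + y`). On `E_h`: `α_h (x) + β_h (y) = 0` with
`α_h x = F x - F (x + h) - B x h`, `β_h y = G y - G (y + h) - B h y - B h h` (values of `B` are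
2-torsion as `x + x = 0`). Choose `y_h` with at least `|E_h| / N` points `(x, y_h) ∈ E_h`;
`c h = - β_h (y_h)`. -/
def S_B1 : Prop :=
  ∀ (V K : Type) [AddCommGroup V] [Fintype V] [AddCommGroup K], (∀ v : V, v + v = 0) →
    ∀ (B : V →+ V →+ K) (F G H : V → K) (E : Finset (V × V)) (δ : ℝ), 0 ≤ δ →
    (∀ p ∈ E, F p.1 + G p.2 + H (p.1 + p.2) = B p.1 p.2) →
    δ * (Fintype.card V : ℝ) ^ 2 ≤ E.card →
    ∃ (c : V → K) (Q : Finset (V × V)), (∀ p ∈ Q, F p.1 - F (p.1 + p.2) = B p.1 p.2 + c p.2) ∧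
      δ ^ 2 * (Fintype.card V : ℝ) ^ 2 ≤ Q.card

/-- B2. `T(x, u) = F x - F (x + u) - B x u`. Bipartite graph: `x` and `z` adjacent iff
`(x, x + z) ∈ Q`. If `x`, `x' = x + u` have the common neighbour `z` and `a = x + z`, then
`T(x, u) = B u a + B u u + c a - c (a + u) =: τ u a`. `(x, x')` is good if it has at least `ε N` common
neighbours (`ε = q³/100`); then `T(x, u) ∈ Val u := {κ : #{a : τ u a = κ} ≥ ε N}`, `|Val u| ≤ 1/ε`.
Neighbourhood of a random `z`: there is a set `X`, `|X| ≥ (q/√2) N`, such that at most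
`(2ε/q²) |X|²` pairs of `X` are not good. There are at least `(|X|/N)^4 N³` parallelograms
`x, x + u, x + u', x + u + u'` in `X`; at least half of them have the four good pairs `(x, x+u)`,
`(x+u', x+u+u')`, `(x, x+u')`, `(x+u, x+u+u')`. Then
`F x - F (x+u) - F (x+u') + F (x+u+u') = T(x,u) - T(x+u',u) + B u' u = T(x,u') - T(x+u,u') + B u u'`,
so `B u u' - B u' u` is a difference of elements of `Val u`, plus a difference of elements of `Val u'`.
Number the elements of `Val u`; for some choice of the four numbers this holds with these numbers for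
many `(u, u')`. -/
def S_B2 : Prop :=
  ∃ C : ℕ, ∀ (V K : Type) [AddCommGroup V] [Fintype V] [AddCommGroup K], (∀ v : V, v + v = 0) →
    ∀ (B : V →+ V →+ K) (F c : V → K) (Q : Finset (V × V)) (q : ℝ), 0 < q → q ≤ 1 →
    (∀ p ∈ Q, F p.1 - F (p.1 + p.2) = B p.1 p.2 + c p.2) →
    q * (Fintype.card V : ℝ) ^ 2 ≤ Q.card →
    ∃ (ζ ζ' : V → K) (D : Finset (V × V)),
      (∀ p ∈ D, B p.1 p.2 - B p.2 p.1 = ζ p.1 + ζ' p.2) ∧
      (q / 2) ^ C * (Fintype.card V : ℝ) ^ 2 ≤ D.card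

/-- B3. Count the `(u₁, u₂, u₁', u₂')` with all `(u_i, u_j') ∈ D` (Cauchy-Schwarz twice: at least
`ρ^4 N^4`); then `T (u₁ - u₂) (u₁' - u₂') = 0`. -/
def S_B3 : Prop :=
  ∀ (V K : Type) [AddCommGroup V] [Fintype V] [AddCommGroup K] (T : V →+ V →+ K)
    (ζ ζ' : V → K) (D : Finset (V × V)) (ρ : ℝ), 0 ≤ ρ →
    (∀ p ∈ D, T p.1 p.2 = ζ p.1 + ζ' p.2) → ρ * (Fintype.card V : ℝ) ^ 2 ≤ D.card →
    ρ ^ 4 * (Fintype.card V : ℝ) ^ 2 ≤ (Set.ncard {p : V × V | T p.1 p.2 = 0} : ℝ)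

/-- SYM. A symmetric biadditive map on `F_2^n` is a coboundary in a larger group. With
`β i j = B (e i) (e j)` (2-torsion): `q₁ x = ∑_{i<j} x i x j β i j`; for the diagonal
`K' = (K × (Fin n → ZMod 4)) ⧸ {(∑ ε i β i i, 2 ε)}` (`K` embeds), `γ i` the class of `(0, e i)`,
`q₂ x = ∑ (x i).val • γ i` (up to sign), `q₂ (x + y) - q₂ x - q₂ y = ∑ x i y i β i i`. -/
def S_SYM : Prop :=
  ∀ (n : ℕ) (K : Type) [AddCommGroup K] (B : V n →+ V n →+ K), (∀ x y, B x y = B y x) →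
    ∃ (K' : Type) (_ : AddCommGroup K') (j : K →+ K') (q : V n → K'), Function.Injective j ∧
      ∀ x y, j (B x y) = q (x + y) - q x - q y

/-- RK. The matrix `[β x y = κ]` over `F_2` has rank at most `∑_{i ≤ w} C(n, i)`: it is the product
over the `w` coordinates of `1 + κ i + β x y i`, a polynomial of degree at most `w` in `y`. -/
def S_RK : Prop :=
  ∀ (n w : ℕ) (β : V n →+ V n →+ (Fin w → ZMod 2)) (κ : Fin w → ZMod 2),
    ∃ u v : Fin (∑ i ∈ range (w + 1), n.choose i) → V n → ZMod 2,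
      ∀ x y, (if β x y = κ then (1 : ZMod 2) else 0) = ∑ j, u j x * v j y

end Pool.Agent.Helper55.BT
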