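import Pool.Agent.Helper55.BT.Core

/-!
# Corner-free sets given by an equation whose bilinear part is symmetric modulo a small subgroup
-/

set_option autoImplicit false

open Module

namespace Pool.Agent.Helper55.BT

open Finset hiding box
open Pool.Agent.Helper45.AE (box CornerFree corners density)

theorem on_sub (hSY : S_SYM) (hRK : S_RK) (e : ℕ)
    (he : ∀ (m : ℕ) (K : Type) [AddCommGroup K] (F G H : V m → K)
      (A A0 : Finset (V m × V m)), A0 ⊆ A → (∀ p, p ∈ A ↔ F p.1 + G p.2 + H (p.1 + p.2) = 0) →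
      ∀ δ : ℝ, 0 < δ → δ ≤ 1 → δ * 4 ^ m ≤ #A0 →
      ∃ X Y Z : Finset (V m), box X Y Z ⊆ A ∧ (δ / 2) ^ e * 4 ^ m ≤ #(A0 ∩ box X Y Z))
    {m N : ℕ} (K : Type) [AddCommGroup K] (F G H : V m → K) (B : V m →+ V m →+ K)
    (L : Type) [Field L] [CharP L 2] (a b c : Fin N → V m → L) (E : Finset (V m × V m))
    (hE : ∀ x y, (x, y) ∈ E ↔ F x + G y + H (x + y) = B x y ∧
      ∑ i, a i x * b i y * c i (x + y) ≠ 0) (hcf : CornerFree E)
    (W : AddSubgroup K) (hWf : (W : Set K).Finite) (hW2 : ∀ w ∈ W, w + w = 0)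
    (hD : ∀ x y, B x y - B y x ∈ W) (δ : ℝ) (hδ : 0 < δ) (hδ1 : δ ≤ 1) (hd : δ * 4 ^ m ≤ #E)
    (hN : 1 ≤ N) :
    (δ / 2) ^ e * (4 : ℝ) ^ ((0.03 : ℝ) * m) ≤ 3 * N * (Nat.card W : ℝ) ^ (e + 7) := by
  classical
  obtain ⟨w, β, B', k, hWc, hk, hB, hB'⟩ := Split.split B W hWf hW2 hD
  obtain ⟨K', _, j, q, hj, hq⟩ := hSY m K B' hB'
  -- the value of `β`
  obtain ⟨κ, hκ⟩ : ∃ κ : Fin w → ZMod 2, #E ≤ 2 ^ w * #(E.filter fun p => β p.1 p.2 = κ) := by
    have h1 : #E = ∑ κ : Fin w → ZMod 2, #(E.filter fun p => β p.1 p.2 = κ) :=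
      Finset.card_eq_sum_card_fiberwise (fun p _ => mem_coe.2 (mem_univ _))
    have h2 : Fintype.card (Fin w → ZMod 2) = 2 ^ w := card_V' w
    obtain ⟨κ, -, hκ⟩ := Finset.exists_le_of_sum_le (s := (univ : Finset (Fin w → ZMod 2)))
      (f := fun _ => #E) (g := fun κ => 2 ^ w * #(E.filter fun p => β p.1 p.2 = κ))
      ⟨0, mem_univ _⟩ (by
        rw [Finset.sum_const, Finset.card_univ, h2, ← Finset.mul_sum, ← h1, smul_eq_mul])
    exact ⟨κ, hκ⟩
  set E0 := E.filter fun p => β p.1 p.2 = κ with hE0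
  set F' : V m → K' := fun x => j (F x - k κ) + q x with hF'
  set G' : V m → K' := fun y => j (G y) + q y with hG'
  set H' : V m → K' := fun z => j (H z) - q z with hH'
  have hrel : ∀ x y, F' x + G' y + H' (x + y) =
      j (F x + G y + H (x + y) - B x y + (k (β x y) - k κ)) := by
    intro x y
    have h1 : F x + G y + H (x + y) - B x y + (k (β x y) - k κ) =
        (F x - k κ) + G y + H (x + y) - B' x y := by
      rw [hB x y]; abel
    rw [h1, map_sub, hq]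
    simp only [hF', hG', hH', map_add]
    abel
  set A : Finset (V m × V m) := univ.filter fun p => F' p.1 + G' p.2 + H' (p.1 + p.2) = 0 with hA
  have hAm : ∀ p, p ∈ A ↔ F' p.1 + G' p.2 + H' (p.1 + p.2) = 0 := fun p => by
    rw [hA, mem_filter]; simp
  have hE0A : E0 ⊆ A := by
    intro p hp
    obtain ⟨h1, h2⟩ := mem_filter.1 hp
    have h3 := ((hE p.1 p.2).1 h1).1
    rw [hAm, hrel, h2, h3, sub_self, sub_self, add_zero, map_zero]
  have h2w : (0 : ℝ) < 2 ^ w := by positivity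
  have h2w1 : (1 : ℝ) ≤ 2 ^ w := one_le_pow₀ (by norm_num)
  obtain ⟨X, Y, Z, hbox, hbig⟩ := he m K' F' G' H' A E0 hE0A hAm (δ / 2 ^ w) (by positivity)
    ((div_le_one h2w).2 (hδ1.trans h2w1)) (by
      rw [div_mul_eq_mul_div, div_le_iff₀ h2w]
      have h1 : (#E : ℝ) ≤ 2 ^ w * #E0 := by exact_mod_cast hκ
      linarith)
  -- the rank
  obtain ⟨r, hr⟩ : ∃ r : ℕ, r = ∑ i ∈ range (w + 1), m.choose i := ⟨_, rfl⟩
  obtain ⟨u, v, huv⟩ : ∃ u v : Fin r → V m → ZMod 2, ∀ x y : V m,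
      (if β x y = κ then (1 : ZMod 2) else 0) = ∑ t, u t x * v t y := by
    rw [hr]; exact hRK m w β κ
  let φ : ZMod 2 →+* L := ZMod.castHom (dvd_refl 2) L
  have hmemE : ∀ x y, (x, y) ∈ E0 ∩ box X Y Z ↔
      x ∈ X ∧ y ∈ Y ∧ x + y ∈ Z ∧ β x y = κ ∧ ∑ i, a i x * b i y * c i (x + y) ≠ 0 := by
    intro x y
    rw [mem_inter, hE0, mem_filter, hE]
    have hb : (x, y) ∈ box X Y Z ↔ x ∈ X ∧ y ∈ Y ∧ x + y ∈ Z := by
      simp [Pool.Agent.Helper45.AE.box]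
    rw [hb]
    constructor
    · rintro ⟨⟨⟨-, h1⟩, h2⟩, h3, h4, h5⟩
      exact ⟨h3, h4, h5, h2, h1⟩
    · rintro ⟨h3, h4, h5, h2, h1⟩
      refine ⟨⟨⟨?_, h1⟩, h2⟩, h3, h4, h5⟩
      have h6 := (hAm (x, y)).1 (hbox (hb.2 ⟨h3, h4, h5⟩))
      rw [hrel] at h6
      have h7 := hj (h6.trans (map_zero j).symm)
      simp only at h7
      rw [h2, sub_self, add_zero] at h7
      exact sub_eq_zero.1 h7
  have hsub : E0 ∩ box X Y Z ⊆ E := fun p hp => (mem_filter.1 (mem_inter.1 hp).1).1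
  have key := Pool.Agent.Results.MP_db4732_co.ThreePartyRank.result m 1 N r L (E0 ∩ box X Y Z)
    (fun _ x y => ∑ i, (∑ t, ((if x ∈ X then (1 : L) else 0) * φ (u t x) * a i x) *
      ((if y ∈ Y then (1 : L) else 0) * φ (v t y) * b i y)) *
      ((if x + y ∈ Z then (1 : L) else 0) * c i (x + y)))
    (fun x y z hz hc => hz (hcf x y z (hsub hc.1) (hsub hc.2.1) (hsub hc.2.2)))
    (fun _ => ⟨fun i t x => (if x ∈ X then (1 : L) else 0) * φ (u t x) * a i x,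
      fun i t y => (if y ∈ Y then (1 : L) else 0) * φ (v t y) * b i y,
      fun i z => (if z ∈ Z then (1 : L) else 0) * c i z, fun x y => rfl⟩)
    (fun x y => by
      rw [hmemE]
      have h1 : (∑ i, (∑ t, ((if x ∈ X then (1 : L) else 0) * φ (u t x) * a i x) *
          ((if y ∈ Y then (1 : L) else 0) * φ (v t y) * b i y)) *
          ((if x + y ∈ Z then (1 : L) else 0) * c i (x + y))) =
          (if x ∈ X then (1 : L) else 0) * (if y ∈ Y then (1 : L) else 0) *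
          (if x + y ∈ Z then (1 : L) else 0) * (if β x y = κ then (1 : L) else 0) *
          ∑ i, a i x * b i y * c i (x + y) := by
        have h2 : (if β x y = κ then (1 : L) else 0) = ∑ t, φ (u t x) * φ (v t y) := by
          have h3 := congrArg φ (huv x y)
          rw [map_sum] at h3
          simp only [map_mul] at h3
          rw [← h3]
          split_ifs <;> simp
        rw [h2, Finset.mul_sum]
        refine Finset.sum_congr rfl fun i _ => ?_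
        rw [Finset.mul_sum, Finset.sum_mul, Finset.sum_mul]
        refine Finset.sum_congr rfl fun t _ => ?_
        ring
      rw [h1]
      simp only [exists_const]
      by_cases h3 : x ∈ X <;> by_cases h4 : y ∈ Y <;> by_cases h5 : x + y ∈ Z <;>
        by_cases h6 : β x y = κ <;> simp [h3, h4, h5, h6])
  obtain ⟨key1, key2⟩ := key
  have hcard : (#(E0 ∩ box X Y Z) : ℝ) ≤ N * (2 * r + 1) * (4 : ℝ) ^ ((1 - 0.04 : ℝ) * m) := by
    refine key1.trans ?_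
    rw [Nat.cast_one, one_mul]
    exact mul_le_mul_of_nonneg_left key2 (by positivity)
  have hN0 : (0 : ℝ) < N := by exact_mod_cast (by omega : 0 < N)
  have hr1 : (1 : ℝ) ≤ r := by
    have : 1 ≤ r := by
      rw [hr]
      calc 1 = m.choose 0 := by simp
        _ ≤ _ := Finset.single_le_sum (f := fun i => m.choose i) (fun _ _ => Nat.zero_le _)
          (mem_range.2 (Nat.succ_pos w))
    exact_mod_cast this
  have hr2 : (r : ℝ) ≤ 2 ^ (7 * w) * (4 : ℝ) ^ ((0.01 : ℝ) * m) := by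
    rw [hr]
    refine (binom_le m w).trans (mul_le_mul_of_nonneg_left ?_ (by positivity))
    rw [Real.rpow_mul (by norm_num), Real.rpow_natCast]
    refine pow_le_pow_left₀ (by norm_num) ?_ m
    have h1 : ((129 : ℝ) / 128) ^ (100 : ℕ) ≤ 4 := by norm_num
    have h2 : (129 / 128 : ℝ) = (((129 : ℝ) / 128) ^ (100 : ℕ)) ^ ((0.01 : ℝ)) := by
      rw [← Real.rpow_natCast, ← Real.rpow_mul (by norm_num)]
      norm_num
    rw [h2]
    exact Real.rpow_le_rpow (by positivity) h1 (by norm_num)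
  have h97 : (4 : ℝ) ^ ((0.01 : ℝ) * m) * (4 : ℝ) ^ ((1 - 0.04 : ℝ) * m) =
      (4 : ℝ) ^ ((0.97 : ℝ) * m) := by
    rw [← Real.rpow_add (by norm_num)]
    congr 1
    ring
  have h4m : (4 : ℝ) ^ m = (4 : ℝ) ^ ((0.03 : ℝ) * m) * (4 : ℝ) ^ ((0.97 : ℝ) * m) := by
    rw [← Real.rpow_add (by norm_num), ← Real.rpow_natCast]
    congr 1
    ring
  have h96 : (0 : ℝ) < (4 : ℝ) ^ ((1 - 0.04 : ℝ) * m) := by positivity
  have h97' : (0 : ℝ) < (4 : ℝ) ^ ((0.97 : ℝ) * m) := by positivity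
  have hfin : (δ / 2 ^ w / 2) ^ e * (4 : ℝ) ^ ((0.03 : ℝ) * m) ≤ 3 * N * 2 ^ (7 * w) := by
    have h1 : (δ / 2 ^ w / 2) ^ e * (4 : ℝ) ^ ((0.03 : ℝ) * m) * (4 : ℝ) ^ ((0.97 : ℝ) * m) ≤
        3 * N * 2 ^ (7 * w) * (4 : ℝ) ^ ((0.97 : ℝ) * m) := by
      calc (δ / 2 ^ w / 2) ^ e * (4 : ℝ) ^ ((0.03 : ℝ) * m) * (4 : ℝ) ^ ((0.97 : ℝ) * m)
          = (δ / 2 ^ w / 2) ^ e * 4 ^ m := by rw [h4m]; ring
        _ ≤ #(E0 ∩ box X Y Z) := hbig
        _ ≤ N * (2 * r + 1) * (4 : ℝ) ^ ((1 - 0.04 : ℝ) * m) := hcard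
        _ ≤ N * (3 * (2 ^ (7 * w) * (4 : ℝ) ^ ((0.01 : ℝ) * m))) *
            (4 : ℝ) ^ ((1 - 0.04 : ℝ) * m) := by
          refine mul_le_mul_of_nonneg_right (mul_le_mul_of_nonneg_left ?_ hN0.le) h96.le
          linarith
        _ = 3 * N * 2 ^ (7 * w) * ((4 : ℝ) ^ ((0.01 : ℝ) * m) *
            (4 : ℝ) ^ ((1 - 0.04 : ℝ) * m)) := by ring
        _ = _ := by rw [h97]
    exact le_of_mul_le_mul_right h1 h97'
  have hW' : (Nat.card W : ℝ) = 2 ^ w := by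
    rw [hWc]; push_cast; rfl
  rw [hW']
  have h5 : (δ / 2) ^ e = (δ / 2 ^ w / 2) ^ e * (2 ^ w) ^ e := by
    rw [← mul_pow]
    congr 1
    field_simp
  calc (δ / 2) ^ e * (4 : ℝ) ^ ((0.03 : ℝ) * m)
      = ((δ / 2 ^ w / 2) ^ e * (4 : ℝ) ^ ((0.03 : ℝ) * m)) * (2 ^ w) ^ e := by rw [h5]; ring
    _ ≤ (3 * N * 2 ^ (7 * w)) * (2 ^ w) ^ e := mul_le_mul_of_nonneg_right hfin (by positivity)
    _ = 3 * N * ((2 : ℝ) ^ w) ^ (e + 7) := by
      rw [pow_add, mul_comm 7 w, pow_mul]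
      ring

end Pool.Agent.Helper55.BT
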