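import Pool.Agent.Helper55.BT.Base

/-!
# Twisted additive equations: many corners
-/

set_option autoImplicit false

open Module

namespace Pool.Agent.Helper55.BT

open Finset hiding box
open Pool.Agent.Helper45.AE (box CornerFree corners density density_le lin lin_add pull nt sum_pull
  sum_nt card_le_four corners_le)

variable {n d : ℕ}

/-- pull-backs along translates of homomorphisms -/
theorem twisted_comp {m N : ℕ} {E : Finset (V n × V n)} (hT : Twisted N E) (a0 b0 : V n)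
    (ι : V m →+ V n) (E' : Finset (V m × V m))
    (hE'm : ∀ s t, (s, t) ∈ E' ↔ (a0 + ι s, b0 + ι t) ∈ E) : Twisted N E' := by
  obtain ⟨K, _, F, G, H, B, L, _, _, a, b, c, hE⟩ := hT
  refine ⟨K, ‹_›, fun s => F (a0 + ι s) - B (ι s) b0 - B a0 b0, fun t => G (b0 + ι t) - B a0 (ι t),
    fun r => H (a0 + b0 + ι r), AddMonoidHom.mk' (fun s => (B (ι s)).comp ι) (by
      intro s s'
      ext t
      simp),
    L, ‹_›, ‹_›, fun i s => a i (a0 + ι s), fun i t => b i (b0 + ι t),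
    fun i r => c i (a0 + b0 + ι r), fun s t => ?_⟩
  rw [hE'm, hE]
  have h5 : a0 + ι s + (b0 + ι t) = a0 + b0 + ι (s + t) := by rw [map_add]; abel
  rw [h5]
  refine and_congr ?_ Iff.rfl
  have h6 : B (a0 + ι s) (b0 + ι t) = B a0 b0 + B (ι s) b0 + B a0 (ι t) + B (ι s) (ι t) := by
    simp only [map_add, AddMonoidHom.add_apply]
    abel
  rw [h6, AddMonoidHom.mk'_apply, AddMonoidHom.comp_apply]
  beta_reduce
  constructor
  · intro h7
    rw [← sub_eq_zero] at h7 ⊢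
    rw [← h7]
    abel
  · intro h7
    rw [← sub_eq_zero] at h7 ⊢
    rw [← h7]
    abel

theorem twisted_pull {N : ℕ} {E : Finset (V n × V n)} (hE : Twisted N E) (x0 y0 : V n)
    (z : Fin d → V n) : Twisted N (pull E x0 y0 z) :=
  twisted_comp hE x0 y0 (AddMonoidHom.mk' (lin z) (lin_add z)) _ fun s t => by
    simp [pull]

/-- If the corner-free sets of the class in dimension `d` have at most `b` elements, then a set of
the class has many corners. -/
theorem varnavides {N : ℕ} (E : Finset (V n × V n)) (hE : Twisted N E) (b : ℝ)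
    (hb : ∀ B : Finset (V d × V d), Twisted N B → CornerFree B → (#B : ℝ) ≤ b) :
    ((#E : ℝ) - 4 ^ n * (b / 4 ^ d)) * 2 ^ n ≤ 8 ^ d * corners E := by
  classical
  set Ω := V n × V n × (Fin d → V n)
  have hb0 : 0 ≤ b := by
    have h := hb ∅ ?_ ?_
    · simpa using h
    · refine ⟨ℤ, inferInstance, fun _ => 1, fun _ => 0, fun _ => 0, 0, ZMod 2, inferInstance,
        inferInstance, fun _ _ => 0, fun _ _ => 0, fun _ _ => 0, fun x y => ?_⟩
      simp
    · intro x y z h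
      simp at h
  -- pointwise
  have h1 : ∀ ω : Ω, (#(pull E ω.1 ω.2.1 ω.2.2) : ℝ) ≤ 4 ^ d * #(nt (pull E ω.1 ω.2.1 ω.2.2)) + b := by
    intro ω
    by_cases hc : CornerFree (pull E ω.1 ω.2.1 ω.2.2)
    · have := hb _ (twisted_pull hE ω.1 ω.2.1 ω.2.2) hc
      have h3 : (0 : ℝ) ≤ 4 ^ d * #(nt (pull E ω.1 ω.2.1 ω.2.2)) := by positivity
      linarith
    · have h3 : 1 ≤ #(nt (pull E ω.1 ω.2.1 ω.2.2)) := by
        unfold CornerFree at hc
        push Not at hc
        obtain ⟨x, y, z, h4, h5, h6, h7⟩ := hc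
        refine Finset.card_pos.2 ⟨(x, y, z), ?_⟩
        rw [nt, mem_filter]
        exact ⟨mem_univ _, h7, h4, h5, h6⟩
      have h4 : #(pull E ω.1 ω.2.1 ω.2.2) ≤ 4 ^ d := by
        refine (Finset.card_le_univ _).trans (le_of_eq ?_)
        rw [Fintype.card_prod, card_V', ← mul_pow]
        norm_num
      have h5 : (#(pull E ω.1 ω.2.1 ω.2.2) : ℝ) ≤ 4 ^ d := by exact_mod_cast h4
      have h6 : (1 : ℝ) ≤ #(nt (pull E ω.1 ω.2.1 ω.2.2)) := by exact_mod_cast h3
      nlinarith [show (0 : ℝ) < 4 ^ d by positivity]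
  have h2 := Finset.sum_le_sum fun (ω : Ω) (_ : ω ∈ (univ : Finset Ω)) => h1 ω
  rw [Finset.sum_add_distrib, ← Finset.mul_sum, Finset.sum_const, Finset.card_univ, nsmul_eq_mul] at h2
  have h3 : (Fintype.card Ω : ℝ) = 4 ^ n * (2 ^ n) ^ d := by
    have : Fintype.card Ω = 2 ^ n * (2 ^ n * (2 ^ n) ^ d) := by
      have h0 : Fintype.card (Fin d → V n) = (2 ^ n) ^ d := by
        rw [Fintype.card_fun, card_V', Fintype.card_fin]
      rw [Fintype.card_prod, Fintype.card_prod, h0, card_V']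
    rw [this]; push_cast
    rw [← mul_assoc, ← mul_pow]; norm_num
  rw [h3] at h2
  have h4 : (∑ ω : Ω, (#(pull E ω.1 ω.2.1 ω.2.2) : ℝ)) = 4 ^ d * (#E * (2 ^ n) ^ d) := by
    exact_mod_cast sum_pull (d := d) E
  rw [h4] at h2
  have h5 : (2 : ℝ) ^ n * ∑ ω : Ω, (#(nt (pull E ω.1 ω.2.1 ω.2.2)) : ℝ) ≤
      8 ^ d * ((2 ^ n) ^ d * corners E) := by exact_mod_cast sum_nt (d := d) E
  set S : ℝ := ∑ ω : Ω, (#(nt (pull E ω.1 ω.2.1 ω.2.2)) : ℝ) with hS
  have hM : (0 : ℝ) < (2 ^ n) ^ d := by positivity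
  have h4d : (0 : ℝ) < 4 ^ d := by positivity
  have h2n : (0 : ℝ) < 2 ^ n := by positivity
  -- divide by `(2 ^ n) ^ d`
  have h6 : ((#E : ℝ) - 4 ^ n * (b / 4 ^ d)) * 2 ^ n * (4 ^ d * (2 ^ n) ^ d) ≤
      8 ^ d * corners E * (4 ^ d * (2 ^ n) ^ d) := by
    have e1 : ((#E : ℝ) - 4 ^ n * (b / 4 ^ d)) * 2 ^ n * (4 ^ d * (2 ^ n) ^ d) =
        2 ^ n * (4 ^ d * (#E * (2 ^ n) ^ d) - 4 ^ n * (2 ^ n) ^ d * b) := by
      field_simp
    rw [e1]
    calc (2 : ℝ) ^ n * (4 ^ d * (#E * (2 ^ n) ^ d) - 4 ^ n * (2 ^ n) ^ d * b)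
        ≤ 2 ^ n * (4 ^ d * S) := mul_le_mul_of_nonneg_left (by linarith) h2n.le
      _ = 4 ^ d * (2 ^ n * S) := by ring
      _ ≤ 4 ^ d * (8 ^ d * ((2 ^ n) ^ d * corners E)) := mul_le_mul_of_nonneg_left h5 h4d.le
      _ = _ := by ring
  exact le_of_mul_le_mul_right h6 (by positivity)

/-- **Many corners.** -/
theorem many_corners {C N : ℕ} (hC : 0 < C) (hN : 1 ≤ N)
    (hbase : ∀ (d : ℕ) (B : Finset (V d × V d)), Twisted N B → CornerFree B →
      (density B / 2) ^ C * (4 : ℝ) ^ ((0.03 : ℝ) * d) ≤ N)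
    (E : Finset (V n × V n)) (hE : Twisted N E) :
    (density E / (2 * N)) ^ (136 * C + 137) * 8 ^ n ≤ corners E := by
  rcases E.eq_empty_or_nonempty with h0 | hne
  · rw [h0]
    simp [density]
  have hE0 : (0 : ℝ) < #E := by exact_mod_cast hne.card_pos
  have e3 : (#E : ℝ) = density E * 4 ^ n := by unfold density; field_simp
  have hδ0 : 0 < density E := by unfold density; positivity
  have hδ1 : density E ≤ 1 := density_le E
  generalize density E = δ at hδ0 hδ1 e3 ⊢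
  have hN1 : (1 : ℝ) ≤ N := by exact_mod_cast hN
  have hN0 : (0 : ℝ) < N := by linarith
  have h4δ : (1 : ℝ) ≤ 4 / δ := by rw [le_div_iff₀ hδ0]; linarith
  have hY : (1 : ℝ) ≤ N * (4 / δ) ^ C := by
    have := one_le_pow₀ h4δ (n := C)
    nlinarith
  obtain ⟨j0, hj1, hj2⟩ := exists_nat_pow_near hY (by norm_num : (1 : ℝ) < 4)
  obtain ⟨d, hd⟩ : ∃ d, d = 34 * (j0 + 1) := ⟨_, rfl⟩
  have hdY : N * (4 / δ) ^ C ≤ (4 : ℝ) ^ ((0.03 : ℝ) * d) := by
    refine hj2.le.trans ?_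
    rw [← Real.rpow_natCast]
    refine Real.rpow_le_rpow_of_exponent_le (by norm_num) ?_
    rw [hd]
    push_cast
    nlinarith [(Nat.cast_nonneg j0 : (0 : ℝ) ≤ j0)]
  have hb := varnavides (d := d) E hE (δ / 2 * 4 ^ d) fun B h1 h2 => by
    have h3 := hbase d B h1 h2
    have hB0 : 0 ≤ density B := by unfold density; positivity
    have h4 : (density B / 2) ^ C ≤ (δ / 4) ^ C := by
      have h5 : (density B / 2) ^ C * (N * (4 / δ) ^ C) ≤ N :=
        le_trans (mul_le_mul_of_nonneg_left hdY (by positivity)) h3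
      have h6 : (δ / 4) ^ C * (N * (4 / δ) ^ C) = N := by
        rw [mul_left_comm, ← mul_pow]
        have : δ / 4 * (4 / δ) = 1 := by field_simp
        rw [this, one_pow, mul_one]
      refine le_of_mul_le_mul_right (a := N * (4 / δ) ^ C) ?_ (by positivity)
      rw [h6]
      exact h5
    have h5 : density B / 2 ≤ δ / 4 := le_of_pow_le_pow_left₀ hC.ne' (by positivity) h4
    have h6 : (#B : ℝ) = density B * 4 ^ d := by unfold density; field_simp
    rw [h6]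
    refine mul_le_mul_of_nonneg_right ?_ (by positivity)
    linarith
  have e1 : δ / 2 * 4 ^ d / 4 ^ d = δ / 2 := by field_simp
  rw [e1] at hb
  have e4 : δ / 2 * 8 ^ n ≤ 8 ^ d * corners E := by
    refine le_trans (le_of_eq ?_) hb
    rw [e3]
    have : (8 : ℝ) ^ n = 4 ^ n * 2 ^ n := by rw [← mul_pow]; norm_num
    rw [this]; ring
  -- the size of `8 ^ d`
  obtain ⟨X, hX⟩ : ∃ X : ℝ, X = 2 * N / δ := ⟨_, rfl⟩
  have h2δ : (2 : ℝ) ≤ 2 / δ := by rw [le_div_iff₀ hδ0]; linarith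
  have hX2δ : 2 / δ ≤ X := by
    rw [hX]
    refine div_le_div_of_nonneg_right ?_ hδ0.le
    linarith
  have hX0 : 0 < X := by linarith
  have hX1 : 1 ≤ X := by linarith
  have e5 : (8 : ℝ) ^ d ≤ X ^ (136 * C + 136) := by
    have h1 : (4 : ℝ) ^ (j0 + 1) ≤ X ^ (2 * C + 2) := by
      have h2 : (4 : ℝ) / δ ≤ (2 / δ) ^ 2 := by
        rw [sq, show (4 : ℝ) / δ = 2 * (2 / δ) by ring]
        exact mul_le_mul_of_nonneg_right h2δ (by linarith)
      have h3 : (4 : ℝ) * N ≤ X ^ 2 := by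
        have h4 : 2 * (N : ℝ) ≤ X := by
          rw [hX, le_div_iff₀ hδ0]
          have : 2 * (N : ℝ) * δ ≤ 2 * N * 1 := mul_le_mul_of_nonneg_left hδ1 (by positivity)
          linarith
        have h5 : (2 : ℝ) ≤ X := by linarith
        nlinarith
      calc (4 : ℝ) ^ (j0 + 1) = 4 * 4 ^ j0 := by rw [pow_succ]; ring
        _ ≤ 4 * (N * (4 / δ) ^ C) := by linarith
        _ = 4 * N * (4 / δ) ^ C := by ring
        _ ≤ X ^ 2 * (X ^ 2) ^ C := by
          refine mul_le_mul h3 ?_ (by positivity) (by positivity)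
          refine pow_le_pow_left₀ (by positivity) (h2.trans ?_) C
          exact pow_le_pow_left₀ (by positivity) hX2δ 2
        _ = X ^ (2 * C + 2) := by rw [← pow_mul, ← pow_add, Nat.add_comm 2 (2 * C)]
    have q1 : 2 * d = (j0 + 1) * 68 := by omega
    have q2 : (2 * C + 2) * 68 = 136 * C + 136 := by omega
    calc (8 : ℝ) ^ d ≤ ((4 : ℝ) ^ 2) ^ d := pow_le_pow_left₀ (by norm_num) (by norm_num) d
      _ = ((4 : ℝ) ^ (j0 + 1)) ^ 68 := by
        rw [← pow_mul, q1, pow_mul]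
      _ ≤ (X ^ (2 * C + 2)) ^ 68 := pow_le_pow_left₀ (by positivity) h1 _
      _ = X ^ (136 * C + 136) := by rw [← pow_mul, q2]
  have hδX : δ / (2 * N) = X⁻¹ := by rw [hX, inv_div]
  have h8n : (0 : ℝ) < 8 ^ n := by positivity
  have hc0 : (0 : ℝ) ≤ corners E := Nat.cast_nonneg _
  have hXδ2 : X⁻¹ ≤ δ / 2 := by
    rw [← hδX]
    refine div_le_div_of_nonneg_left hδ0.le (by norm_num) ?_
    linarith
  have e6 : (X⁻¹) ^ (136 * C + 136) * X ^ (136 * C + 136) = 1 := by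
    rw [← mul_pow, inv_mul_cancel₀ hX0.ne', one_pow]
  rw [hδX]
  have q3 : 136 * C + 137 = (136 * C + 136) + 1 := by omega
  calc (X⁻¹) ^ (136 * C + 137) * 8 ^ n = (X⁻¹) ^ (136 * C + 136) * (X⁻¹ * 8 ^ n) := by
        rw [q3, pow_succ, mul_assoc]
    _ ≤ (X⁻¹) ^ (136 * C + 136) * (δ / 2 * 8 ^ n) := by gcongr
    _ ≤ (X⁻¹) ^ (136 * C + 136) * (8 ^ d * corners E) :=
        mul_le_mul_of_nonneg_left e4 (by positivity)
    _ ≤ (X⁻¹) ^ (136 * C + 136) * (X ^ (136 * C + 136) * corners E) := by gcongr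
    _ = corners E := by rw [← mul_assoc, e6, one_mul]

/-- **Stability.** -/
theorem stability {C : ℕ} {N : ℝ} (A E : Finset (V n × V n)) (hA : CornerFree A)
    (hm : (density E / (2 * N)) ^ C * 8 ^ n ≤ corners E) :
    (density E / (2 * N)) ^ C * 4 ^ n ≤ 3 * #(E \ A) + 2 ^ n := by
  have h2 : (corners E : ℝ) ≤ #E + 3 * (2 ^ n * #(E \ A)) := by exact_mod_cast corners_le A E hA
  have h3 := card_le_four E
  have h2n : (0 : ℝ) < 2 ^ n := by positivity
  have e8 : (8 : ℝ) ^ n = 4 ^ n * 2 ^ n := by rw [← mul_pow]; norm_num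
  have e4 : (4 : ℝ) ^ n = 2 ^ n * 2 ^ n := by rw [← mul_pow]; norm_num
  have h4 : (density E / (2 * N)) ^ C * 4 ^ n * 2 ^ n ≤ (3 * #(E \ A) + 2 ^ n) * 2 ^ n := by
    calc (density E / (2 * N)) ^ C * 4 ^ n * 2 ^ n = (density E / (2 * N)) ^ C * 8 ^ n := by
          rw [e8]; ring
      _ ≤ 4 ^ n + 3 * (2 ^ n * #(E \ A)) := by linarith
      _ = _ := by rw [e4]; ring
  exact le_of_mul_le_mul_right h4 h2n

theorem twisted_bound {C : ℕ} {N : ℝ} (hC : C ≠ 0) (hN1 : 1 ≤ N) (A E : Finset (V n × V n))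
    (hA : CornerFree A) (hm : (density E / (2 * N)) ^ C * 8 ^ n ≤ corners E) (s : ℝ)
    (hs : (#(E \ A) : ℝ) ≤ s) :
    (#E : ℝ) ≤ 2 * N * 4 ^ n * ((3 * s + 2 ^ n) / 4 ^ n) ^ (1 / (C : ℝ)) := by
  have h1 := stability A E hA hm
  have h4n : (0 : ℝ) < 4 ^ n := by positivity
  have hN0 : 0 < N := by linarith
  have hs0 : 0 ≤ s := le_trans (Nat.cast_nonneg _) hs
  have hd0 : 0 ≤ density E := by unfold density; positivity
  have h2 : (density E / (2 * N)) ^ C ≤ (3 * s + 2 ^ n) / 4 ^ n := by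
    rw [le_div_iff₀ h4n]
    linarith
  have h3 : density E / (2 * N) ≤ ((3 * s + 2 ^ n) / 4 ^ n) ^ (1 / (C : ℝ)) := by
    have h4 := Real.rpow_le_rpow (by positivity) h2
      (by positivity : (0 : ℝ) ≤ 1 / (C : ℝ))
    rw [one_div, Real.pow_rpow_inv_natCast (by positivity) hC, ← one_div] at h4
    exact h4
  have h5 : (#E : ℝ) = density E * 4 ^ n := by unfold density; field_simp
  rw [h5]
  calc density E * 4 ^ n = 2 * N * 4 ^ n * (density E / (2 * N)) := by field_simp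
    _ ≤ _ := mul_le_mul_of_nonneg_left h3 (by positivity)

end Pool.Agent.Helper55.BT
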